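import Pool.Agent.Work.MP_8a6869_an.WR.Stmts

/-!
# MP_8a6869_an, wreath products: item CONC

Almost invariant vectors of a nonamenable group have no mass at the points with finite
stabiliser.
-/

namespace MP8a6869.WR.Conc

open scoped InnerProductSpace ComplexOrder ENNReal
open Filter Topology

noncomputable section

/-! ## Multiplication by bounded functions -/

theorem norm_sq {X : Type} (f : ell2 X) : ‖f‖ ^ 2 = ∑' x, ‖f x‖ ^ 2 := by
  have h2 : (0 : ℝ) < (2 : ℝ≥0∞).toReal := by norm_num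
  have := lp.norm_rpow_eq_tsum h2 f
  simpa using this

theorem summable_sq {X : Type} (f : ell2 X) : Summable fun x => ‖f x‖ ^ 2 := by
  have h := lp.memℓp f
  have h2 : (0 : ℝ) < (2 : ℝ≥0∞).toReal := by norm_num
  rw [memℓp_gen_iff h2] at h
  simpa using h

theorem mem_of_summable {X : Type} (f : X → ℂ) (hf : Summable fun x => ‖f x‖ ^ 2) :
    Memℓp f (2 : ℝ≥0∞) := by
  have h2 : (0 : ℝ) < (2 : ℝ≥0∞).toReal := by norm_num
  rw [memℓp_gen_iff h2]
  simpa using hf

theorem norm_sq_le {X : Type} {g : X → ℝ} (h1 : ∀ x, g x ≤ 1) (f : ell2 X) (x : X) :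
    g x * ‖f x‖ ^ 2 ≤ ‖f x‖ ^ 2 := by
  have := mul_le_mul_of_nonneg_right (h1 x) (sq_nonneg ‖f x‖)
  rwa [one_mul] at this

theorem norm_sqrt_mul {X : Type} {g : X → ℝ} (h0 : ∀ x, 0 ≤ g x) (f : ell2 X) (x : X) :
    ‖((Real.sqrt (g x) : ℝ) : ℂ) * f x‖ ^ 2 = g x * ‖f x‖ ^ 2 := by
  rw [norm_mul, mul_pow, Complex.norm_real, Real.norm_eq_abs, sq_abs, Real.sq_sqrt (h0 x)]

theorem summable_mul {X : Type} {g : X → ℝ} (h0 : ∀ x, 0 ≤ g x) (h1 : ∀ x, g x ≤ 1)
    (f : ell2 X) : Summable fun x => g x * ‖f x‖ ^ 2 :=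
  Summable.of_nonneg_of_le (fun x => mul_nonneg (h0 x) (sq_nonneg _))
    (fun x => norm_sq_le h1 f x) (summable_sq f)

/-- Multiplication by the square root of a function with values in `[0, 1]`. -/
def mulv {X : Type} (g : X → ℝ) (h0 : ∀ x, 0 ≤ g x) (h1 : ∀ x, g x ≤ 1) (f : ell2 X) : ell2 X :=
  ⟨fun x => ((Real.sqrt (g x) : ℝ) : ℂ) * f x, mem_of_summable _ (by
    simp only [norm_sqrt_mul h0]
    exact summable_mul h0 h1 f)⟩

theorem mulv_apply {X : Type} (g : X → ℝ) (h0 : ∀ x, 0 ≤ g x) (h1 : ∀ x, g x ≤ 1) (f : ell2 X)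
    (x : X) : mulv g h0 h1 f x = ((Real.sqrt (g x) : ℝ) : ℂ) * f x := rfl

theorem mulv_sub {X : Type} (g : X → ℝ) (h0 : ∀ x, 0 ≤ g x) (h1 : ∀ x, g x ≤ 1)
    (f f' : ell2 X) : mulv g h0 h1 (f - f') = mulv g h0 h1 f - mulv g h0 h1 f' := by
  ext x
  have e1 : (f - f') x = f x - f' x := rfl
  have e2 : (mulv g h0 h1 f - mulv g h0 h1 f') x = mulv g h0 h1 f x - mulv g h0 h1 f' x := rfl
  rw [mulv_apply, e1, e2, mulv_apply, mulv_apply, mul_sub]

theorem mulv_norm_sq {X : Type} (g : X → ℝ) (h0 : ∀ x, 0 ≤ g x) (h1 : ∀ x, g x ≤ 1)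
    (f : ell2 X) : ‖mulv g h0 h1 f‖ ^ 2 = ∑' x, g x * ‖f x‖ ^ 2 := by
  rw [norm_sq]
  refine tsum_congr fun x => ?_
  rw [mulv_apply, norm_sqrt_mul h0]

theorem mulv_norm_le {X : Type} (g : X → ℝ) (h0 : ∀ x, 0 ≤ g x) (h1 : ∀ x, g x ≤ 1)
    (f : ell2 X) : ‖mulv g h0 h1 f‖ ≤ ‖f‖ := by
  refine le_of_sq_le_sq ?_ (norm_nonneg _)
  rw [mulv_norm_sq, norm_sq]
  exact (summable_mul h0 h1 f).tsum_le_tsum (fun x => norm_sq_le h1 f x) (summable_sq f)

/-! ## Orbit representatives -/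

section Rep

variable {Γ X : Type} [Group Γ] [MulAction Γ X]

variable (Γ) in
/-- The orbit representative. -/
def rep (x : X) : X := (Quotient.mk (MulAction.orbitRel Γ X) x).out

theorem rep_smul (δ : Γ) (x : X) : rep Γ (δ • x) = rep Γ x := by
  unfold rep
  congr 1
  exact Quotient.sound (MulAction.mem_orbit x δ)

theorem exists_rep (x : X) : ∃ γ : Γ, γ • rep Γ x = x := by
  have h : (MulAction.orbitRel Γ X) (rep Γ x) x := Quotient.mk_out (s := MulAction.orbitRel Γ X) x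
  exact (MulAction.orbitRel Γ X).symm h

variable (Γ) in
/-- The elements which map the representative to `x`. -/
def T (x : X) : Set Γ := {γ | γ • rep Γ x = x}

theorem mem_T (γ : Γ) (x : X) : γ ∈ T Γ x ↔ γ • rep Γ x = x := Iff.rfl

theorem T_finite {x : X} (hx : {γ : Γ | γ • x = x}.Finite) : (T Γ x).Finite := by
  obtain ⟨γ₀, h₀⟩ := exists_rep (Γ := Γ) x
  refine (hx.image fun γ => γ * γ₀).subset ?_
  intro γ hγ
  rw [mem_T] at hγ
  refine ⟨γ * γ₀⁻¹, ?_, by simp⟩
  change (γ * γ₀⁻¹) • x = x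
  rw [mul_smul]
  conv_lhs => rw [← h₀]
  rw [inv_smul_smul, hγ]

theorem T_nonempty (x : X) : (T Γ x).Nonempty := exists_rep x

theorem T_smul (δ : Γ) (x : X) : T Γ (δ • x) = (fun γ => δ * γ) '' T Γ x := by
  ext γ
  rw [mem_T, rep_smul]
  constructor
  · intro h
    refine ⟨δ⁻¹ * γ, ?_, by simp⟩
    rw [mem_T, mul_smul, h, inv_smul_smul]
  · rintro ⟨γ', h, rfl⟩
    rw [mem_T] at h
    change (δ * γ') • rep Γ x = δ • x
    rw [mul_smul, h]

open Classical in
/-- The weight function of a set `A`. -/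
def wt (A : Set Γ) (x : X) : ℝ :=
  if {γ : Γ | γ • x = x}.Finite then ((A ∩ T Γ x).ncard : ℝ) / ((T Γ x).ncard : ℝ) else 0

theorem wt_nonneg (A : Set Γ) (x : X) : 0 ≤ wt A x := by
  unfold wt
  split_ifs
  · positivity
  · exact le_rfl

theorem wt_le (A : Set Γ) (x : X) : wt A x ≤ 1 := by
  unfold wt
  split_ifs with h
  · refine div_le_one_of_le₀ ?_ (by positivity)
    exact_mod_cast Set.ncard_le_ncard Set.inter_subset_right (T_finite h)
  · exact zero_le_one

theorem wt_univ {x : X} (hx : {γ : Γ | γ • x = x}.Finite) : wt (Set.univ : Set Γ) x = 1 := by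
  unfold wt
  rw [if_pos hx, Set.univ_inter, div_self]
  have := (Set.ncard_pos (T_finite hx)).2 (T_nonempty (Γ := Γ) x)
  positivity

theorem wt_univ' {x : X} (hx : ¬ {γ : Γ | γ • x = x}.Finite) (A : Set Γ) : wt A x = 0 := by
  unfold wt
  rw [if_neg hx]

theorem wt_union {A B : Set Γ} (h : Disjoint A B) (x : X) : wt (A ∪ B) x = wt A x + wt B x := by
  unfold wt
  split_ifs with hx
  · have hT := T_finite (Γ := Γ) hx
    rw [Set.union_inter_distrib_right, Set.ncard_union_eq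
      (h.mono Set.inter_subset_left Set.inter_subset_left)
      (hT.subset Set.inter_subset_right) (hT.subset Set.inter_subset_right)]
    push_cast
    ring
  · simp

theorem stab_smul (δ : Γ) (x : X) :
    {γ : Γ | γ • δ • x = δ • x}.Finite ↔ {γ : Γ | γ • x = x}.Finite := by
  have key : ∀ (δ : Γ) (x : X), {γ : Γ | γ • x = x}.Finite →
      {γ : Γ | γ • δ • x = δ • x}.Finite := by
    intro δ x h
    refine (h.image fun γ => δ * γ * δ⁻¹).subset ?_
    intro γ hγ
    have hγ' : γ • δ • x = δ • x := hγ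
    refine ⟨δ⁻¹ * γ * δ, ?_, by group⟩
    change (δ⁻¹ * γ * δ) • x = x
    rw [mul_smul, mul_smul, hγ', inv_smul_smul]
  constructor
  · intro h
    have := key δ⁻¹ (δ • x) h
    simpa using this
  · exact key δ x

theorem wt_smul (δ : Γ) (A : Set Γ) (x : X) :
    wt ((fun γ => δ * γ) '' A) (δ • x) = wt A x := by
  have hinj : Function.Injective fun γ : Γ => δ * γ := mul_right_injective δ
  unfold wt
  by_cases hx : {γ : Γ | γ • x = x}.Finite
  · rw [if_pos hx, if_pos ((stab_smul δ x).2 hx), T_smul, ← Set.image_inter hinj,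
      Set.ncard_image_of_injective _ hinj, Set.ncard_image_of_injective _ hinj]
  · rw [if_neg hx, if_neg (fun h => hx ((stab_smul δ x).1 h))]

end Rep

/-! ## The invariant mean -/

theorem exists_lim {U : Ultrafilter ℕ} (a : ℕ → ℝ) {C : ℝ}
    (h : ∀ᶠ n in (U : Filter ℕ), a n ∈ Set.Icc 0 C) : ∃ l, 0 ≤ l ∧ Tendsto a U (𝓝 l) := by
  obtain ⟨l, hl, hl'⟩ := isCompact_Icc.ultrafilter_le_nhds (U.map a)
    (by
      rw [le_principal_iff]
      exact h)
  exact ⟨l, hl.1, hl'⟩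

end

end MP8a6869.WR.Conc

namespace MP8a6869.WR

open scoped InnerProductSpace ComplexOrder ENNReal
open Filter Topology Conc

theorem conc : ConcStmt := by
  intro Γ X _ _ hna U v hv hinv
  by_contra hcon
  apply hna
  -- the limits
  have hb : ∀ᶠ n in (U : Filter ℕ), ‖v n‖ ≤ 2 :=
    (hv.eventually (gt_mem_nhds (show (1 : ℝ) < 2 by norm_num))).mono fun n hn => hn.le
  have hex : ∀ A : Set Γ, ∃ l, 0 ≤ l ∧
      Tendsto (fun n => ‖mulv (wt (X := X) A) (wt_nonneg A) (wt_le A) (v n)‖) U (𝓝 l) := by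
    intro A
    refine exists_lim (C := 2) _ ?_
    filter_upwards [hb] with n hn
    exact ⟨norm_nonneg _, (mulv_norm_le _ _ _ _).trans hn⟩
  choose L hL0 hL using hex
  have hL2 : ∀ A : Set Γ, Tendsto (fun n => ∑' x, wt (X := X) A x * ‖v n x‖ ^ 2) U
      (𝓝 (L A ^ 2)) := by
    intro A
    have := (hL A).pow 2
    refine this.congr fun n => ?_
    rw [mulv_norm_sq]
  have huniv : ∀ n, ∑' x, wt (X := X) (Set.univ : Set Γ) x * ‖v n x‖ ^ 2 =
      ∑' x : {x : X // {γ : Γ | γ • x = x}.Finite}, ‖v n x.1‖ ^ 2 := by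
    intro n
    have h1 := tsum_subtype {x : X | {γ : Γ | γ • x = x}.Finite} (fun x => ‖v n x‖ ^ 2)
    have h2 : ∑' x : {x : X // {γ : Γ | γ • x = x}.Finite}, ‖v n x.1‖ ^ 2 =
      ∑' x, Set.indicator {x : X | {γ : Γ | γ • x = x}.Finite} (fun x => ‖v n x‖ ^ 2) x := h1
    rw [h2]
    refine tsum_congr fun x => ?_
    by_cases hx : {γ : Γ | γ • x = x}.Finite
    · rw [wt_univ hx, one_mul, Set.indicator_of_mem]
      exact hx
    · rw [wt_univ' hx, zero_mul, Set.indicator_of_notMem]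
      exact hx
  have hθ : L Set.univ ^ 2 ≠ 0 := by
    intro h0
    apply hcon
    have := hL2 Set.univ
    rw [h0] at this
    refine this.congr fun n => huniv n
  refine ⟨fun A => L A ^ 2 / L Set.univ ^ 2, fun A => by positivity, div_self hθ, ?_, ?_⟩
  · intro A B hAB
    have h1 : L (A ∪ B) ^ 2 = L A ^ 2 + L B ^ 2 := by
      refine tendsto_nhds_unique (hL2 (A ∪ B)) (((hL2 A).add (hL2 B)).congr fun n => ?_)
      rw [← (summable_mul (wt_nonneg A) (wt_le A) (v n)).tsum_add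
        (summable_mul (wt_nonneg B) (wt_le B) (v n))]
      refine tsum_congr fun x => ?_
      rw [wt_union hAB, add_mul]
    change L (A ∪ B) ^ 2 / L Set.univ ^ 2 = L A ^ 2 / L Set.univ ^ 2 + L B ^ 2 / L Set.univ ^ 2
    rw [h1, add_div]
  · intro g A
    have h1 : L ((fun x => g * x) '' A) = L A := by
      -- along `U` the norms of `mulv A v` and `mulv A (permL g v)` have the same limit
      have h2 : Tendsto (fun n => ‖mulv (wt (X := X) A) (wt_nonneg A) (wt_le A)
          (permL (MulAction.toPerm g) (v n))‖ -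
          ‖mulv (wt (X := X) A) (wt_nonneg A) (wt_le A) (v n)‖) U (𝓝 0) := by
        refine squeeze_zero_norm (fun n => ?_) (hinv g)
        rw [Real.norm_eq_abs]
        refine (abs_norm_sub_norm_le _ _).trans ?_
        rw [← mulv_sub]
        exact mulv_norm_le _ _ _ _
      have h3 := h2.add (hL A)
      rw [zero_add] at h3
      have h4 : L ((fun x => g * x) '' A) ^ 2 = L A ^ 2 := by
        refine tendsto_nhds_unique (hL2 _) ((h3.pow 2).congr fun n => ?_)
        rw [sub_add_cancel, mulv_norm_sq,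
          ← (MulAction.toPerm g : Equiv.Perm X).tsum_eq
            (fun x => wt ((fun x => g * x) '' A) x * ‖v n x‖ ^ 2)]
        refine tsum_congr fun x => ?_
        rw [permL_apply, MulAction.toPerm_apply, wt_smul]
      exact (sq_eq_sq₀ (hL0 _) (hL0 _)).1 h4
    change L ((fun x => g * x) '' A) ^ 2 / L Set.univ ^ 2 = L A ^ 2 / L Set.univ ^ 2
    rw [h1]

end MP8a6869.WR
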