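import Pool.Agent.Work.MP_8a6869_an.WR.Stmts3
import Pool.Agent.Work.MP_8a6869_an.WR.Conc

/-!
# MP_8a6869_an, homogeneity: item CONCA

Almost invariant vectors of a nonamenable group have no mass at the points with amenable
stabiliser.
-/

namespace MP8a6869.WR.ConcA

open scoped InnerProductSpace ComplexOrder ENNReal
open Filter Topology Conc

noncomputable section

theorem isAmen_congr {G H : Type} [Group G] [Group H] (e : G ≃* H) (h : IsAmen G) :
    IsAmen H := by
  obtain ⟨m, h0, h1, h2, h3⟩ := h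
  refine ⟨fun A => m (e ⁻¹' A), fun A => h0 _, ?_, ?_, ?_⟩
  · change m (e ⁻¹' Set.univ) = 1
    rw [Set.preimage_univ, h1]
  · intro A B hAB
    change m (e ⁻¹' (A ∪ B)) = m (e ⁻¹' A) + m (e ⁻¹' B)
    rw [Set.preimage_union, h2 _ _ (hAB.preimage e)]
  · intro g A
    change m (e ⁻¹' ((fun x => g * x) '' A)) = m (e ⁻¹' A)
    rw [← h3 (e.symm g) (e ⁻¹' A)]
    congr 1
    ext x
    simp only [Set.mem_preimage, Set.mem_image]
    constructor
    · rintro ⟨y, hy, hyx⟩
      refine ⟨e.symm y, by simpa using hy, ?_⟩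
      apply e.injective
      simp [hyx]
    · rintro ⟨y, hy, rfl⟩
      exact ⟨e y, hy, by simp⟩

section Rep

variable {Γ X : Type} [Group Γ] [MulAction Γ X]

open Classical in
/-- The chosen mean on the stabiliser of `x`, as a function on the subsets of `Γ`. -/
def mu (x : X) (B : Set Γ) : ℝ :=
  if h : IsAmen (MulAction.stabilizer Γ x) then
    Classical.choose h (Subtype.val ⁻¹' B) else 0

theorem mu_nonneg (x : X) (B : Set Γ) : 0 ≤ mu x B := by
  unfold mu
  split_ifs with h
  · exact (Classical.choose_spec h).1 _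
  · exact le_rfl

theorem mu_univ {x : X} (h : IsAmen (MulAction.stabilizer Γ x)) :
    mu x (Set.univ : Set Γ) = 1 := by
  unfold mu
  rw [dif_pos h, Set.preimage_univ]
  exact (Classical.choose_spec h).2.1

theorem mu_zero {x : X} (h : ¬ IsAmen (MulAction.stabilizer Γ x)) (B : Set Γ) :
    mu x B = 0 := by
  unfold mu
  rw [dif_neg h]

theorem mu_union (x : X) {A B : Set Γ} (hAB : Disjoint A B) :
    mu x (A ∪ B) = mu x A + mu x B := by
  unfold mu
  split_ifs with h
  · rw [Set.preimage_union]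
    exact (Classical.choose_spec h).2.2.1 _ _ (hAB.preimage _)
  · simp

theorem mu_le (x : X) (B : Set Γ) : mu x B ≤ 1 := by
  by_cases h : IsAmen (MulAction.stabilizer Γ x)
  · have h1 := mu_union x (disjoint_compl_right (a := B))
    rw [Set.union_compl_self, mu_univ h] at h1
    have := mu_nonneg x Bᶜ
    linarith
  · rw [mu_zero h]
    exact zero_le_one

theorem mu_smul (x : X) (t : Γ) (ht : t • x = x) (B : Set Γ) :
    mu x {s | t * s ∈ B} = mu x B := by
  unfold mu
  split_ifs with h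
  · have ht' : t⁻¹ ∈ MulAction.stabilizer Γ x := by
      rw [MulAction.mem_stabilizer_iff, inv_smul_eq_iff, ht]
    have h1 := (Classical.choose_spec h).2.2.2 ⟨t⁻¹, ht'⟩ (Subtype.val ⁻¹' B)
    rw [← h1]
    refine congrArg _ ?_
    ext s
    simp only [Set.mem_preimage, Set.mem_image]
    constructor
    · intro hs
      have hts : t * (s : Γ) ∈ MulAction.stabilizer Γ x := by
        rw [MulAction.mem_stabilizer_iff, mul_smul, MulAction.mem_stabilizer_iff.1 s.2, ht]
      exact ⟨⟨t * s, hts⟩, hs, Subtype.ext (by simp)⟩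
    · rintro ⟨y, hy, rfl⟩
      simpa using hy
  · rfl

/-- An element which maps the representative to `x`. -/
def gm (x : X) : Γ := Classical.choose (exists_rep (Γ := Γ) x)

theorem gm_smul (x : X) : (gm x : Γ) • rep Γ x = x := Classical.choose_spec (exists_rep (Γ := Γ) x)

/-- The weight function of a set `A`. -/
def wt (A : Set Γ) (x : X) : ℝ := mu (rep Γ x) {s | gm x * s ∈ A}

theorem wt_nonneg (A : Set Γ) (x : X) : 0 ≤ wt A x := mu_nonneg _ _

theorem wt_le (A : Set Γ) (x : X) : wt A x ≤ 1 := mu_le _ _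

theorem amen_rep (x : X) :
    IsAmen (MulAction.stabilizer Γ (rep Γ x)) ↔ IsAmen (MulAction.stabilizer Γ x) := by
  have e := MulAction.stabilizerEquivStabilizer (gm_smul (Γ := Γ) x).symm
  exact ⟨isAmen_congr e, isAmen_congr e.symm⟩

theorem wt_univ {x : X} (hx : IsAmen (MulAction.stabilizer Γ x)) :
    wt (Set.univ : Set Γ) x = 1 := by
  have h : {s : Γ | gm x * s ∈ (Set.univ : Set Γ)} = Set.univ := by
    ext s
    simp
  unfold wt
  rw [h, mu_univ ((amen_rep x).2 hx)]

theorem wt_univ' {x : X} (hx : ¬ IsAmen (MulAction.stabilizer Γ x)) (A : Set Γ) :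
    wt A x = 0 := mu_zero (fun h => hx ((amen_rep x).1 h)) _

theorem wt_union {A B : Set Γ} (h : Disjoint A B) (x : X) : wt (A ∪ B) x = wt A x + wt B x := by
  unfold wt
  rw [← mu_union]
  · rfl
  · exact h.preimage (fun s => gm x * s)

theorem wt_smul (δ : Γ) (A : Set Γ) (x : X) :
    wt ((fun γ => δ * γ) '' A) (δ • x) = wt A x := by
  unfold wt
  have hr : rep Γ (δ • x) = rep Γ x := rep_smul δ x
  have ht : ((gm x : Γ)⁻¹ * δ⁻¹ * gm (δ • x)) • rep Γ x = rep Γ x := by
    have h1 := gm_smul (Γ := Γ) (δ • x)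
    rw [hr] at h1
    rw [mul_smul, mul_smul, h1, inv_smul_smul, inv_smul_eq_iff]
    exact (gm_smul (Γ := Γ) x).symm
  rw [hr, ← mu_smul (rep Γ x) _ ht {s | gm x * s ∈ A}]
  refine congrArg _ ?_
  ext s
  simp only [Set.mem_image]
  constructor
  · rintro ⟨y, hy, hys⟩
    have : gm x * ((gm x)⁻¹ * δ⁻¹ * gm (δ • x) * s) = y := by
      rw [show gm x * ((gm x)⁻¹ * δ⁻¹ * gm (δ • x) * s) = δ⁻¹ * (gm (δ • x) * s) by group, ← hys]
      group
    change gm x * ((gm x)⁻¹ * δ⁻¹ * gm (δ • x) * s) ∈ A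
    rw [this]
    exact hy
  · intro hs
    refine ⟨gm x * ((gm x)⁻¹ * δ⁻¹ * gm (δ • x) * s), hs, ?_⟩
    group

end Rep

end

end MP8a6869.WR.ConcA

namespace MP8a6869.WR

open scoped InnerProductSpace ComplexOrder ENNReal
open Filter Topology Conc

theorem concA : ConcAStmt := by
  intro Γ X _ _ hna U v hv hinv
  by_contra hcon
  apply hna
  -- the limits
  have hb : ∀ᶠ n in (U : Filter ℕ), ‖v n‖ ≤ 2 :=
    (hv.eventually (gt_mem_nhds (show (1 : ℝ) < 2 by norm_num))).mono fun n hn => hn.le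
  have hex : ∀ A : Set Γ, ∃ l, 0 ≤ l ∧
      Tendsto (fun n => ‖mulv (ConcA.wt (X := X) A) (ConcA.wt_nonneg A) (ConcA.wt_le A) (v n)‖) U
        (𝓝 l) := by
    intro A
    refine exists_lim (C := 2) _ ?_
    filter_upwards [hb] with n hn
    exact ⟨norm_nonneg _, (mulv_norm_le _ _ _ _).trans hn⟩
  choose L hL0 hL using hex
  have hL2 : ∀ A : Set Γ, Tendsto (fun n => ∑' x, ConcA.wt (X := X) A x * ‖v n x‖ ^ 2) U
      (𝓝 (L A ^ 2)) := by
    intro A
    have := (hL A).pow 2
    refine this.congr fun n => ?_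
    rw [mulv_norm_sq]
  have huniv : ∀ n, ∑' x, ConcA.wt (X := X) (Set.univ : Set Γ) x * ‖v n x‖ ^ 2 =
      ∑' x : {x : X // IsAmen (MulAction.stabilizer Γ x)}, ‖v n x.1‖ ^ 2 := by
    intro n
    have h1 := tsum_subtype {x : X | IsAmen (MulAction.stabilizer Γ x)} (fun x => ‖v n x‖ ^ 2)
    have h2 : ∑' x : {x : X // IsAmen (MulAction.stabilizer Γ x)}, ‖v n x.1‖ ^ 2 =
      ∑' x, Set.indicator {x : X | IsAmen (MulAction.stabilizer Γ x)} (fun x => ‖v n x‖ ^ 2) x :=
        h1
    rw [h2]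
    refine tsum_congr fun x => ?_
    by_cases hx : IsAmen (MulAction.stabilizer Γ x)
    · rw [ConcA.wt_univ hx, one_mul, Set.indicator_of_mem]
      exact hx
    · rw [ConcA.wt_univ' hx, zero_mul, Set.indicator_of_notMem]
      exact hx
  have hθ : L Set.univ ^ 2 ≠ 0 := by
    intro h0
    apply hcon
    have := hL2 Set.univ
    rw [h0] at this
    refine this.congr fun n => huniv n
  refine ⟨fun A => L A ^ 2 / L Set.univ ^ 2, fun A => by positivity, div_self hθ, ?_, ?_⟩
  · intro A B hAB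
    have h1 : L (A ∪ B) ^ 2 = L A ^ 2 + L B ^ 2 := by
      refine tendsto_nhds_unique (hL2 (A ∪ B)) (((hL2 A).add (hL2 B)).congr fun n => ?_)
      rw [← (summable_mul (ConcA.wt_nonneg A) (ConcA.wt_le A) (v n)).tsum_add
        (summable_mul (ConcA.wt_nonneg B) (ConcA.wt_le B) (v n))]
      refine tsum_congr fun x => ?_
      rw [ConcA.wt_union hAB, add_mul]
    change L (A ∪ B) ^ 2 / L Set.univ ^ 2 = L A ^ 2 / L Set.univ ^ 2 + L B ^ 2 / L Set.univ ^ 2
    rw [h1, add_div]
  · intro g A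
    have h1 : L ((fun x => g * x) '' A) = L A := by
      have h2 : Tendsto (fun n => ‖mulv (ConcA.wt (X := X) A) (ConcA.wt_nonneg A) (ConcA.wt_le A)
          (permL (MulAction.toPerm g) (v n))‖ -
          ‖mulv (ConcA.wt (X := X) A) (ConcA.wt_nonneg A) (ConcA.wt_le A) (v n)‖) U (𝓝 0) := by
        refine squeeze_zero_norm (fun n => ?_) (hinv g)
        rw [Real.norm_eq_abs]
        refine (abs_norm_sub_norm_le _ _).trans ?_
        rw [← mulv_sub]
        exact mulv_norm_le _ _ _ _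
      have h3 := h2.add (hL A)
      rw [zero_add] at h3
      have h4 : L ((fun x => g * x) '' A) ^ 2 = L A ^ 2 := by
        refine tendsto_nhds_unique (hL2 _) ((h3.pow 2).congr fun n => ?_)
        rw [sub_add_cancel, mulv_norm_sq,
          ← (MulAction.toPerm g : Equiv.Perm X).tsum_eq
            (fun x => ConcA.wt ((fun x => g * x) '' A) x * ‖v n x‖ ^ 2)]
        refine tsum_congr fun x => ?_
        rw [permL_apply, MulAction.toPerm_apply, ConcA.wt_smul]
      exact (sq_eq_sq₀ (hL0 _) (hL0 _)).1 h4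
    change L ((fun x => g * x) '' A) ^ 2 / L Set.univ ^ 2 = L A ^ 2 / L Set.univ ^ 2
    rw [h1]

end MP8a6869.WR
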