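import Pool.Agent.Work.MP_8a6869_an.WR.Stmts3
import Pool.Agent.Work.MP_8a6869_an.Bd.B02

/-!
# MP_8a6869_an, homogeneity, item COVA: the covariance of two embeddings of a group
-/

namespace MP8a6869.WR.CovA

open scoped InnerProductSpace ComplexOrder
open MonoidAlgebra

noncomputable section

/-- The matrix unit `E_00`. -/
def e0 : M3 := Matrix.single 0 0 1

/-- The projection `E_11 + E_22`. -/
def e12 : M3 := Matrix.single 1 1 1 + Matrix.single 2 2 1

theorem e0_e0 : e0 * e0 = e0 := by
  simp [e0]

theorem e0_e12 : e0 * e12 = 0 := by
  simp [e0, e12, mul_add]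

theorem e12_e0 : e12 * e0 = 0 := by
  simp [e0, e12, add_mul]

theorem e12_e12 : e12 * e12 = e12 := by
  simp [e12, add_mul, mul_add]

theorem e0_add : e0 + e12 = 1 := by
  ext a b
  fin_cases a <;> fin_cases b <;> simp [e0, e12]

theorem star_e0 : star e0 = e0 := by
  ext a b
  fin_cases a <;> fin_cases b <;>
    simp [e0, Matrix.star_apply]

theorem star_e12 : star e12 = e12 := by
  ext a b
  fin_cases a <;> fin_cases b <;>
    simp [e12, Matrix.star_apply]

theorem tr_e0 : trM3.τ e0 = 1 / 3 := by
  change (((1 / 3 : ℝ) : ℂ)) * ∑ i : Fin 3, e0 i i = 1 / 3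
  simp [e0, Matrix.single_apply]

theorem tr_one : trM3.τ 1 = 1 := by
  change (((1 / 3 : ℝ) : ℂ)) * ∑ i : Fin 3, (1 : M3) i i = 1
  simp

variable {G H : Type} [Group G] [Group H] (i α : H →* G)

/-- The homomorphism `h ↦ diag (α h, h, h)`. -/
def th : H →* AG (G × G) where
  toFun h := single (α h, 1) e0 + single (i h, 1) e12
  map_one' := by
    rw [map_one, map_one, ← single_add, e0_add]
    rfl
  map_mul' h k := by
    rw [add_mul, mul_add, mul_add, single_mul_single, single_mul_single, single_mul_single,
      single_mul_single, e0_e0, e0_e12, e12_e0, e12_e12, single_zero, single_zero, add_zero,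
      zero_add, map_mul, map_mul]
    simp only [Prod.mk_mul_mk, mul_one]

theorem th_apply (h : H) : th i α h = single (α h, 1) e0 + single (i h, 1) e12 := rfl

theorem star_th (h : H) : star (th i α h) = th i α h⁻¹ := by
  rw [th_apply, th_apply, star_add, star_single_ma, star_single_ma, star_e0, star_e12, map_inv,
    map_inv]
  simp

/-- The trace of `single g m * star (th h)`. -/
theorem tau_single (g : G × G) (m : M3) (h : H) [Decidable (g = (α h, 1))]
    [Decidable (g = (i h, 1))] :
    (trA (G × G)).τ (single g m * star (th i α h)) =
      (if g = (α h, 1) then trM3.τ (m * e0) else 0) +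
        (if g = (i h, 1) then trM3.τ (m * e12) else 0) := by
  classical
  have key : ∀ (k : H →* G) (e : M3), trM3.τ ((single (g * (k h⁻¹, 1)) (m * e) :
      AG (G × G)).coeff 1) = if g = (k h, 1) then trM3.τ (m * e) else 0 := by
    intro k e
    rw [coeff_single, Finsupp.single_apply]
    have h1 : (g * (k h⁻¹, 1) = 1) ↔ g = (k h, 1) := by
      rw [map_inv, mul_eq_one_iff_eq_inv, Prod.inv_mk, inv_inv, inv_one]
    by_cases h2 : g = (k h, 1)
    · rw [if_pos (h1.2 h2), if_pos h2]
    · rw [if_neg (fun h3 => h2 (h1.1 h3)), if_neg h2, map_zero]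
  rw [star_th, th_apply, mul_add, single_mul_single, single_mul_single, map_add]
  change trM3.τ ((single (g * (α h⁻¹, 1)) (m * e0) : AG (G × G)).coeff 1) +
    trM3.τ ((single (g * (i h⁻¹, 1)) (m * e12) : AG (G × G)).coeff 1) = _
  rw [key, key]
  congr 1 <;> congr 1

theorem fin_single (hi : Function.Injective i) (hα : Function.Injective α) (g : G × G) (m : M3) :
    (Function.support fun h : H => (trA (G × G)).τ (single g m * star (th i α h))).Finite := by
  classical
  have h1 : ∀ k : H →* G, Function.Injective k → {h : H | g = (k h, 1)}.Finite := by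
    intro k hk
    refine Set.Subsingleton.finite ?_
    intro a ha b hb
    have : (k a, (1 : G)) = (k b, 1) := ha.symm.trans hb
    exact hk (Prod.ext_iff.1 this).1
  refine ((h1 α hα).union (h1 i hi)).subset ?_
  intro h hh
  rw [Function.mem_support, tau_single] at hh
  by_contra hcon
  rw [Set.mem_union, Set.mem_ofPred_eq, Set.mem_ofPred_eq, not_or] at hcon
  rw [if_neg hcon.1, if_neg hcon.2, add_zero] at hh
  exact hh rfl

theorem fin (hi : Function.Injective i) (hα : Function.Injective α) (x : AG (G × G)) :
    (Function.support fun h : H => (trA (G × G)).τ (x * star (th i α h))).Finite := by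
  induction x using MonoidAlgebra.induction_linear with
  | zero =>
    refine Set.Finite.subset Set.finite_empty ?_
    intro h hh
    rw [Function.mem_support, zero_mul, map_zero] at hh
    exact hh rfl
  | add x y hx hy =>
    refine (hx.union hy).subset ?_
    intro h hh
    by_contra hcon
    rw [Set.mem_union, not_or, Function.notMem_support, Function.notMem_support] at hcon
    rw [Function.mem_support, add_mul, map_add, hcon.1, hcon.2, add_zero] at hh
    exact hh rfl
  | single g m => exact fin_single i α hi hα g m

/-- The map `P`. -/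
def P (hi : Function.Injective i) (hα : Function.Injective α) :
    AG (G × G) →ₗ[ℂ] MonoidAlgebra ℂ H where
  toFun x := .ofCoeff (Finsupp.ofSupportFinite (fun f => (trA (G × G)).τ (x * star (th i α f)))
    (fin i α hi hα x))
  map_add' x y := by
    ext f
    change (trA (G × G)).τ ((x + y) * star (th i α f)) =
      (trA (G × G)).τ (x * star (th i α f)) + (trA (G × G)).τ (y * star (th i α f))
    rw [add_mul, map_add]
  map_smul' c x := by
    ext f
    change (trA (G × G)).τ ((c • x) * star (th i α f)) =
      c * (trA (G × G)).τ (x * star (th i α f))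
    rw [smul_mul_assoc, map_smul, smul_eq_mul]

theorem P_coeff (hi : Function.Injective i) (hα : Function.Injective α) (x : AG (G × G))
    (f : H) : (P i α hi hα x).coeff f = (trA (G × G)).τ (x * star (th i α f)) := rfl

/-- The map `Θ`. -/
def Th : MonoidAlgebra ℂ H →⋆ₐ[ℂ] AG (G × G) where
  toAlgHom := lift ℂ (AG (G × G)) H (th i α)
  map_star' b := by
    change lift ℂ (AG (G × G)) H (th i α) (star b) =
      star (lift ℂ (AG (G × G)) H (th i α) b)
    induction b using MonoidAlgebra.induction_linear with
    | zero => simp
    | add x y hx hy => rw [star_add, map_add, map_add, star_add, hx, hy]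
    | single f c =>
      rw [star_single_ma, lift_single, lift_single, star_smul, star_th]

theorem Th_single (f : H) (c : ℂ) : Th i α (single f c) = c • th i α f :=
  lift_single _ _ _

theorem tr_th [DecidableEq H] (hi : Function.Injective i) (hα : Function.Injective α) (f : H) :
    (trA (G × G)).τ (th i α f) = if f = 1 then 1 else 0 := by
  classical
  split_ifs with hf
  · rw [hf, map_one]
    change trM3.τ ((1 : AG (G × G)).coeff 1) = 1
    rw [one_def, coeff_single, Finsupp.single_eq_same, tr_one]
  · change trM3.τ ((th i α f).coeff 1) = 0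
    have h1 : ∀ k : H →* G, Function.Injective k → ¬ ((k f, (1 : G)) = 1) := by
      intro k hk h2
      apply hf
      apply hk
      rw [map_one]
      exact (Prod.ext_iff.1 h2).1
    rw [th_apply, coeff_add, Finsupp.add_apply, coeff_single, coeff_single,
      Finsupp.single_apply, Finsupp.single_apply, if_neg (h1 α hα), if_neg (h1 i hi), add_zero,
      map_zero]

/-- The conditional expectation pair. -/
def cpair (hi : Function.Injective i) (hα : Function.Injective α) :
    CondPair (trA (G × G)) (trB H) where
  Θ := Th i α
  P := P i α hi hα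
  tr_Θ b := by
    classical
    induction b using MonoidAlgebra.induction_linear with
    | zero => simp
    | add x y hx hy => rw [map_add, map_add, map_add, hx, hy]
    | single f c =>
      rw [Th_single, map_smul, tr_th i α hi hα]
      change _ = (single f c : MonoidAlgebra ℂ H).coeff 1
      rw [coeff_single, Finsupp.single_apply, smul_eq_mul]
      split_ifs <;> simp
  adj x b := by
    induction b using MonoidAlgebra.induction_linear with
    | zero => simp
    | add y z hy hz => rw [mul_add, map_add, hy, hz, map_add, mul_add, map_add]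
    | single f c =>
      change (P i α hi hα x * single f c).coeff 1 = _
      rw [coeff_mul_single_apply, Th_single, P_coeff, one_mul, star_th, inv_inv,
        mul_smul_comm, map_smul, smul_eq_mul, mul_comm]

end

end MP8a6869.WR.CovA

namespace MP8a6869.WR

open scoped InnerProductSpace ComplexOrder
open MonoidAlgebra CovA

noncomputable section

/-- [COVA] The covariance of two embeddings `i, α` of a group `H` in `G`. -/
theorem covA : CovAStmt := by
  classical
  intro G H _ _ i α hi hα
  obtain ⟨C, hE⟩ := cov psdt (AG (G × G)) (MonoidAlgebra ℂ H) (trA (G × G)) (trB H)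
    (cpair i α hi hα) (fun n _ _ X => dom.2.1 _ (dom.2.2 ℂ dom.1 _) n X) (trB_nondeg _)
  have hE' : ∀ x, C.E x = Th i α (P i α hi hα x) := hE
  refine ⟨C, ?_, ?_, ?_⟩
  · intro g m hg
    have h0 : P i α hi hα (single g m) = 0 := by
      ext f
      rw [P_coeff, tau_single, if_neg, if_neg, add_zero]
      · rfl
      · intro h1
        exact hg (by rw [h1])
      · intro h1
        exact hg (by rw [h1])
    rw [hE', h0, map_zero]
  · intro h
    have h0 : P i α hi hα (single (α h, 1) (Matrix.single 0 0 1)) = single h (1 / 3) := by
      ext f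
      change (P i α hi hα (single (α h, 1) CovA.e0)).coeff f = _
      rw [P_coeff, tau_single, e0_e0, e0_e12, map_zero, tr_e0, coeff_single,
        Finsupp.single_apply, ite_self, add_zero]
      by_cases h1 : h = f
      · rw [if_pos h1, if_pos (by rw [h1])]
      · rw [if_neg h1, if_neg (fun h2 => h1 (hα (Prod.ext_iff.1 h2).1))]
    rw [hE', h0, Th_single, th_apply]
    rfl
  · intro g hg
    have h0 : P i α hi hα (single (g, 1) (Matrix.single 0 0 1)) = 0 := by
      ext f
      change (P i α hi hα (single (g, 1) CovA.e0)).coeff f = _
      rw [P_coeff, tau_single, e0_e12, map_zero, ite_self, add_zero, if_neg]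
      · rfl
      · intro h1
        exact hg f (Prod.ext_iff.1 h1).1.symm
    rw [hE', h0, map_zero]

end

end MP8a6869.WR
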