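import Pool.Agent.Work.MP_8a6869_an.WR.Stmts

/-!
# MP_8a6869_an, wreath products: the contradiction

Vectors of `ℓ²(G)` which are almost invariant under conjugation by `Γ` satisfy the `ℓ¹`
inequality for the coefficients along `⊕_Γ ℤ/m`.
-/

namespace MP8a6869.WR.Contra

open MP8a6869 MP8a6869.WR
open scoped InnerProductSpace ComplexOrder ENNReal
open MonoidAlgebra Filter Topology

noncomputable section

variable {S : Type}

theorem two_pos : (0 : ℝ) < (2 : ℝ≥0∞).toReal := by norm_num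

theorem summ (f : ell2 S) : Summable fun s => ‖f s‖ ^ 2 := by
  have h := lp.memℓp f
  rw [memℓp_gen_iff two_pos] at h
  simpa using h

theorem nsq (f : ell2 S) : ‖f‖ ^ 2 = ∑' s, ‖f s‖ ^ 2 := by
  have h := lp.norm_rpow_eq_tsum two_pos f
  simpa using h

theorem mem_of {g : S → ℂ} (h : Summable fun s => ‖g s‖ ^ 2) : Memℓp g (2 : ℝ≥0∞) := by
  rw [memℓp_gen_iff two_pos]
  simpa using h

/-- The pointwise absolute value of a vector of `ℓ²(S)`. -/
def absV (f : ell2 S) : ell2 S :=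
  ⟨fun s => ((‖f s‖ : ℝ) : ℂ), mem_of (by simpa using summ f)⟩

@[simp] theorem absV_apply (f : ell2 S) (s : S) : absV f s = ((‖f s‖ : ℝ) : ℂ) := rfl

theorem norm_absV_sq (f : ell2 S) : ‖absV f‖ ^ 2 = ‖f‖ ^ 2 := by
  rw [nsq, nsq]
  simp

theorem norm_absV (f : ell2 S) : ‖absV f‖ = ‖f‖ := by
  have h := norm_absV_sq f
  exact (sq_eq_sq₀ (norm_nonneg _) (norm_nonneg _)).1 h

/-- The restriction of a vector of `ℓ²(S)` to a subset. -/
def res (A : Set S) (f : ell2 S) : ell2 S :=
  ⟨A.indicator f, mem_of (by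
    refine (summ f).of_nonneg_of_le (fun s => by positivity) fun s => ?_
    by_cases h : s ∈ A
    · rw [Set.indicator_of_mem h]
    · rw [Set.indicator_of_notMem h]
      simp)⟩

theorem res_apply (A : Set S) (f : ell2 S) (s : S) : res A f s = A.indicator f s := rfl

theorem res_mem {A : Set S} {s : S} (h : s ∈ A) (f : ell2 S) : res A f s = f s := by
  rw [res_apply, Set.indicator_of_mem h]

theorem res_notMem {A : Set S} {s : S} (h : s ∉ A) (f : ell2 S) : res A f s = 0 := by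
  rw [res_apply, Set.indicator_of_notMem h]

theorem norm_res_sq (A : Set S) (f : ell2 S) : ‖res A f‖ ^ 2 = ∑' x : A, ‖f x.1‖ ^ 2 := by
  rw [nsq, tsum_subtype A fun s => ‖f s‖ ^ 2]
  refine tsum_congr fun s => ?_
  by_cases h : s ∈ A
  · rw [res_mem h, Set.indicator_of_mem h]
  · rw [res_notMem h, Set.indicator_of_notMem h]
    simp

theorem norm_res_le (A : Set S) (f : ell2 S) : ‖res A f‖ ≤ ‖f‖ := by
  refine (sq_le_sq₀ (norm_nonneg _) (norm_nonneg _)).1 ?_
  rw [nsq, nsq]
  refine Summable.tsum_le_tsum (fun s => ?_) (summ _) (summ _)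
  by_cases h : s ∈ A
  · rw [res_mem h]
  · rw [res_notMem h]
    simp

theorem res_add_res (A : Set S) (f : ell2 S) : res A f + res Aᶜ f = f := by
  ext s
  rw [lp.coeFn_add, Pi.add_apply]
  by_cases h : s ∈ A
  · rw [res_mem h, res_notMem (A := Aᶜ) (by simpa using h), add_zero]
  · rw [res_notMem h, res_mem (A := Aᶜ) (by simpa using h), zero_add]

theorem inner_abs (σ : S ≃ S) (f : ell2 S) :
    ⟪absV f, permL σ (absV f)⟫_ℂ = ((∑' s, ‖f s‖ * ‖f (σ s)‖ : ℝ) : ℂ) := by
  rw [lp.inner_eq_tsum, Complex.ofReal_tsum]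
  refine tsum_congr fun s => ?_
  simp [mul_comm]

theorem summ_mul (σ : S ≃ S) (f : ell2 S) : Summable fun s => ‖f s‖ * ‖f (σ s)‖ := by
  have h : Summable fun s => ‖f (σ s)‖ ^ 2 := (σ.summable_iff (f := fun s => ‖f s‖ ^ 2)).2 (summ f)
  refine ((summ f).add h).of_nonneg_of_le (fun s => by positivity) fun s => ?_
  nlinarith [sq_nonneg (‖f s‖ - ‖f (σ s)‖), sq_nonneg (‖f s‖), sq_nonneg (‖f (σ s)‖)]

theorem norm_inner_le (σ : S ≃ S) (f : ell2 S) :
    ‖⟪f, permL σ f⟫_ℂ‖ ≤ (⟪absV f, permL σ (absV f)⟫_ℂ).re := by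
  rw [inner_abs, Complex.ofReal_re, lp.inner_eq_tsum]
  have h : (fun s => ‖⟪(f s : ℂ), (permL σ f) s⟫_ℂ‖) = fun s => ‖f s‖ * ‖f (σ s)‖ := by
    funext s
    rw [permL_apply, RCLike.inner_apply', norm_mul, RCLike.norm_conj]
  refine (norm_tsum_le_tsum_norm ?_).trans ?_
  · rw [h]
    exact summ_mul σ f
  · rw [h]

variable {G : Type} [Group G]

theorem lr_eq (g h : G) (f : ell2 G) :
    leftReg G g (rightReg G h f) =
      permL ((Equiv.mulLeft g⁻¹).trans (Equiv.mulRight h)) f := by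
  ext x
  rfl

theorem norm_inner_lr_le (g h : G) (f : ell2 G) :
    ‖⟪f, leftReg G g (rightReg G h f)⟫_ℂ‖ ≤
      (⟪absV f, leftReg G g (rightReg G h (absV f))⟫_ℂ).re := by
  rw [lr_eq, lr_eq]
  exact norm_inner_le _ f

/-- The Cauchy-Schwarz inequality for a finite group of right multiplications. -/
theorem avg {B : Type} [Group B] [Fintype B] (φ : B →* G) (c : G) (w : ell2 G) :
    ∑ b : B, (⟪w, leftReg G c (rightReg G (φ b) w)⟫_ℂ).re ≤
      ∑ b : B, (⟪w, rightReg G (φ b) w⟫_ℂ).re := by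
  set R : ell2 G →L[ℂ] ell2 G := ∑ b : B, rightReg G (φ b) with hR
  have hRR : R * R = (Fintype.card B : ℂ) • R := by
    have h1 : ∀ x : B, rightReg G (φ x) * R = R := by
      intro x
      rw [hR, Finset.mul_sum]
      rw [← Equiv.sum_comp (Equiv.mulLeft x) (fun b => rightReg G (φ b))]
      refine Finset.sum_congr rfl fun b _ => ?_
      rw [← rightReg_mul, ← map_mul]
      rfl
    calc R * R = ∑ x : B, rightReg G (φ x) * R := by
          conv_lhs => rw [hR, Finset.sum_mul]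
      _ = ∑ _x : B, R := Finset.sum_congr rfl fun x _ => h1 x
      _ = (Fintype.card B : ℂ) • R := by
          rw [Finset.sum_const, Finset.card_univ, Nat.cast_smul_eq_nsmul]
  have hs : star R = R := by
    rw [hR, star_sum, ← Equiv.sum_comp (Equiv.inv B) (fun b => rightReg G (φ b))]
    refine Finset.sum_congr rfl fun b _ => ?_
    rw [star_rightReg, ← map_inv]
    rfl
  have hc : leftReg G c * R = R * leftReg G c := by
    rw [hR, Finset.mul_sum, Finset.sum_mul]
    exact Finset.sum_congr rfl fun b _ => leftReg_rightReg G c (φ b)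
  have hadj : ∀ x y : ell2 G, ⟪R x, y⟫_ℂ = ⟪x, R y⟫_ℂ := by
    intro x y
    have h1 := ContinuousLinearMap.adjoint_inner_left R y x
    rw [← ContinuousLinearMap.star_eq_adjoint, hs] at h1
    exact h1
  have e1 : ∑ b : B, (⟪w, leftReg G c (rightReg G (φ b) w)⟫_ℂ).re =
      (⟪w, leftReg G c (R w)⟫_ℂ).re := by
    rw [hR, _root_.sum_apply, map_sum, inner_sum, Complex.re_sum]
  have e2 : ∑ b : B, (⟪w, rightReg G (φ b) w⟫_ℂ).re = (⟪w, R w⟫_ℂ).re := by
    rw [hR, _root_.sum_apply, inner_sum, Complex.re_sum]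
  rw [e1, e2]
  have hcard : (0 : ℝ) < Fintype.card B := by exact_mod_cast Fintype.card_pos
  have e3 : (Fintype.card B : ℝ) * (⟪w, leftReg G c (R w)⟫_ℂ).re =
      (⟪R w, leftReg G c (R w)⟫_ℂ).re := by
    have h1 : ⟪R w, leftReg G c (R w)⟫_ℂ = (Fintype.card B : ℂ) * ⟪w, leftReg G c (R w)⟫_ℂ := by
      rw [hadj]
      have h2 : R (leftReg G c (R w)) = (Fintype.card B : ℂ) • leftReg G c (R w) := by
        have h3 : R * leftReg G c * R = (Fintype.card B : ℂ) • (leftReg G c * R) := by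
          rw [← hc, mul_assoc, hRR, mul_smul_comm]
        have h4 := congrArg (fun t : ell2 G →L[ℂ] ell2 G => t w) h3
        simpa using h4
      rw [h2, inner_smul_right]
    rw [h1]
    simp
  have e4 : (Fintype.card B : ℝ) * (⟪w, R w⟫_ℂ).re = ‖R w‖ ^ 2 := by
    have h1 : ⟪R w, R w⟫_ℂ = (Fintype.card B : ℂ) * ⟪w, R w⟫_ℂ := by
      rw [hadj]
      have h2 : R (R w) = (Fintype.card B : ℂ) • R w := by
        have h4 := congrArg (fun t : ell2 G →L[ℂ] ell2 G => t w) hRR
        simpa using h4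
      rw [h2, inner_smul_right]
    have h5 := inner_self_eq_norm_sq (𝕜 := ℂ) (R w)
    rw [← h5, h1]
    simp
  have e5 : (⟪R w, leftReg G c (R w)⟫_ℂ).re ≤ ‖R w‖ ^ 2 := by
    refine (Complex.re_le_norm _).trans ((norm_inner_le_norm _ _).trans ?_)
    have h1 : ‖leftReg G c (R w)‖ = ‖R w‖ := (permL (Equiv.mulLeft c⁻¹)).norm_map (R w)
    rw [h1, sq]
  have e6 : (Fintype.card B : ℝ) * (⟪w, leftReg G c (R w)⟫_ℂ).re ≤
      (Fintype.card B : ℝ) * (⟪w, R w⟫_ℂ).re := by
    rw [e3, e4]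
    exact e5
  exact le_of_mul_le_mul_left e6 hcard

/-- If `z` or `z x` is in `A` for every `z`, then `⟪w, ρ_x w⟫` is small with the mass on `A`. -/
theorem small (A : Set G) (x : G) (h : ∀ z, z ∈ A ∨ z * x ∈ A) (w : ell2 G) :
    (⟪w, rightReg G x w⟫_ℂ).re ≤ 2 * ‖res A w‖ * ‖w‖ := by
  have e1 : ⟪w, rightReg G x w⟫_ℂ =
      ⟪res A w, rightReg G x w⟫_ℂ + ⟪res Aᶜ w, rightReg G x (res A w)⟫_ℂ := by
    have h1 : ⟪res Aᶜ w, rightReg G x (res A w)⟫_ℂ = ⟪res Aᶜ w, rightReg G x w⟫_ℂ := by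
      rw [lp.inner_eq_tsum, lp.inner_eq_tsum]
      refine tsum_congr fun z => ?_
      by_cases hz : z ∈ A
      · rw [res_notMem (A := Aᶜ) (by simpa using hz)]
        simp
      · have hz2 : z * x ∈ A := (h z).resolve_left hz
        rw [rightReg_apply, rightReg_apply, res_mem hz2]
    rw [h1, ← inner_add_left, res_add_res]
  have hr : ∀ y : ell2 G, ‖rightReg G x y‖ = ‖y‖ := fun y =>
    (permL (Equiv.mulRight x)).norm_map y
  rw [e1, Complex.add_re]
  have e2 : (⟪res A w, rightReg G x w⟫_ℂ).re ≤ ‖res A w‖ * ‖w‖ := by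
    refine (Complex.re_le_norm _).trans ((norm_inner_le_norm _ _).trans ?_)
    rw [hr]
  have e3 : (⟪res Aᶜ w, rightReg G x (res A w)⟫_ℂ).re ≤ ‖w‖ * ‖res A w‖ := by
    refine (Complex.re_le_norm _).trans ((norm_inner_le_norm _ _).trans ?_)
    rw [hr]
    exact mul_le_mul_of_nonneg_right (norm_res_le _ _) (norm_nonneg _)
  linarith

theorem norm_res_absV (A : Set S) (f : ell2 S) : ‖res A (absV f)‖ ^ 2 = ∑' x : A, ‖f x.1‖ ^ 2 := by
  rw [norm_res_sq]
  simp

theorem finite_closure {m : ℕ} [NeZero m] {Γ : Type} (T : Finset (K m Γ)) :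
    Finite (Subgroup.closure (T : Set (K m Γ))) := by
  have h1 : Group.FG (Subgroup.closure (T : Set (K m Γ))) :=
    (Group.fg_iff_subgroup_fg _).2 ⟨T, rfl⟩
  refine CommGroup.finite_of_fg_isMulTorsion _ ?_
  intro x
  rw [isOfFinOrder_iff_pow_eq_one]
  refine ⟨m, NeZero.pos m, ?_⟩
  refine Subtype.ext ?_
  refine Multiplicative.toAdd.injective ?_
  refine Finsupp.ext fun s => ?_
  simp

end

end MP8a6869.WR.Contra

namespace MP8a6869.WR

open scoped InnerProductSpace ComplexOrder ENNReal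
open MonoidAlgebra Filter Topology
open Contra

theorem contra (h1 : WandStmt) (h2 : ConcStmt) : ContraStmt := by
  intro m Γ G _ _ _ j hj hA hF U v hv c a T ha
  -- the action of `Γ` on `G` by conjugation
  let act : MulAction Γ G :=
    { smul := fun γ z => j (gin γ) * z * (j (gin γ))⁻¹
      one_smul := fun z => by
        change j (gin 1) * z * (j (gin 1))⁻¹ = z
        simp [gin]
      mul_smul := fun γ δ z => by
        change j (gin (γ * δ)) * z * (j (gin (γ * δ)))⁻¹ =
          j (gin γ) * (j (gin δ) * z * (j (gin δ))⁻¹) * (j (gin γ))⁻¹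
        simp [gin, mul_assoc] }
  have hsm : ∀ (γ : Γ) (z : G), γ • z = j (gin γ) * z * (j (gin γ))⁻¹ := fun _ _ => rfl
  -- the norms
  have hn2 : Tendsto (fun n => ‖v n‖ ^ 2) U (𝓝 1) := by
    have h := hv 1
    have e : ∀ n, ⟪v n, leftReg G (j (gin (1 : Γ))) (rightReg G (j (gin (1 : Γ))) (v n))⟫_ℂ =
        ((‖v n‖ ^ 2 : ℝ) : ℂ) := by
      intro n
      have e1 : j (gin (1 : Γ)) = 1 := by simp [gin]
      rw [e1, leftReg_one, rightReg_one]
      have h0 : ⟪v n, v n⟫_ℂ = ((‖v n‖ : ℝ) : ℂ) ^ 2 := inner_self_eq_norm_sq_to_K (𝕜 := ℂ) (v n)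
      rw [Complex.ofReal_pow]
      exact h0
    simp only [e] at h
    have h3 : Tendsto (fun n => (((‖v n‖ ^ 2 : ℝ) : ℂ)).re) U (𝓝 (1 : ℂ).re) :=
      (Complex.continuous_re.tendsto _).comp h
    simp only [Complex.ofReal_re, Complex.one_re] at h3
    exact h3
  have hn : Tendsto (fun n => ‖v n‖) U (𝓝 1) := by
    have h3 := (Real.continuous_sqrt.tendsto _).comp hn2
    simpa [Function.comp_def, Real.sqrt_sq] using h3
  -- almost invariance
  have hinv : ∀ γ : Γ, Tendsto (fun n => ‖permL (MulAction.toPerm γ) (v n) - v n‖) U (𝓝 0) := by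
    intro γ
    have h := hv γ⁻¹
    have e : ∀ n, leftReg G (j (gin γ⁻¹)) (rightReg G (j (gin γ⁻¹)) (v n)) =
        permL (MulAction.toPerm γ) (v n) := by
      intro n
      ext z
      have e2 : (j (gin γ⁻¹))⁻¹ * z * j (gin γ⁻¹) = MulAction.toPerm γ z := by
        change _ = j (gin γ) * z * (j (gin γ))⁻¹
        simp [gin]
      rw [leftReg_apply, rightReg_apply, permL_apply, e2]
    simp only [e] at h
    have h3 : Tendsto (fun n => (⟪v n, permL (MulAction.toPerm γ) (v n)⟫_ℂ).re) U (𝓝 1) := by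
      have h4 := (Complex.continuous_re.tendsto _).comp h
      simpa [Function.comp_def] using h4
    have h5 : Tendsto (fun n => ‖permL (MulAction.toPerm γ) (v n) - v n‖ ^ 2) U (𝓝 0) := by
      have e6 : ∀ n, ‖permL (MulAction.toPerm γ) (v n) - v n‖ ^ 2 =
          ‖v n‖ ^ 2 - 2 * (⟪v n, permL (MulAction.toPerm γ) (v n)⟫_ℂ).re + ‖v n‖ ^ 2 := by
        intro n
        rw [@norm_sub_sq ℂ, LinearIsometry.norm_map, inner_re_symm]
        rfl
      simp only [e6]
      have h7 := (hn2.sub (h3.const_mul 2)).add hn2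
      have e8 : (1 : ℝ) - 2 * 1 + 1 = 0 := by norm_num
      rw [e8] at h7
      exact h7
    have h6 := (Real.continuous_sqrt.tendsto _).comp h5
    simpa [Function.comp_def, Real.sqrt_sq] using h6
  -- the mass on the points with finite stabiliser
  set A : Set G := {z : G | {γ : Γ | γ • z = z}.Finite} with hAdef
  have hmass : Tendsto (fun n => ‖res A (absV (v n))‖ ^ 2) U (𝓝 0) := by
    simp only [norm_res_absV]
    exact h2 Γ G hA U v hn hinv
  have hmass2 : Tendsto (fun n => ‖res A (absV (v n))‖) U (𝓝 0) := by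
    have h6 := (Real.continuous_sqrt.tendsto _).comp hmass
    simpa [Function.comp_def, Real.sqrt_sq] using h6
  -- wandering
  have hw : ∀ x : K m Γ, x ≠ 1 → ∀ z : G, z ∈ A ∨ z * j (kin x) ∈ A := by
    intro x hx z
    by_contra hcon
    rw [not_or] at hcon
    refine hF (h1 m Γ G j hj z x hx ?_ ?_)
    · refine Set.Infinite.mono ?_ hcon.1
      intro γ hγ
      have h5 : γ • z = z := hγ
      rw [hsm, mul_inv_eq_iff_eq_mul] at h5
      exact h5
    · refine Set.Infinite.mono ?_ hcon.2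
      intro γ hγ
      have h5 : γ • (z * j (kin x)) = z * j (kin x) := hγ
      rw [hsm, mul_inv_eq_iff_eq_mul] at h5
      exact h5
  -- the finite group
  have hfin : Finite (Subgroup.closure (T : Set (K m Γ))) := finite_closure T
  let B : Type := Subgroup.closure (T : Set (K m Γ))
  have : Fintype B := Fintype.ofFinite _
  classical
  let φ : B →* G := (j.comp SemidirectProduct.inl).comp (Subgroup.subtype _)
  have hφ : ∀ b : B, φ b = j (kin b.1) := fun _ => rfl
  have hbound : ∀ n, ∑ x ∈ T, ‖⟪v n, leftReg G (j (kin c)) (rightReg G (j (kin x)) (v n))⟫_ℂ‖ ≤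
      ‖v n‖ ^ 2 + ∑ _b : B, 2 * ‖res A (absV (v n))‖ * ‖v n‖ := by
    intro n
    calc ∑ x ∈ T, ‖⟪v n, leftReg G (j (kin c)) (rightReg G (j (kin x)) (v n))⟫_ℂ‖
        ≤ ∑ x ∈ T, (⟪absV (v n),
            leftReg G (j (kin c)) (rightReg G (j (kin x)) (absV (v n)))⟫_ℂ).re :=
          Finset.sum_le_sum fun x _ => norm_inner_lr_le _ _ _
      _ = ∑ x ∈ T.attach, (⟪absV (v n),
            leftReg G (j (kin c)) (rightReg G (j (kin x.1)) (absV (v n)))⟫_ℂ).re :=
          (Finset.sum_attach T _).symm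
      _ = ∑ b ∈ T.attach.image (fun x => (⟨x.1, Subgroup.subset_closure x.2⟩ : B)),
            (⟪absV (v n), leftReg G (j (kin c)) (rightReg G (φ b) (absV (v n)))⟫_ℂ).re := by
          rw [Finset.sum_image]
          · rfl
          · intro x _ y _ hxy
            have := congrArg Subtype.val hxy
            exact Subtype.ext this
      _ ≤ ∑ b : B,
            (⟪absV (v n), leftReg G (j (kin c)) (rightReg G (φ b) (absV (v n)))⟫_ℂ).re := by
          refine Finset.sum_le_sum_of_subset_of_nonneg (Finset.subset_univ _) fun b _ _ => ?_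
          exact (norm_nonneg _).trans (norm_inner_lr_le _ _ _)
      _ ≤ ∑ b : B, (⟪absV (v n), rightReg G (φ b) (absV (v n))⟫_ℂ).re := avg φ _ _
      _ ≤ ∑ b : B, ((if b = 1 then ‖v n‖ ^ 2 else 0) + 2 * ‖res A (absV (v n))‖ * ‖v n‖) := by
          refine Finset.sum_le_sum fun b _ => ?_
          by_cases hb : b = 1
          · rw [if_pos hb, hb, map_one, rightReg_one]
            have e1 : (⟪absV (v n), (1 : ell2 G →L[ℂ] ell2 G) (absV (v n))⟫_ℂ).re =
                ‖v n‖ ^ 2 := by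
              have h5 := inner_self_eq_norm_sq (𝕜 := ℂ) (absV (v n))
              rw [norm_absV] at h5
              exact h5
            rw [e1]
            have : 0 ≤ 2 * ‖res A (absV (v n))‖ * ‖v n‖ := by positivity
            linarith
          · rw [if_neg hb, zero_add, hφ]
            have hb1 : b.1 ≠ 1 := fun h => hb (Subtype.ext h)
            have h5 := small A (j (kin b.1)) (hw b.1 hb1) (absV (v n))
            rw [norm_absV] at h5
            exact h5
      _ = ‖v n‖ ^ 2 + ∑ _b : B, 2 * ‖res A (absV (v n))‖ * ‖v n‖ := by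
          rw [Finset.sum_add_distrib, Finset.sum_ite_eq' Finset.univ (1 : B),
            if_pos (Finset.mem_univ _)]
  have hlim1 : Tendsto (fun n => ∑ x ∈ T,
      ‖⟪v n, leftReg G (j (kin c)) (rightReg G (j (kin x)) (v n))⟫_ℂ‖) U
      (𝓝 (∑ x ∈ T, ‖a x‖)) :=
    tendsto_finsetSum _ fun x hx => (ha x hx).norm
  have hlim2 : Tendsto (fun n => ‖v n‖ ^ 2 + ∑ _b : B, 2 * ‖res A (absV (v n))‖ * ‖v n‖) U
      (𝓝 1) := by
    have h8 : Tendsto (fun n => ∑ _b : B, 2 * ‖res A (absV (v n))‖ * ‖v n‖) U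
        (𝓝 (∑ _b : B, 2 * 0 * 1)) :=
      tendsto_finsetSum _ fun _ _ => (hmass2.const_mul 2).mul hn
    have h9 := hn2.add h8
    simpa using h9
  exact le_of_tendsto_of_tendsto' hlim1 hlim2 hbound

end MP8a6869.WR
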