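import Pool.Agent.Work.MP_8a6869_an.WR.Stmts
import Pool.Agent.Work.MP_8a6869_an.Conv

/-!
# MP_8a6869_an, wreath products: assembly of the items
-/

namespace MP8a6869.WR

open scoped InnerProductSpace ComplexOrder
open MonoidAlgebra Filter Topology

noncomputable section

/-- the inclusion of `Γ` in `C ≀ Γ` -/
def rwInl (C Γ : Type) [Group C] [Group Γ] : Γ →* restrictedWreath C Γ :=
  (RegularWreathProduct.inl : Γ →* C ≀ᵣ Γ).codRestrict (restrictedWreath C Γ) (by
    intro γ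
    change (Function.mulSupport (RegularWreathProduct.inl γ : C ≀ᵣ Γ).left).Finite
    simp)

theorem rwInl_injective (C Γ : Type) [Group C] [Group Γ] :
    Function.Injective (rwInl C Γ) := by
  intro a b hab
  have h := congrArg Subtype.val hab
  exact congrArg RegularWreathProduct.right h

theorem main_of (hAmen : AmenStmt) (hEmb : EmbStmt) (hB : AutBStmt)
    (hC : AutCStmt) (hD : AutDStmt) (hE : AutEStmt) (hF : AutFStmt) (hW : AutWStmt)
    (hModel : ModelStmt) (hSeq : SeqStmt) (hContra : ContraStmt) : MainWStmt := by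
  intro G _ _ hicc C Γ _ _ c hc hfin hΓ hf
  obtain ⟨f, hf⟩ := hf
  by_cases hfree : ∃ φ : FreeGroup (Fin 2) →* Γ, Function.Injective φ
  · obtain ⟨φ, hφ⟩ := hfree
    exact MP8a6869.main G hicc ⟨f.comp ((rwInl C Γ).comp φ),
      hf.comp ((rwInl_injective C Γ).comp hφ)⟩
  · obtain ⟨hinf, a, ha⟩ := hAmen Γ hΓ
    obtain ⟨m, hm, e, he⟩ := hEmb C Γ c hc hfin
    have hj : Function.Injective (f.comp e) := hf.comp he
    have hinfG : Infinite G := by
      refine Infinite.of_injective (fun γ : Γ => (f.comp e) (gin γ)) ?_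
      intro x y hxy
      exact SemidirectProduct.inr_injective (hj hxy)
    haveI : NeZero m := ⟨by omega⟩
    obtain ⟨β, hβ⟩ := hB m Γ hm a
    obtain ⟨σ, hσ1, hσ2, hσ3, hσ4⟩ := hW m Γ β (hC m Γ hm a β hβ) (hD m Γ hm a ha β hβ)
      (hE m Γ hm a β hβ)
    obtain ⟨M, hM, hsep, ι, ξ, hξ⟩ := hModel G hicc (W m Γ) (f.comp e) hj σ hσ1 hσ2
    refine ⟨M, hM, hsep, ι, fun U hU => ?_⟩
    obtain ⟨v, hv⟩ := hSeq U G M ι hU ξ
    have key := hContra m Γ G (f.comp e) hj hΓ hfree U v ?_ (gen m 1)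
      (fun x => (β (single (gen m 1) 1)).coeff x) (β (single (gen m (1 : Γ)) 1)).coeff.support ?_
    · have h1 := hF m Γ hm a ha
      rw [← hβ 1] at h1
      exact absurd key (not_le.2 h1)
    · intro γ
      have h := hv ((f.comp e) (gin γ)) ((f.comp e) (gin γ))
      rw [hξ, hσ3, coeff_single, Finsupp.single_eq_same] at h
      exact h
    · intro x _
      have h := hv ((f.comp e) (kin (gen m 1))) ((f.comp e) (kin x))
      rw [hξ, hσ4] at h
      exact h

/-- the main theorem in the final definitions -/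
theorem main_pub (h : MainWStmt) (G : Type) [Group G] [Countable G]
    (hicc : ∀ g : G, g ≠ 1 → (Set.range fun h : G => h * g * h⁻¹).Infinite)
    (C Γ : Type) [Group C] [Group Γ] (hinf : Infinite Γ) (hC : ∃ c : C, c ≠ 1 ∧ IsOfFinOrder c)
    (hΓ : ¬ IsAmen Γ) (hf : ∃ f : restrictedWreath C Γ →* G, Function.Injective f) :
    (MP8a6869Pub.LG G).IsII1Factor ∧ (MP8a6869Pub.LG G).IsSeparable ∧
      ∃ M : MP8a6869Pub.TracialVNA, M.IsII1Factor ∧ M.IsSeparable ∧
        ∃ ι : MP8a6869Pub.Embedding (MP8a6869Pub.LG G) M,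
          ∀ U : Ultrafilter ℕ, ¬ MP8a6869Pub.IsExistential U ι := by
  obtain ⟨c, hc, hfin⟩ := hC
  obtain ⟨M, hM, hsep, ι, hι⟩ := h G hicc C Γ c hc hfin hΓ hf
  obtain ⟨f, hf⟩ := hf
  have h1 : Infinite G :=
    Infinite.of_injective (fun γ : Γ => f (rwInl C Γ γ)) (hf.comp (rwInl_injective C Γ))
  exact ⟨MP8a6869Pub.isII1Factor_of (MP8a6869.LG_factor G hicc),
    MP8a6869.Sep.separable_ell2 G, MP8a6869Pub.toPub M,
    MP8a6869Pub.isII1Factor_of hM, hsep, MP8a6869Pub.toPubEmb ι,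
    fun U hU => hι U (MP8a6869Pub.isExistential_of hU)⟩

end

end MP8a6869.WR
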