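import Pool.Agent.Work.MP_8a6869_an.WR.Stmts3
import Pool.Agent.Work.MP_8a6869_an.WR.Final
import Pool.Agent.Work.MP_8a6869_an.WR.Contra

/-!
# MP_8a6869_an, homogeneity: the main theorem from the items
-/

namespace MP8a6869.WR

open scoped InnerProductSpace ComplexOrder
open MonoidAlgebra Filter Topology

noncomputable section

namespace MainA

variable {G : Type} [Group G]

/-- the twisted conjugation action `h • z = α(h) z h⁻¹` -/
def act (H : Subgroup G) (α : H →* G) : MulAction H G where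
  smul h z := α h * z * (h : G)⁻¹
  one_smul z := by
    change α 1 * z * ((1 : H) : G)⁻¹ = z
    simp
  mul_smul a b z := by
    change α (a * b) * z * ((a * b : H) : G)⁻¹ = α a * (α b * z * (b : G)⁻¹) * (a : G)⁻¹
    rw [map_mul, Subgroup.coe_mul, mul_inv_rev]
    group

theorem isAmen_congr {A B : Type} [Group A] [Group B] (e : A ≃* B) (h : IsAmen A) : IsAmen B := by
  obtain ⟨m, h1, h2, h3, h4⟩ := h
  refine ⟨fun S => m (e ⁻¹' S), fun S => h1 _, by simpa using h2, fun S T hST => ?_, fun g S => ?_⟩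
  · change m (e ⁻¹' (S ∪ T)) = m (e ⁻¹' S) + m (e ⁻¹' T)
    rw [Set.preimage_union]
    exact h3 _ _ (hST.preimage e)
  · change m (e ⁻¹' ((fun x => g * x) '' S)) = m (e ⁻¹' S)
    rw [← h4 (e.symm g) (e ⁻¹' S)]
    congr 1
    ext x
    simp only [Set.mem_preimage, Set.mem_image]
    constructor
    · rintro ⟨y, hy, hyx⟩
      refine ⟨e.symm y, by simpa using hy, ?_⟩
      rw [← map_mul, hyx, e.symm_apply_apply]
    · rintro ⟨y, hy, rfl⟩
      exact ⟨e y, hy, by rw [map_mul, e.apply_symm_apply]⟩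

theorem norm_perm_sub_sq (g h : G) (v : ell2 G) :
    ‖leftReg G g (rightReg G h v) - v‖ ^ 2 =
      2 * ‖v‖ ^ 2 - 2 * (⟪v, leftReg G g (rightReg G h v)⟫_ℂ).re := by
  have h1 : ‖leftReg G g (rightReg G h v)‖ = ‖v‖ := by
    rw [leftReg, rightReg]
    simp
  rw [@norm_sub_sq ℂ, h1, ← inner_re_symm]
  change ‖v‖ ^ 2 - 2 * (⟪v, leftReg G g (rightReg G h v)⟫_ℂ).re + ‖v‖ ^ 2 = _
  ring

theorem diff_le (g g' : G) (Y : Set G) (hY : ∀ z, g' * z ≠ z * g → z ∈ Y) (v : ell2 G) :
    ‖leftReg G g' (rightReg G g v) - v‖ ^ 2 ≤ 4 * ∑' x : Y, ‖v x.1‖ ^ 2 := by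
  classical
  set Y' : Set G := {z | g' * z ≠ z * g} with hY'
  have h1 : leftReg G g' (rightReg G g v) - v =
      leftReg G g' (rightReg G g (Contra.res Y' v)) - Contra.res Y' v := by
    ext z
    rw [lp.coeFn_sub, Pi.sub_apply, lp.coeFn_sub, Pi.sub_apply, leftReg_apply, rightReg_apply,
      leftReg_apply, rightReg_apply]
    by_cases hz : z ∈ Y'
    · have hz' : g'⁻¹ * z * g ∈ Y' := by
        intro h0
        apply hz
        have h2 : z * g = g'⁻¹ * z * g * g := by
          rw [← h0]; group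
        have h3 : z = g'⁻¹ * z * g := mul_right_cancel h2
        calc g' * z = g' * (g'⁻¹ * z * g) := by rw [← h3]
          _ = z * g := by group
      rw [Contra.res_mem hz, Contra.res_mem hz']
    · have hz2 : g' * z = z * g := by
        by_contra h0
        exact hz h0
      have hz3 : g'⁻¹ * z * g = z := by
        rw [mul_assoc, ← hz2]; group
      rw [hz3, Contra.res_notMem hz, sub_self, sub_self]
  have h2 : Contra.res Y' v = Contra.res Y' (Contra.res Y v) := by
    ext z
    by_cases hz : z ∈ Y'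
    · rw [Contra.res_mem hz, Contra.res_mem hz, Contra.res_mem (hY z hz)]
    · rw [Contra.res_notMem hz, Contra.res_notMem hz]
  have h3 : ‖Contra.res Y' v‖ ≤ ‖Contra.res Y v‖ := by
    rw [h2]
    exact Contra.norm_res_le _ _
  have h4 : ‖leftReg G g' (rightReg G g (Contra.res Y' v))‖ = ‖Contra.res Y' v‖ := by
    rw [leftReg, rightReg]
    simp
  have h5 : ‖leftReg G g' (rightReg G g v) - v‖ ≤ 2 * ‖Contra.res Y v‖ := by
    rw [h1]
    refine (norm_sub_le _ _).trans ?_
    rw [h4]
    linarith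
  calc ‖leftReg G g' (rightReg G g v) - v‖ ^ 2 ≤ (2 * ‖Contra.res Y v‖) ^ 2 :=
        pow_le_pow_left₀ (norm_nonneg _) h5 2
    _ = 4 * ∑' x : Y, ‖v x.1‖ ^ 2 := by
        rw [mul_pow, Contra.norm_res_sq]
        norm_num

end MainA

open MainA in
theorem mainA (hConc : ConcAStmt) (hModel : ModelAStmt) (hSeq : SeqStmt) (hAmen : AmenStmt) :
    MainAStmt := by
  intro G _ _ hicc H α hH hα g g' hgg hz
  have hinfH : Infinite H := (hAmen H hH).1
  have hinf : Infinite G := Infinite.of_injective (fun h : H => (h : G)) Subtype.val_injective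
  obtain ⟨M, hM, hsep, ι, ξ, hξ1, hξ0⟩ := hModel G hicc H H.subtype α Subtype.val_injective hα
  refine ⟨M, hM, hsep, ι, fun U hU => ?_⟩
  obtain ⟨v, hv⟩ := hSeq U G M ι hU ξ
  letI : MulAction H G := act H α
  have hperm : ∀ (h : H) (f : ell2 G), permL (MulAction.toPerm h : Equiv.Perm G) f =
      leftReg G (α h)⁻¹ (rightReg G (h : G)⁻¹ f) := by
    intro h f
    ext z
    rw [permL_apply, leftReg_apply, rightReg_apply, inv_inv]
    rfl
  have hlim : ∀ h : H, Tendsto
      (fun n => ⟪v n, leftReg G (α h) (rightReg G (h : G) (v n))⟫_ℂ) U (𝓝 1) := by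
    intro h
    have := hv (α h) (h : G)
    rw [show ((h : G)) = H.subtype h from rfl, hξ1 h] at this
    exact this
  have hnorm : Tendsto (fun n => ‖v n‖) U (𝓝 1) := by
    have h1 := hlim 1
    have h2 : ∀ n, ⟪v n, leftReg G (α 1) (rightReg G ((1 : H) : G) (v n))⟫_ℂ =
        ((‖v n‖ ^ 2 : ℝ) : ℂ) := by
      intro n
      have h3 : leftReg G (α 1) (rightReg G ((1 : H) : G) (v n)) = v n := by
        rw [map_one, Subgroup.coe_one, leftReg_one, rightReg_one]
        rfl
      rw [h3, inner_self_eq_norm_sq_to_K]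
      norm_cast
    simp only [h2] at h1
    have h4 : Tendsto (fun n => ‖v n‖ ^ 2) U (𝓝 1) := by
      have := (Complex.continuous_re.tendsto _).comp h1
      rw [Complex.one_re] at this
      refine this.congr fun n => ?_
      exact Complex.ofReal_re _
    have h5 := (Real.continuous_sqrt.tendsto _).comp h4
    simpa [Function.comp_def, Real.sqrt_sq] using h5
  have hinv : ∀ h : H, Tendsto
      (fun n => ‖permL (MulAction.toPerm h : Equiv.Perm G) (v n) - v n‖) U (𝓝 0) := by
    intro h
    have h1 := hlim h⁻¹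
    have h2 : Tendsto (fun n => ‖permL (MulAction.toPerm h : Equiv.Perm G) (v n) - v n‖ ^ 2) U
        (𝓝 0) := by
      have h3 : ∀ n, ‖permL (MulAction.toPerm h : Equiv.Perm G) (v n) - v n‖ ^ 2 =
          2 * ‖v n‖ ^ 2 - 2 * (⟪v n, leftReg G (α h⁻¹) (rightReg G ((h⁻¹ : H) : G)
            (v n))⟫_ℂ).re := by
        intro n
        rw [hperm, norm_perm_sub_sq, map_inv, Subgroup.coe_inv]
      simp only [h3]
      have h4 := (((hnorm.pow 2).const_mul 2).sub
        (((Complex.continuous_re.tendsto _).comp h1).const_mul 2))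
      simpa using h4
    have h5 := (Real.continuous_sqrt.tendsto _).comp h2
    simpa [Function.comp_def, Real.sqrt_sq] using h5
  have hmass := hConc H G hH U v hnorm hinv
  -- the points with amenable stabiliser
  have hstab : ∀ z : G, g' * z ≠ z * g → IsAmen (MulAction.stabilizer H z) := by
    intro z hzz
    by_contra hna
    refine hzz (hz z fun hA => hna ?_)
    refine isAmen_congr (MulEquiv.subgroupCongr ?_) hA
    ext h
    rw [MulAction.mem_stabilizer_iff]
    change (α h = z * (h : G) * z⁻¹) ↔ (α h * z * (h : G)⁻¹ = z)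
    rw [mul_inv_eq_iff_eq_mul, eq_mul_inv_iff_mul_eq]
  have hle : ∀ n, ‖leftReg G g' (rightReg G g (v n)) - v n‖ ^ 2 ≤
      4 * ∑' x : {x : G // IsAmen (MulAction.stabilizer H x)}, ‖v n x.1‖ ^ 2 := fun n =>
    diff_le g g' {x | IsAmen (MulAction.stabilizer H x)} hstab (v n)
  have hzero : Tendsto (fun n => ‖leftReg G g' (rightReg G g (v n)) - v n‖ ^ 2) U (𝓝 0) := by
    refine squeeze_zero (fun n => sq_nonneg _) hle ?_
    simpa using hmass.const_mul 4
  have h1 := hv g' g
  rw [hξ0 g g' (fun h hh => hgg h hh)] at h1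
  have h2 : Tendsto (fun n => ‖leftReg G g' (rightReg G g (v n)) - v n‖ ^ 2) U (𝓝 2) := by
    simp only [norm_perm_sub_sq]
    have h4 := (((hnorm.pow 2).const_mul 2).sub
        (((Complex.continuous_re.tendsto _).comp h1).const_mul 2))
    simpa using h4
  have := tendsto_nhds_unique hzero h2
  norm_num at this

end

end MP8a6869.WR
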