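import Pool.Agent.Work.MP_8a6869_an.WR.Stmts
import Pool.Agent.Work.MP_8a6869_an.Bd.B02

/-!
# MP_8a6869_an, wreath products, item MODEL: the factor of an involution of a group ring
-/

namespace MP8a6869.WR

open scoped InnerProductSpace ComplexOrder
open MonoidAlgebra Filter Topology

noncomputable section

namespace Model

/-- the group elements as unitaries of `ℂ[H]` -/
def uH (H : Type) [Group H] : H →* unitary (MonoidAlgebra ℂ H) where
  toFun g := ⟨single g 1, by
    constructor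
    · rw [star_single_ma, single_mul_single, inv_mul_cancel, star_one, one_mul, one_def]
    · rw [star_single_ma, single_mul_single, mul_inv_cancel, star_one, one_mul, one_def]⟩
  map_one' := rfl
  map_mul' g h := by
    apply Subtype.ext
    change (single (g * h) 1 : MonoidAlgebra ℂ H) = single g 1 * single h 1
    rw [single_mul_single, one_mul]

theorem uH_coe (H : Type) [Group H] (g : H) : (uH H g : MonoidAlgebra ℂ H) = single g 1 := rfl

theorem trB_apply (H : Type) [Group H] (x : MonoidAlgebra ℂ H) : (trB H).τ x = x.coeff 1 := rfl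

theorem trB_one (H : Type) [Group H] : (trB H).τ 1 = 1 := by
  rw [trB_apply, coeff_one_one]

theorem trB_uH (H : Type) [Group H] (g : H) (hg : g ≠ 1) :
    (trB H).τ (uH H g : MonoidAlgebra ℂ H) = 0 := by
  classical
  rw [trB_apply, uH_coe, coeff_single, Finsupp.single_apply, if_neg hg]

/-- the first copy of `G` in the unitaries of `ℂ[G × G]` -/
def uF (G : Type) [Group G] : G →* unitary (MonoidAlgebra ℂ (G × G)) :=
  (uH (G × G)).comp (MonoidHom.inl G G)

theorem uF_coe (G : Type) [Group G] (g : G) :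
    (uF G g : MonoidAlgebra ℂ (G × G)) = single (g, 1) 1 := rfl

theorem trB_uF (G : Type) [Group G] (g : G) (hg : g ≠ 1) :
    (trB (G × G)).τ (uF G g : MonoidAlgebra ℂ (G × G)) = 0 :=
  trB_uH (G × G) (g, 1) (by
    intro h
    exact hg (congrArg Prod.fst h))

theorem finite_uF (G : Type) [Group G] (x : MonoidAlgebra ℂ (G × G)) :
    {g : G | (trB (G × G)).τ (x * (uF G g : MonoidAlgebra ℂ (G × G))) ≠ 0}.Finite := by
  classical
  refine Set.Finite.subset (s := (fun p : G × G => p.1⁻¹) '' (x.coeff.support : Set (G × G)))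
    (Set.Finite.image _ (Finset.finite_toSet _)) ?_
  intro g hg
  refine ⟨(g⁻¹, 1), ?_, inv_inv g⟩
  rw [Finset.mem_coe, Finsupp.mem_support_iff]
  intro h0
  apply hg
  rw [trB_apply, uF_coe, coeff_mul_single_apply, one_mul]
  have h1 : ((g, 1) : G × G)⁻¹ = (g⁻¹, 1) := by
    rw [Prod.inv_mk, inv_one]
  rw [h1, h0, zero_mul]

theorem icc_prod (G : Type) [Group G]
    (hicc : ∀ g : G, g ≠ 1 → (Set.range fun h : G => h * g * h⁻¹).Infinite) (g : G × G)
    (hg : g ≠ 1) : (Set.range fun h : G × G => h * g * h⁻¹).Infinite := by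
  by_cases h1 : g.1 = 1
  · have h2 : g.2 ≠ 1 := fun h2 => hg (Prod.ext h1 h2)
    intro hfin
    refine hicc g.2 h2 ((hfin.image Prod.snd).subset ?_)
    rintro _ ⟨h, rfl⟩
    exact ⟨(1, h) * g * (1, h)⁻¹, ⟨(1, h), rfl⟩, rfl⟩
  · intro hfin
    refine hicc g.1 h1 ((hfin.image Prod.fst).subset ?_)
    rintro _ ⟨h, rfl⟩
    exact ⟨(h, 1) * g * (h, 1)⁻¹, ⟨(h, 1), rfl⟩, rfl⟩

theorem separable_fock (H : Type) [Group H] [Countable H] {C : Cov (trB H)} (F : LeftSys C) :
    TopologicalSpace.SeparableSpace F.H := by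
  refine Sep.separable_of_span F (Set.range fun h : H => (single h 1 : MonoidAlgebra ℂ H))
    (Set.countable_range _) ?_
  rw [eq_top_iff]
  intro x _
  induction x using MonoidAlgebra.induction_linear with
  | zero => exact Submodule.zero_mem _
  | add x y hx hy => exact Submodule.add_mem _ (hx trivial) (hy trivial)
  | single g m =>
    have h : (single g m : MonoidAlgebra ℂ H) = m • single g 1 := by
      rw [MonoidAlgebra.smul_single, smul_eq_mul, mul_one]
    rw [h]
    exact Submodule.smul_mem _ _ (Submodule.subset_span ⟨g, rfl⟩)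

end Model

open Model in
theorem model (h1 : CovGStmt) (h2 : L2FBStmt) (h3 : NeumBStmt) : ModelStmt := by
  intro G _ _ _ hicc L _ j hj σ hσ hσσ
  have hi : Function.Injective ((MonoidHom.inl G G).comp j) := by
    intro a b hab
    exact hj (congrArg Prod.fst hab)
  obtain ⟨C, hC, hC0⟩ := h1 (G × G) L ((MonoidHom.inl G G).comp j) hi σ hσ hσσ
  have hdom : ∀ a : MonoidAlgebra ℂ (G × G), Dominated a := dom.2.2 ℂ dom.1 (G × G)
  obtain ⟨L0⟩ := leftSys kol ext formHerm formPos (MonoidAlgebra ℂ (G × G)) (trB (G × G)) C hdom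
  obtain ⟨F⟩ := fockSys extConj formRev (MonoidAlgebra ℂ (G × G)) (trB (G × G)) C L0
  obtain ⟨ht, hs⟩ := trac extConj (MonoidAlgebra ℂ (G × G)) (trB (G × G)) C F
  have hone : (trB (G × G)).τ 1 = 1 := trB_one (G × G)
  have hE0 : ∀ h : G × G, h.2 ≠ 1 → C.E (single h 1) = 0 := by
    intro h hh
    refine hC0 h ?_
    rintro ⟨w, rfl⟩
    exact hh rfl
  have hcent := cent (MonoidAlgebra ℂ (G × G)) (trB (G × G)) C F hone (G × G) (uH (G × G))
    (by
      intro n _ x y
      obtain ⟨g, hg⟩ := h3 G C.E hE0 n x y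
      exact ⟨g, hg⟩)
    (h2 (G × G) (icc_prod G hicc))
  have hII := fact (MonoidAlgebra ℂ (G × G)) (trB (G × G)) C F hone ht hs (G × G) (uH (G × G))
    (trB_uH (G × G)) hcent
  obtain ⟨ι, hι⟩ := iota ext (MonoidAlgebra ℂ (G × G)) (trB (G × G)) C F hone ht hs G (uF G)
    (finite_uF G) (trB_uF G)
  refine ⟨F.vna hone ht hs, hII, separable_fock (G × G) F.toLeftSys, ι, ⟨F.D, F.D_mem⟩, ?_⟩
  intro w w'
  set ξ : (F.vna hone ht hs).Elt := ⟨F.D, F.D_mem⟩ with hξ
  have hopξ : opOf F hone ht hs ξ = F.D := rfl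
  have h3' : opOf F hone ht hs (ι.hom ⟨leftReg G (j w), leftReg_mem G _⟩) =
      F.lam (single (j w, 1) 1) := hι (j w)
  have h4 : opOf F hone ht hs (ι.hom ⟨leftReg G (j w')⁻¹, leftReg_mem G _⟩) =
      F.lam (single ((j w')⁻¹, 1) 1) := hι (j w')⁻¹
  have hD1 : F.D F.Om = F.vec [1, 1] := by
    rw [FockSys.Om, F.D_one]
  rw [vna_tr, opOf_mul, opOf_mul, h3', h4, hopξ, mul_apply_eq_comp, mul_apply_eq_comp, hD1]
  have h5 : F.lam (single ((j w')⁻¹, 1) 1) F.Om = F.vec [single ((j w')⁻¹, 1) 1] := by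
    rw [FockSys.Om, F.lam_vec, mul_one]
  rw [h5, F.D_one, F.lam_vec, F.inner_vec, mul_one]
  have h6 : form C 1 [1, 1] [single (j w, 1) 1, single ((j w')⁻¹, 1) 1] =
      (trB (G × G)).τ (star 1 * C.E (star 1 * 1 * single (j w, 1) 1) *
        single ((j w')⁻¹, 1) 1) := rfl
  rw [h6, star_one, one_mul, one_mul, one_mul, trB_apply, coeff_mul_single_apply, one_mul, mul_one]
  have h7 : (((j w')⁻¹, 1) : G × G)⁻¹ = (j w', 1) := by
    rw [Prod.inv_mk, inv_one, inv_inv]
  rw [h7]
  exact hC w w'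

end

end MP8a6869.WR
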