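import Pool.Agent.Work.MP_8a6869_an.WR.Stmts3
import Pool.Agent.Work.MP_8a6869_an.WR.Model

/-!
# MP_8a6869_an, homogeneity, item MODELA: the factor of two embeddings of a group
-/

namespace MP8a6869.WR

open scoped InnerProductSpace ComplexOrder
open MonoidAlgebra Filter Topology

noncomputable section

namespace ModelA

/-- the first copy of `G` in the unitaries of `M_3(ℂ[G × G])` -/
def uF (G : Type) [Group G] : G →* unitary (AG (G × G)) := (uG (G × G)).comp (MonoidHom.inl G G)

theorem uF_coe (G : Type) [Group G] (g : G) : (uF G g : AG (G × G)) = single (g, 1) 1 := rfl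

theorem trA_uF (G : Type) [Group G] (g : G) (hg : g ≠ 1) :
    (trA (G × G)).τ (uF G g : AG (G × G)) = 0 :=
  trA_uG (G × G) (g, 1) (by
    intro h
    exact hg (congrArg Prod.fst h))

theorem finite_uF (G : Type) [Group G] (x : AG (G × G)) :
    {g : G | (trA (G × G)).τ (x * (uF G g : AG (G × G))) ≠ 0}.Finite := by
  have h := finite_uG (G × G) x
  refine Set.Finite.of_finite_image (f := fun g : G => ((g, 1) : G × G)) (h.subset ?_)
    (fun a _ b _ hab => congrArg Prod.fst hab)
  rintro _ ⟨g, hg, rfl⟩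
  exact hg

theorem sum_single_ag {H : Type} [Group H] (x : AG H) :
    x = ∑ h ∈ x.coeff.support, single h (x.coeff h) :=
  x.sum_coeff_single.symm

theorem E_zero {G : Type} [Group G] (E : AG (G × G) →ₗ[ℂ] AG (G × G))
    (hE : ∀ (h : G × G) (m : M3), h.2 ≠ 1 → E (single h m) = 0) (x : AG (G × G))
    (hx : ∀ h, x.coeff h ≠ 0 → h.2 ≠ 1) : E x = 0 := by
  rw [sum_single_ag x, map_sum]
  refine Finset.sum_eq_zero fun h hh => hE h _ (hx h (Finsupp.mem_support_iff.1 hh))

theorem neumA (G : Type) [Group G] [Infinite G] (E : AG (G × G) →ₗ[ℂ] AG (G × G))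
    (hE : ∀ (h : G × G) (m : M3), h.2 ≠ 1 → E (single h m) = 0)
    (n : Type) [Finite n] (x y : n → AG (G × G)) :
    ∃ g : G × G, ∀ j, E (star (y j) * single g 1 * x j) = 0 := by
  classical
  let P : Set ((G × G) × (G × G)) :=
    ⋃ j : n, ((y j).coeff.support ×ˢ (x j).coeff.support : Finset ((G × G) × (G × G)))
  have hP : P.Finite := Set.finite_iUnion fun j => Finset.finite_toSet _
  obtain ⟨g', hg'⟩ := (hP.image fun p => p.1.2 * p.2.2⁻¹).exists_notMem
  refine ⟨(1, g'), fun j => E_zero E hE _ fun h hh => ?_⟩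
  obtain ⟨a, t, ha, ht, rfl⟩ := T3_coeff_mul hh
  obtain ⟨s, g, hs, hg, rfl⟩ := T3_coeff_mul ha
  have hgg : g = (1, g') := by
    by_contra hne
    apply hg
    rw [coeff_single, Finsupp.single_apply, if_neg (fun h0 => hne h0.symm)]
  subst hgg
  rw [star_coeff] at hs
  have hs' : (y j).coeff s⁻¹ ≠ 0 := by
    intro h0; apply hs; rw [h0, star_zero]
  intro h1
  apply hg'
  refine ⟨(s⁻¹, t), ?_, ?_⟩
  · refine Set.mem_iUnion.2 ⟨j, ?_⟩
    rw [Finset.mem_coe, Finset.mem_product]
    exact ⟨Finsupp.mem_support_iff.2 hs', Finsupp.mem_support_iff.2 ht⟩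
  · have h2 : s.2 * g' * t.2 = 1 := h1
    change s⁻¹.2 * t.2⁻¹ = g'
    rw [Prod.snd_inv, ← mul_inv_rev, inv_eq_iff_mul_eq_one]
    have h3 : t.2 * s.2 * g' = 1 := by
      have h4 : t.2 * (s.2 * g' * t.2) * t.2⁻¹ = 1 := by rw [h2]; group
      rw [← h4]
      group
    exact h3

end ModelA

open ModelA in
theorem modelA (h1 : CovAStmt) : ModelAStmt := by
  intro G _ _ _ hicc H _ i α hi hα
  obtain ⟨C, hC0, hC1, hC2⟩ := h1 G H i α hi hα
  obtain ⟨L0⟩ := leftSys kol ext formHerm formPos (AG (G × G)) (trA (G × G)) C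
    (domM3 dom (G × G))
  obtain ⟨F⟩ := fockSys extConj formRev (AG (G × G)) (trA (G × G)) C L0
  obtain ⟨ht, hs⟩ := trac extConj (AG (G × G)) (trA (G × G)) C F
  have hone : (trA (G × G)).τ 1 = 1 := trA_one (G × G)
  have hcent := cent (AG (G × G)) (trA (G × G)) C F hone (G × G) (uG (G × G))
    (by
      intro n _ x y
      obtain ⟨g, hg⟩ := neumA G C.E hC0 n x y
      exact ⟨g, hg⟩)
    (l2f (G × G) (Model.icc_prod G hicc))
  have hII := fact (AG (G × G)) (trA (G × G)) C F hone ht hs (G × G) (uG (G × G))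
    (trA_uG (G × G)) hcent
  obtain ⟨ι, hι⟩ := iota ext (AG (G × G)) (trA (G × G)) C F hone ht hs G (uF G)
    (finite_uF G) (trA_uF G)
  set e : AG (G × G) := single 1 (Matrix.single 0 0 1) with he
  set e3 : AG (G × G) := single 1 (Matrix.single 2 2 1) with he3
  set ξ : (F.vna hone ht hs).Elt := ⟨(3 : ℂ) • (F.lam e * F.D * F.lam e3),
    F.alg.toStarSubalgebra.smul_mem
      (mul_mem (mul_mem (F.lam_mem e) F.D_mem) (F.lam_mem e3)) 3⟩ with hξd
  have hopξ : opOf F hone ht hs ξ = (3 : ℂ) • (F.lam e * F.D * F.lam e3) := rfl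
  have hξ : ∀ b : AG (G × G), (opOf F hone ht hs ξ) (F.lam b F.Om) =
      (3 : ℂ) • F.vec [e, e3 * b] := by
    intro b
    rw [hopξ]
    change (3 : ℂ) • F.lam e (F.D (F.lam e3 (F.lam b F.Om))) = _
    rw [FockSys.Om, F.lam_vec, F.lam_vec, F.D_one, F.lam_vec, mul_one, mul_one]
  have hξ1 : (opOf F hone ht hs ξ) F.Om = (3 : ℂ) • F.vec [e, e3] := by
    rw [hopξ]
    change (3 : ℂ) • F.lam e (F.D (F.lam e3 F.Om)) = _
    rw [FockSys.Om, F.lam_vec, F.D_one, F.lam_vec, mul_one, mul_one]
  have hterm : ∀ g g' : G, (F.vna hone ht hs).tr (star ξ *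
      (ι.hom ⟨leftReg G g', leftReg_mem G _⟩ * ξ *
        ι.hom ⟨leftReg G g⁻¹, leftReg_mem G _⟩)) =
      9 * (trA (G × G)).τ (e3 * C.E (single (g', 1) (Matrix.single 0 0 1)) *
        single (g⁻¹, 1) (Matrix.single 2 2 1)) := by
    intro g g'
    have h3 : opOf F hone ht hs (ι.hom ⟨leftReg G g', leftReg_mem G _⟩) =
      F.lam (single (g', 1) 1) := hι g'
    have h4 : opOf F hone ht hs (ι.hom ⟨leftReg G g⁻¹, leftReg_mem G _⟩) =
      F.lam (single (g⁻¹, 1) 1) := hι g⁻¹
    rw [vna_tr, hξ1, opOf_mul, opOf_mul, h3, h4, mul_apply_eq_comp, mul_apply_eq_comp, hξ,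
      map_smul, F.lam_vec, inner_smul_left, inner_smul_right, F.inner_vec]
    have hes : star e = e := by
      rw [he, star_single_ma, inv_one]
      congr 1
      ext i j
      fin_cases i <;> fin_cases j <;> simp [Matrix.star_apply]
    have he3s : star e3 = e3 := by
      rw [he3, star_single_ma, inv_one]
      congr 1
      ext i j
      fin_cases i <;> fin_cases j <;> simp [Matrix.star_apply]
    have h5 : form C 1 [e, e3] [single (g', 1) 1 * e, e3 * single (g⁻¹, 1) 1] =
        (trA (G × G)).τ (star e3 * C.E (star e * 1 * (single (g', 1) 1 * e)) *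
          (e3 * single (g⁻¹, 1) 1)) := rfl
    rw [h5, hes, he3s, mul_one]
    have h6 : e * (single (g', 1) 1 * e) = single (g', 1) (Matrix.single 0 0 1) := by
      rw [he, single_mul_single, single_mul_single, one_mul, mul_one, one_mul,
        Matrix.single_mul_single_same, mul_one]
    have h7 : e3 * (single (g⁻¹, 1) 1 : AG (G × G)) = single (g⁻¹, 1) (Matrix.single 2 2 1) := by
      rw [he3, single_mul_single, one_mul, mul_one]
    rw [h6, h7]
    have h8 : (starRingEnd ℂ) 3 = 3 := Complex.conj_ofNat 3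
    rw [h8]
    ring
  refine ⟨F.vna hone ht hs, hII, Sep.separable_fock (G × G) F.toLeftSys, ι, ξ, ?_, ?_⟩
  · intro h
    rw [hterm, hC1, mul_smul_comm, smul_mul_assoc, map_smul, mul_add, add_mul, he3,
      single_mul_single, single_mul_single, single_mul_single, single_mul_single, map_add]
    have m1 : (Matrix.single 2 2 1 : M3) * Matrix.single 0 0 1 * Matrix.single 2 2 1 = 0 := by
      ext i j
      fin_cases i <;> fin_cases j <;> simp [Matrix.mul_apply, Fin.sum_univ_three]
    have m2 : (Matrix.single 2 2 1 : M3) * (Matrix.single 1 1 1 + Matrix.single 2 2 1) *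
        Matrix.single 2 2 1 = Matrix.single 2 2 1 := by
      ext i j
      fin_cases i <;> fin_cases j <;> simp [Matrix.mul_apply, Fin.sum_univ_three]
    rw [m1, m2, single_zero, map_zero, zero_add, one_mul]
    have g1 : ((i h, 1) : G × G) * ((i h)⁻¹, 1) = 1 := by
      rw [Prod.mk_mul_mk, mul_inv_cancel, mul_one]
      rfl
    rw [g1, trA, TrAlg.ma_apply, coeff_single, Finsupp.single_eq_same, T4_tr]
    simp
    norm_num
  · intro g g' hgg
    rw [hterm]
    by_cases hex : ∃ h : H, α h = g'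
    · obtain ⟨h, rfl⟩ := hex
      have hne : i h ≠ g := fun h0 => hgg h h0 rfl
      rw [hC1, mul_smul_comm, smul_mul_assoc, map_smul, mul_add, add_mul, he3,
        single_mul_single, single_mul_single, single_mul_single, single_mul_single, map_add]
      have m1 : (Matrix.single 2 2 1 : M3) * Matrix.single 0 0 1 * Matrix.single 2 2 1 = 0 := by
        ext i j
        fin_cases i <;> fin_cases j <;> simp [Matrix.mul_apply, Fin.sum_univ_three]
      rw [m1, single_zero, map_zero, zero_add, one_mul]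
      have g1 : ((i h, 1) : G × G) * (g⁻¹, 1) ≠ 1 := by
        intro h0
        have h1 : i h * g⁻¹ = 1 := congrArg Prod.fst h0
        exact hne (mul_inv_eq_one.1 h1)
      classical
      rw [trA, TrAlg.ma_apply, coeff_single, Finsupp.single_apply, if_neg g1, map_zero, smul_zero,
        mul_zero]
    · rw [hC2 g' (fun h h0 => hex ⟨h, h0⟩), mul_zero, zero_mul, map_zero, mul_zero]

end

end MP8a6869.WR
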