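import Pool.Agent.Work.MP_8a6869_an.WR.Stmts
import Pool.Agent.Work.MP_8a6869_an.Bd.B02

/-!
# MP_8a6869_an, wreath products: item SEQ

The bimodule coefficients `tr(ξ* λ_g ξ λ_{h⁻¹})` of an element `ξ` of an existential extension of
`L(G)` are limits of the coefficients `⟨v n, λ_g ρ_h (v n)⟩` of the vectors `v n = x_n δ_1` of
`ℓ²(G)`, where `x_n` is a representing sequence of the image of `ξ` in the ultrapower.
-/

namespace MP8a6869.WR

open scoped InnerProductSpace ComplexOrder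
open Filter Topology

noncomputable section

namespace Seq

/-- The traces of the words `ξ* ι(l) ξ ι(l')` are limits of traces of words in `L(G)`. -/
theorem conv (U : Ultrafilter ℕ) (G : Type) [Group G] (M : TracialVNA) (ι : Embedding (LG G) M)
    (θ : M.Elt → ℕ → (LG G).Elt) (hbd : ∀ x, ∃ C : ℝ, ∀ n, ‖θ x n‖ ≤ C)
    (hmul : ∀ x y, USame U (LG G) (θ (x * y)) (fun n => θ x n * θ y n))
    (hstar : ∀ x, USame U (LG G) (θ (star x)) (fun n => star (θ x n)))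
    (htr : ∀ x, Tendsto (fun n => (LG G).tr (θ x n)) U (𝓝 (M.tr x)))
    (hι : ∀ x : (LG G).Elt, USame U (LG G) (θ (ι.hom x)) (fun _ => x))
    (ξ : M.Elt) (l l' : (LG G).Elt) :
    Tendsto (fun n => (LG G).tr (star (θ ξ n) * (l * θ ξ n * l'))) U
      (𝓝 (M.tr (star ξ * (ι.hom l * ξ * ι.hom l')))) := by
  refine N3.same_tr U ?_ (htr (star ξ * (ι.hom l * ξ * ι.hom l')))
  obtain ⟨C1, hC1⟩ := hbd (star ξ)
  obtain ⟨C2, hC2⟩ := hbd ξ
  obtain ⟨C3, hC3⟩ := hbd (ι.hom l)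
  obtain ⟨C4, hC4⟩ := hbd (ι.hom l * ξ)
  have e1 : USame U (LG G) (θ (ι.hom l * ξ)) (fun n => l * θ ξ n) := by
    refine N3.same_trans U (hmul _ _) ?_
    refine N3.same_mul U C3 C2 hC3 hC2 (hι l) ?_
    exact N3.same_refl U _
  have e2 : USame U (LG G) (θ (ι.hom l * ξ * ι.hom l')) (fun n => l * θ ξ n * l') := by
    refine N3.same_trans U (hmul _ _) ?_
    exact N3.same_mul U C4 ‖l'‖ hC4 (fun _ => le_rfl) e1 (hι l')
  refine N3.same_trans U (hmul _ _) ?_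
  refine N3.same_mul U C1 (‖l‖ * C2 * ‖l'‖) hC1 ?_ (hstar ξ) e2
  intro n
  refine (norm_mul_le _ _).trans (mul_le_mul_of_nonneg_right ?_ (norm_nonneg _))
  exact (norm_mul_le _ _).trans (mul_le_mul_of_nonneg_left (hC2 n) (norm_nonneg _))

/-- `tr(x* λ_g x λ_{h⁻¹}) = ⟨x δ_1, λ_g ρ_h x δ_1⟩` in `L(G)`. -/
theorem coeff (G : Type) [Group G] (x : (LG G).Elt) (g h : G) :
    (LG G).tr (star x * ((⟨leftReg G g, leftReg_mem G g⟩ : (LG G).Elt) * x *
      (⟨leftReg G h⁻¹, leftReg_mem G h⁻¹⟩ : (LG G).Elt))) =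
    ⟪(x.1 (delta (1 : G)) : ell2 G), leftReg G g (rightReg G h (x.1 (delta (1 : G)) : ell2 G))⟫_ℂ := by
  have h2 := LGtr_star_mul G x
    ((⟨leftReg G g, leftReg_mem G g⟩ : (LG G).Elt) * x *
      (⟨leftReg G h⁻¹, leftReg_mem G h⁻¹⟩ : (LG G).Elt))
  refine Eq.trans h2 ?_
  have h3 : x.1 (leftReg G h⁻¹ (delta (1 : G))) =
      rightReg G h (x.1 (delta (1 : G)) : ell2 G) := by
    have h4 : leftReg G h⁻¹ (delta (1 : G)) = rightReg G h (delta 1) := by
      rw [leftReg_delta, rightReg_delta, mul_one, one_mul]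
    rw [h4]
    have h5 := comm_rightReg G x.2 h
    have h6 := congrArg (fun (S : ell2 G →L[ℂ] ell2 G) => S (delta 1)) h5
    exact h6.symm
  exact congrArg (fun v : ell2 G => ⟪(x.1 (delta (1 : G)) : ell2 G), leftReg G g v⟫_ℂ) h3

end Seq

/-- [SEQ] -/
theorem seq : SeqStmt := by
  intro U G _ M ι ⟨θ, hbd, _, _, _, hmul, hstar, htr, hι⟩ ξ
  refine ⟨fun n => (θ ξ n).1 (delta (1 : G)), fun g h => ?_⟩
  refine (Seq.conv U G M ι θ hbd hmul hstar htr hι ξ ⟨leftReg G g, leftReg_mem G g⟩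
    ⟨leftReg G h⁻¹, leftReg_mem G h⁻¹⟩).congr fun n => ?_
  exact Seq.coeff G (θ ξ n) g h

end

end MP8a6869.WR
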