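import Pool.Agent.Work.MP_8a6869_an.WR.Stmts

/-!
# MP_8a6869_an, wreath products: [AMEN] a nonamenable group is infinite and not of exponent 2
-/

namespace MP8a6869.WR

open Filter Topology

namespace Amen

/-- The proportion of `A` in the subgroup generated by `s`. -/
noncomputable def prop {Γ : Type} [Group Γ] (A : Set Γ) (s : Finset Γ) : ℝ :=
  ((A ∩ (Subgroup.closure (s : Set Γ) : Set Γ)).ncard : ℝ) /
    ((Subgroup.closure (s : Set Γ) : Set Γ).ncard : ℝ)

variable {Γ : Type} [Group Γ]

theorem ncard_pos (h : ∀ s : Finset Γ, (Subgroup.closure (s : Set Γ) : Set Γ).Finite)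
    (s : Finset Γ) : (0 : ℝ) < ((Subgroup.closure (s : Set Γ) : Set Γ).ncard : ℝ) := by
  have h1 : 0 < (Subgroup.closure (s : Set Γ) : Set Γ).ncard :=
    (Set.ncard_pos (h s)).2 ⟨1, Subgroup.one_mem _⟩
  exact_mod_cast h1

theorem prop_mem (h : ∀ s : Finset Γ, (Subgroup.closure (s : Set Γ) : Set Γ).Finite)
    (A : Set Γ) (s : Finset Γ) : prop A s ∈ Set.Icc (0 : ℝ) 1 := by
  refine ⟨by unfold prop; positivity, ?_⟩
  unfold prop
  rw [div_le_one (ncard_pos h s)]
  exact_mod_cast Set.ncard_le_ncard Set.inter_subset_right (h s)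

theorem prop_univ (h : ∀ s : Finset Γ, (Subgroup.closure (s : Set Γ) : Set Γ).Finite)
    (s : Finset Γ) : prop (Set.univ : Set Γ) s = 1 := by
  unfold prop
  rw [Set.univ_inter, div_self (ncard_pos h s).ne']

theorem prop_union (h : ∀ s : Finset Γ, (Subgroup.closure (s : Set Γ) : Set Γ).Finite)
    {A B : Set Γ} (hAB : Disjoint A B) (s : Finset Γ) :
    prop (A ∪ B) s = prop A s + prop B s := by
  unfold prop
  rw [Set.union_inter_distrib_right, Set.ncard_union_eq
    (hAB.mono Set.inter_subset_left Set.inter_subset_left)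
    ((h s).subset Set.inter_subset_right) ((h s).subset Set.inter_subset_right)]
  push_cast
  ring

theorem prop_smul (g : Γ) (A : Set Γ) {s : Finset Γ} (hg : g ∈ s) :
    prop ((fun x => g * x) '' A) s = prop A s := by
  have hg' : g ∈ Subgroup.closure (s : Set Γ) := Subgroup.subset_closure (by exact_mod_cast hg)
  have h1 : (fun x => g * x) '' A ∩ (Subgroup.closure (s : Set Γ) : Set Γ) =
      (fun x => g * x) '' (A ∩ (Subgroup.closure (s : Set Γ) : Set Γ)) := by
    ext y
    constructor
    · rintro ⟨⟨x, hx, rfl⟩, hy⟩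
      refine ⟨x, ⟨hx, ?_⟩, rfl⟩
      have h2 : g * x ∈ Subgroup.closure (s : Set Γ) := hy
      exact (Subgroup.mul_mem_cancel_left _ hg').1 h2
    · rintro ⟨x, ⟨hx, hxs⟩, rfl⟩
      exact ⟨⟨x, hx, rfl⟩, Subgroup.mul_mem _ hg' hxs⟩
  unfold prop
  rw [h1, Set.ncard_image_of_injective _ (mul_right_injective g)]

/-- A locally finite group is amenable. -/
theorem locallyFinite (h : ∀ s : Finset Γ, (Subgroup.closure (s : Set Γ) : Set Γ).Finite) :
    IsAmen Γ := by
  classical
  let U : Ultrafilter (Finset Γ) := Ultrafilter.of atTop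
  have hU : (U : Filter (Finset Γ)) ≤ atTop := Ultrafilter.of_le atTop
  have hlim : ∀ A : Set Γ, ∃ x ∈ Set.Icc (0 : ℝ) 1, Tendsto (prop A) U (𝓝 x) := by
    intro A
    obtain ⟨x, hx, hx2⟩ := (isCompact_Icc (a := (0 : ℝ)) (b := 1)).ultrafilter_le_nhds
      (U.map (prop A)) (by
        rw [Ultrafilter.coe_map, le_principal_iff, mem_map]
        exact Filter.univ_mem' fun s => prop_mem h A s)
    exact ⟨x, hx, hx2⟩
  choose m hm1 hm2 using hlim
  refine ⟨m, fun A => (hm1 A).1, ?_, ?_, ?_⟩
  · refine tendsto_nhds_unique (hm2 Set.univ) ?_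
    have : prop (Set.univ : Set Γ) = fun _ => (1 : ℝ) := funext fun s => prop_univ h s
    rw [this]
    exact tendsto_const_nhds
  · intro A B hAB
    refine tendsto_nhds_unique (hm2 (A ∪ B)) ?_
    have : prop (A ∪ B) = fun s => prop A s + prop B s := funext fun s => prop_union h hAB s
    rw [this]
    exact (hm2 A).add (hm2 B)
  · intro g A
    refine tendsto_nhds_unique (hm2 _) ((hm2 A).congr' ?_)
    have h1 : ∀ᶠ s : Finset Γ in atTop, g ∈ s := by
      filter_upwards [eventually_ge_atTop ({g} : Finset Γ)] with s hs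
      exact hs (Finset.mem_singleton_self g)
    filter_upwards [hU h1] with s hs
    exact (prop_smul g A hs).symm

theorem finite_closure (h2 : ∀ a : Γ, a * a = 1) (s : Finset Γ) :
    (Subgroup.closure (s : Set Γ) : Set Γ).Finite := by
  have hinv : ∀ a : Γ, a⁻¹ = a := fun a => inv_eq_of_mul_eq_one_left (h2 a)
  have hcomm : ∀ a b : Γ, a * b = b * a := by
    intro a b
    have h3 := hinv (a * b)
    rw [mul_inv_rev, hinv, hinv] at h3
    exact h3.symm
  let inst : CommGroup (Subgroup.closure (s : Set Γ)) :=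
    { (inferInstance : Group (Subgroup.closure (s : Set Γ))) with
      mul_comm := fun a b => Subtype.ext (hcomm a b) }
  have hfg : Group.FG (Subgroup.closure (s : Set Γ)) :=
    (Group.fg_iff_subgroup_fg _).2 ⟨s, rfl⟩
  have htor : IsMulTorsion (Subgroup.closure (s : Set Γ)) := by
    intro a
    rw [isOfFinOrder_iff_pow_eq_one]
    refine ⟨2, by norm_num, ?_⟩
    rw [pow_two]
    exact Subtype.ext (h2 a)
  have hfin : Finite (Subgroup.closure (s : Set Γ)) :=
    @CommGroup.finite_of_fg_isMulTorsion (Subgroup.closure (s : Set Γ)) inst hfg htor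
  exact Set.toFinite _

end Amen

/-- [AMEN] A nonamenable group is infinite and not of exponent 2. -/
theorem amen : AmenStmt := by
  intro Γ _ hΓ
  refine ⟨?_, ?_⟩
  · by_contra h
    have hfin : Finite Γ := not_infinite_iff_finite.1 h
    exact hΓ (Amen.locallyFinite fun s => Set.toFinite _)
  · by_contra h
    push Not at h
    exact hΓ (Amen.locallyFinite (Amen.finite_closure h))

end MP8a6869.WR
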