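import Pool.Agent.Work.MP_8a6869_an.WR.Stmts

/-!
# MP_8a6869_an, wreath products: item AUTA

The two spectral projections of `c_s` in the group ring of `⊕_Γ ℤ/m`.
-/

namespace MP8a6869.WR.AutA

open scoped InnerProductSpace ComplexOrder
open MonoidAlgebra Filter Topology

noncomputable section

variable {m : ℕ} {Γ : Type}

/-- The element `c_s` of the group ring. -/
def cs (m : ℕ) {Γ : Type} (s : Γ) : CK m Γ := single (gen m s) 1

/-- The projection of the character `c_s ↦ z`. -/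
def E (m : ℕ) {Γ : Type} (s : Γ) (z : ℂ) : CK m Γ :=
  ∑ i ∈ Finset.range m, ((m : ℂ)⁻¹ * z⁻¹ ^ i) • cs m s ^ i

theorem cs_pow (s : Γ) (i : ℕ) : cs m s ^ i = single (gen m s ^ i) 1 := by
  rw [cs, single_pow, one_pow]

theorem smul_cs_pow (s : Γ) (i : ℕ) (r : ℂ) : r • cs m s ^ i = single (gen m s ^ i) r := by
  rw [cs_pow, smul_single, smul_eq_mul, mul_one]

theorem e0_eq (s : Γ) : e0 m s = E m s 1 := by
  rw [e0, E]
  refine Finset.sum_congr rfl fun i _ => ?_
  rw [smul_cs_pow, inv_one, one_pow, mul_one]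

theorem e1_eq (s : Γ) : e1 m s = E m s (om m) := by
  rw [e1, E]
  refine Finset.sum_congr rfl fun i _ => ?_
  rw [smul_cs_pow]

theorem gen_pow (s : Γ) : gen m s ^ m = 1 := by
  apply Multiplicative.toAdd.injective
  change m • (Finsupp.single s (1 : ZMod m)) = 0
  rw [Finsupp.smul_single, nsmul_eq_mul, ZMod.natCast_self, zero_mul, Finsupp.single_zero]

theorem cs_pow_m (s : Γ) : cs m s ^ m = 1 := by
  rw [cs_pow, gen_pow, one_def]

theorem star_cs (s : Γ) : star (cs m s) * cs m s = 1 := by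
  rw [cs, star_single_ma, single_mul_single, inv_mul_cancel, star_one, mul_one, one_def]

theorem cs_mul_E (s : Γ) (z : ℂ) (hz : z ^ m = 1) (hz0 : z ≠ 0) :
    cs m s * E m s z = z • E m s z := by
  have h1 : cs m s * E m s z =
      ∑ i ∈ Finset.range m, z • (((m : ℂ)⁻¹ * z⁻¹ ^ (i + 1)) • cs m s ^ (i + 1)) := by
    rw [E, Finset.mul_sum]
    refine Finset.sum_congr rfl fun i _ => ?_
    rw [smul_smul, mul_smul_comm, ← pow_succ']
    congr 1
    rw [pow_succ]
    field_simp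
  have h2 : z • E m s z =
      ∑ i ∈ Finset.range m, z • (((m : ℂ)⁻¹ * z⁻¹ ^ i) • cs m s ^ i) := by
    rw [E, Finset.smul_sum]
  rw [h1, h2]
  have h3 := Finset.sum_range_succ (fun i => z • (((m : ℂ)⁻¹ * z⁻¹ ^ i) • cs m s ^ i)) m
  have h4 := Finset.sum_range_succ' (fun i => z • (((m : ℂ)⁻¹ * z⁻¹ ^ i) • cs m s ^ i)) m
  rw [h3] at h4
  have h5 : z • (((m : ℂ)⁻¹ * z⁻¹ ^ m) • cs m s ^ m) =
      z • (((m : ℂ)⁻¹ * z⁻¹ ^ 0) • cs m s ^ 0) := by
    rw [cs_pow_m, inv_pow, hz, pow_zero, pow_zero, inv_one]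
  rw [h5] at h4
  exact (add_right_cancel h4).symm

theorem pow_mul_of (s : Γ) (z : ℂ) (x : CK m Γ) (hx : cs m s * x = z • x) (i : ℕ) :
    cs m s ^ i * x = z ^ i • x := by
  induction i with
  | zero => simp
  | succ i ih => rw [pow_succ, mul_assoc, hx, mul_smul_comm, ih, smul_smul, pow_succ']

theorem E_mul_of (s : Γ) (z z' : ℂ) (x : CK m Γ) (hx : cs m s * x = z' • x) :
    E m s z * x = (∑ i ∈ Finset.range m, (m : ℂ)⁻¹ * (z⁻¹ * z') ^ i) • x := by
  rw [E, Finset.sum_mul, Finset.sum_smul]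
  refine Finset.sum_congr rfl fun i _ => ?_
  rw [smul_mul_assoc, pow_mul_of s z' x hx, smul_smul, mul_pow, mul_assoc]

theorem E_mul_self_of (s : Γ) (z : ℂ) (hm : m ≠ 0) (hz0 : z ≠ 0) (x : CK m Γ)
    (hx : cs m s * x = z • x) : E m s z * x = x := by
  rw [E_mul_of s z z x hx, inv_mul_cancel₀ hz0]
  simp only [one_pow, mul_one, Finset.sum_const, Finset.card_range, nsmul_eq_mul]
  rw [mul_inv_cancel₀ (by exact_mod_cast hm), one_smul]

theorem starMul (x y : CK m Γ) : star (x * y) = star y * star x := star_mul x y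

theorem starSmul (z : ℂ) (x : CK m Γ) : star (z • x) = star z • star x := star_smul z x

theorem starStar (x : CK m Γ) : star (star x) = x := star_star x

theorem star_E (s : Γ) (z : ℂ) (hm : m ≠ 0) (hz : z ^ m = 1) (hz0 : z ≠ 0)
    (hzs : (starRingEnd ℂ) z = z⁻¹) : star (E m s z) = E m s z := by
  have h1 := congrArg star (cs_mul_E s z hz hz0)
  rw [starMul, starSmul, mul_comm] at h1
  have h2 : star z = z⁻¹ := hzs
  rw [h2] at h1
  have h3 : cs m s * star (E m s z) = z • star (E m s z) := by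
    have h4 : z • (cs m s * (star (cs m s) * star (E m s z))) =
        z • (cs m s * (z⁻¹ • star (E m s z))) := by
      rw [mul_comm (star (cs m s)), mul_comm (star (E m s z)), ← h1, mul_comm]
    rw [← mul_assoc, mul_comm (cs m s), star_cs, one_mul, mul_smul_comm, smul_smul,
      mul_inv_cancel₀ hz0, one_smul] at h4
    exact h4.symm
  have h5 := E_mul_self_of s z hm hz0 _ h3
  have h6 := congrArg star h5
  rw [starMul, starStar, h5] at h6
  exact h6

theorem om_prim (hm : m ≠ 0) : IsPrimitiveRoot (om m) m := Complex.isPrimitiveRoot_exp m hm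

theorem om_star : (starRingEnd ℂ) (om m) = (om m)⁻¹ := by
  rw [om, ← Complex.exp_conj, ← Complex.exp_neg]
  congr 1
  simp only [map_div₀, map_mul, Complex.conj_ofReal, Complex.conj_I, map_natCast, map_ofNat]
  ring

end

end MP8a6869.WR.AutA

namespace MP8a6869.WR

open AutA in
theorem autA : AutAStmt := by
  intro m Γ hm
  have hm0 : m ≠ 0 := by omega
  have hp := om_prim hm0
  have h1 : om m ^ m = 1 := hp.pow_eq_one
  have h2 : om m ≠ 1 := hp.ne_one (by omega)
  have h0 : om m ≠ 0 := hp.ne_zero hm0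
  refine ⟨h1, h2, om_star, fun s => ?_⟩
  have a0 : cs m s * E m s 1 = (1 : ℂ) • E m s 1 := cs_mul_E s 1 (one_pow m) one_ne_zero
  have a1 := cs_mul_E s (om m) h1 h0
  refine ⟨gen_pow s, ?_, ?_, ?_, ?_, ?_, ?_, ?_⟩
  · rw [e0_eq]
    exact E_mul_self_of s 1 hm0 one_ne_zero _ a0
  · rw [e1_eq]
    exact E_mul_self_of s (om m) hm0 h0 _ a1
  · rw [e0_eq, e1_eq, E_mul_of s 1 (om m) _ a1, ← Finset.mul_sum, inv_one, one_mul,
      hp.geom_sum_eq_zero (by omega), mul_zero, zero_smul]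
  · rw [e0_eq]
    exact star_E s 1 hm0 (one_pow m) one_ne_zero (by simp)
  · rw [e1_eq]
    exact star_E s (om m) hm0 h1 h0 om_star
  · rw [e0_eq]
    change cs m s * E m s 1 = _
    rw [a0, one_smul]
  · rw [e1_eq]
    exact a1

end MP8a6869.WR
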