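import Pool.Agent.Work.MP_8a6869_an.WR.Stmts

/-!
# MP_8a6869_an, wreath products, item AUTB: the endomorphism `β`
-/

namespace MP8a6869.WR

open scoped InnerProductSpace ComplexOrder
open MonoidAlgebra Filter Topology

noncomputable section

namespace AutB

/-! ## Identities in a commutative ring -/

/-- Powers of the unitary. -/
theorem pow_aux {R : Type*} [CommRing R] (w c p q M : R) (hpp : p * p = p) (hqq : q * q = q)
    (hpq : p * q = 0) (hM : M * M = M) (hcp : c * p = p) (hcq : c * q = w * q) (i : ℕ) :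
    (c + (w - 1) * ((p - q) * M)) ^ i = c ^ i + (w ^ i - 1) * ((p - q) * M) := by
  have h1 : ∀ i : ℕ, c ^ i * p = p := by
    intro i
    induction i with
    | zero => simp
    | succ i ih => rw [pow_succ, mul_assoc, hcp, ih]
  have h2 : ∀ i : ℕ, c ^ i * q = w ^ i * q := by
    intro i
    induction i with
    | zero => simp
    | succ i ih => rw [pow_succ, mul_assoc, hcq, mul_left_comm, ih]; ring
  induction i with
  | zero => simp
  | succ i ih =>
    rw [pow_succ, ih, pow_succ c, pow_succ w]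
    linear_combination (w - 1) * M * h1 i - (w - 1) * M * h2 i + (w ^ i - 1) * M * hcp -
      (w ^ i - 1) * M * hcq + (w ^ i - 1) * (w - 1) * (p - q) ^ 2 * hM +
      (w ^ i - 1) * (w - 1) * M * (hpp + hqq - 2 * hpq)

/-- The unitary is a unitary. -/
theorem star_aux {R : Type*} [CommRing R] (w w' c c' p q M : R) (hpp : p * p = p)
    (hqq : q * q = q) (hpq : p * q = 0) (hM : M * M = M) (hcp : c * p = p)
    (hcq : c * q = w * q) (hcc : c' * c = 1) (hww : w' * w = 1) :
    (c' + (w' - 1) * ((p - q) * M)) * (c + (w - 1) * ((p - q) * M)) = 1 := by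
  have h1 : c' * p = p := by
    linear_combination p * hcc - c' * hcp
  have h2 : c' * q = w' * q := by
    linear_combination (w' * q) * hcc - c' * w' * hcq - c' * q * hww
  linear_combination hcc + (w - 1) * M * h1 - (w - 1) * M * h2 + (w' - 1) * M * hcp -
      (w' - 1) * M * hcq + (w' - 1) * (w - 1) * (p - q) ^ 2 * hM +
      (w' - 1) * (w - 1) * M * (hpp + hqq - 2 * hpq) + (p * M - q * M) * hww

/-! ## The star of `ℂ[⊕ ℤ/m]` -/

theorem star_mul_ck {m : ℕ} {Γ : Type} (x y : CK m Γ) : star (x * y) = star x * star y := by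
  rw [mul_comm]
  exact star_mul y x

theorem star_add_ck {m : ℕ} {Γ : Type} (x y : CK m Γ) : star (x + y) = star x + star y :=
  star_add x y

theorem star_sub_ck {m : ℕ} {Γ : Type} (x y : CK m Γ) : star (x - y) = star x - star y :=
  star_sub x y

theorem star_smul_ck {m : ℕ} {Γ : Type} (c : ℂ) (x : CK m Γ) :
    star (c • x) = star c • star x :=
  star_smul c x

theorem star_zero_ck {m : ℕ} {Γ : Type} : star (0 : CK m Γ) = 0 := by
  have h := star_smul_ck (0 : ℂ) (0 : CK m Γ)
  rwa [zero_smul, star_zero, zero_smul] at h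

/-- The unitaries with `m`-th power 1 give a homomorphism of `⊕ ℤ/m`. -/
theorem exists_hom {A : Type} [CommGroup A] (m : ℕ) (Γ : Type) (u : Γ → A)
    (h : ∀ s, u s ^ m = 1) : ∃ F : K m Γ →* A, ∀ s, F (gen m s) = u s := by
  have h0 : ∀ s, zmultiplesHom (Additive A) (Additive.ofMul (u s)) (m : ℤ) = 0 := by
    intro s
    rw [zmultiplesHom_apply, natCast_zsmul, ← ofMul_pow, h s, ofMul_one]
  refine ⟨AddMonoidHom.toMultiplicativeLeft (Finsupp.liftAddHom fun s =>
    ZMod.lift m ⟨zmultiplesHom (Additive A) (Additive.ofMul (u s)), h0 s⟩), ?_⟩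
  intro s
  rw [AddMonoidHom.coe_toMultiplicativeLeft]
  change Additive.toMul (Finsupp.liftAddHom _ (Finsupp.single s 1)) = _
  rw [Finsupp.liftAddHom_apply_single]
  have h1 : (1 : ZMod m) = ((1 : ℤ) : ZMod m) := by simp
  rw [h1, ZMod.lift_coe]
  simp

end AutB

theorem autB (hA : AutAStmt) : AutBStmt := by
  intro m Γ _ hm a
  obtain ⟨hw1, hw2, hw3, hs⟩ := hA m Γ hm
  have hw0 : om m ≠ 0 := by
    intro h
    rw [h, zero_pow (by omega)] at hw1
    exact zero_ne_one hw1
  have hM : ∀ s, mk m a s * mk m a s = mk m a s := by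
    intro s
    obtain ⟨-, h0, -⟩ := hs (s * a)
    obtain ⟨-, -, h1, -⟩ := hs (s * a⁻¹)
    obtain ⟨-, -, h2, -⟩ := hs (s * a * a)
    unfold mk
    calc _ = (e0 m (s * a) * e0 m (s * a)) * (e1 m (s * a⁻¹) * e1 m (s * a⁻¹)) *
          (e1 m (s * a * a) * e1 m (s * a * a)) := by ring
      _ = _ := by rw [h0, h1, h2]
  have hMs : ∀ s, star (mk m a s) = mk m a s := by
    intro s
    obtain ⟨-, -, -, -, h0, -⟩ := hs (s * a)
    obtain ⟨-, -, -, -, -, h1, -⟩ := hs (s * a⁻¹)
    obtain ⟨-, -, -, -, -, h2, -⟩ := hs (s * a * a)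
    unfold mk
    rw [AutB.star_mul_ck, AutB.star_mul_ck, h0, h1, h2]
  have hu : ∀ s, um m a s = single (gen m s) 1 +
      (algebraMap ℂ (CK m Γ) (om m) - 1) * ((e0 m s - e1 m s) * mk m a s) := by
    intro s
    unfold um
    rw [Algebra.smul_def, map_sub, map_one]
  have hpow : ∀ s, um m a s ^ m = 1 := by
    intro s
    obtain ⟨hg, h00, h11, h01, hs0, hs1, hc0, hc1⟩ := hs s
    rw [hu, AutB.pow_aux _ _ _ _ _ h00 h11 h01 (hM s) hc0 (by rw [hc1, Algebra.smul_def]) m,
      ← map_pow, hw1, map_one, sub_self, zero_mul, add_zero, single_pow, one_pow, hg, one_def]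
  have hstar : ∀ s, star (um m a s) = single (gen m s)⁻¹ 1 +
      (algebraMap ℂ (CK m Γ) (om m)⁻¹ - 1) * ((e0 m s - e1 m s) * mk m a s) := by
    intro s
    obtain ⟨hg, h00, h11, h01, hs0, hs1, hc0, hc1⟩ := hs s
    unfold um
    rw [AutB.star_add_ck, AutB.star_smul_ck, AutB.star_mul_ck, AutB.star_sub_ck, hMs, hs0, hs1,
      star_single_ma, star_one, star_sub, star_one, Algebra.smul_def, map_sub, map_one]
    congr 4
  have hinv : ∀ s, star (um m a s) * um m a s = 1 := by
    intro s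
    obtain ⟨hg, h00, h11, h01, hs0, hs1, hc0, hc1⟩ := hs s
    rw [hstar, hu]
    refine AutB.star_aux _ _ _ _ _ _ _ h00 h11 h01 (hM s) hc0 (by rw [hc1, Algebra.smul_def])
      ?_ ?_
    · rw [single_mul_single, inv_mul_cancel, one_mul, one_def]
    · rw [← map_mul, inv_mul_cancel₀ hw0, map_one]
  have hmem : ∀ s, um m a s ∈ unitary (CK m Γ) := fun s =>
    Unitary.mem_iff.2 ⟨hinv s, by rw [mul_comm]; exact hinv s⟩
  obtain ⟨F, hF⟩ := AutB.exists_hom m Γ (fun s => (⟨um m a s, hmem s⟩ : unitary (CK m Γ)))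
    (fun s => Subtype.ext (hpow s))
  let F' : K m Γ →* CK m Γ := (unitary (CK m Γ)).subtype.comp F
  have hF' : ∀ k, star (F' k) = F' k⁻¹ := by
    intro k
    change star (F k : CK m Γ) = (F k⁻¹ : CK m Γ)
    rw [map_inv]
    rfl
  refine ⟨{ toAlgHom := lift ℂ (CK m Γ) (K m Γ) F', map_star' := ?_ }, ?_⟩
  · intro b
    change lift ℂ (CK m Γ) (K m Γ) F' (star b) = star (lift ℂ (CK m Γ) (K m Γ) F' b)
    induction b using MonoidAlgebra.induction_linear with
    | zero => rw [AutB.star_zero_ck, map_zero, AutB.star_zero_ck]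
    | add x y hx hy =>
      rw [AutB.star_add_ck, map_add, map_add, AutB.star_add_ck, hx, hy]
    | single f c =>
      rw [star_single_ma, lift_single, lift_single, AutB.star_smul_ck, hF']
  · intro s
    change lift ℂ (CK m Γ) (K m Γ) F' (single (gen m s) 1) = _
    rw [lift_single, one_smul]
    change (F (gen m s) : CK m Γ) = _
    rw [hF]

end

end MP8a6869.WR
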