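import Pool.Agent.Work.MP_8a6869_an.WR.Stmts

/-!
# MP_8a6869_an, wreath products: the marker endomorphism is an involution
-/

namespace MP8a6869.WR.AutC

open MonoidAlgebra

noncomputable section

variable {m : ℕ} {Γ : Type}

/-- The generator at `s` in the group ring. -/
def cg (m : ℕ) {Γ : Type} (s : Γ) : CK m Γ := single (gen m s) 1

theorem single_pow_gen (s : Γ) (i : ℕ) (r : ℂ) :
    (single (gen m s ^ i) r : CK m Γ) = r • (cg m s) ^ i := by
  rw [cg, single_pow, one_pow, smul_single, smul_eq_mul, mul_one]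

theorem e0_eq (s : Γ) : e0 m s = (m : ℂ)⁻¹ • ∑ i ∈ Finset.range m, (cg m s) ^ i := by
  rw [e0, Finset.smul_sum]
  exact Finset.sum_congr rfl fun i _ => single_pow_gen s i _

theorem e1_eq (s : Γ) :
    e1 m s = (m : ℂ)⁻¹ • ∑ i ∈ Finset.range m, ((om m)⁻¹ ^ i) • (cg m s) ^ i := by
  rw [e1, Finset.smul_sum]
  refine Finset.sum_congr rfl fun i _ => ?_
  rw [single_pow_gen, smul_smul]

theorem sum_om (w : ℂ) (h1 : w ^ m = 1) (h2 : w ≠ 1) :
    ∑ i ∈ Finset.range m, w ^ i = 0 := by
  rw [geom_sum_eq h2, h1, sub_self, zero_div]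

/-- Abstract powers. -/
theorem pow_aux {R : Type} [CommRing R] [Algebra ℂ R] (c f0 f1 M : R) (w : ℂ)
    (h00 : f0 * f0 = f0) (h11 : f1 * f1 = f1) (h01 : f0 * f1 = 0) (hM : M * M = M)
    (hc0 : c * f0 = f0) (hc1 : c * f1 = w • f1) (i : ℕ) :
    (c + (w - 1) • ((f0 - f1) * M)) ^ i = c ^ i + (w ^ i - 1) • ((f0 - f1) * M) := by
  have hci : ∀ i : ℕ, c ^ i * ((f0 - f1) * M) = (f0 - (w ^ i) • f1) * M := by
    intro i
    induction i with
    | zero => simp
    | succ i ih =>
      rw [pow_succ', mul_assoc, ih]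
      have : c * ((f0 - w ^ i • f1) * M) = (c * f0 - w ^ i • (c * f1)) * M := by
        simp only [Algebra.smul_def]; ring
      rw [this, hc0, hc1, smul_smul, pow_succ]
  have hN : ((f0 - f1) * M) * ((f0 - f1) * M) = (f0 + f1) * M := by
    have : ((f0 - f1) * M) * ((f0 - f1) * M) =
        (f0 * f0 - 2 * (f0 * f1) + f1 * f1) * (M * M) := by ring
    rw [this, h00, h11, h01, hM]; ring
  induction i with
  | zero => simp
  | succ i ih =>
    rw [pow_succ, ih]
    have h1 : (c ^ i + (w ^ i - 1) • ((f0 - f1) * M)) * (c + (w - 1) • ((f0 - f1) * M)) =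
        c ^ (i + 1) + (w - 1) • (c ^ i * ((f0 - f1) * M)) +
        (w ^ i - 1) • (c ^ 1 * ((f0 - f1) * M)) +
        ((w ^ i - 1) * (w - 1)) • (((f0 - f1) * M) * ((f0 - f1) * M)) := by
      simp only [Algebra.smul_def, map_mul]; ring
    rw [h1, hci i, hci 1, hN]
    simp only [Algebra.smul_def, map_sub, map_mul, map_pow, map_one]
    ring

end

end MP8a6869.WR.AutC

namespace MP8a6869.WR

open MonoidAlgebra AutC

theorem autC (hA : AutAStmt) : AutCStmt := by
  intro m Γ _ hm a β hβ
  obtain ⟨hw, hw1, _, hs⟩ := hA m Γ hm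
  have hm0 : (m : ℂ) ≠ 0 := by
    have : m ≠ 0 := by omega
    exact_mod_cast this
  have hw0 : om m ≠ 0 := by
    intro h
    rw [h, zero_pow (by omega)] at hw
    exact zero_ne_one hw
  have hwi : (om m)⁻¹ ^ m = 1 := by rw [inv_pow, hw, inv_one]
  have hwi1 : (om m)⁻¹ ≠ 1 := fun h => hw1 (inv_eq_one.1 h)
  have e00 : ∀ s : Γ, e0 m s * e0 m s = e0 m s := fun s => (hs s).2.1
  have e11 : ∀ s : Γ, e1 m s * e1 m s = e1 m s := fun s => (hs s).2.2.1
  have e01 : ∀ s : Γ, e0 m s * e1 m s = 0 := fun s => (hs s).2.2.2.1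
  have c0 : ∀ s : Γ, cg m s * e0 m s = e0 m s := fun s => (hs s).2.2.2.2.2.2.1
  have c1 : ∀ s : Γ, cg m s * e1 m s = om m • e1 m s := fun s => (hs s).2.2.2.2.2.2.2
  have hM : ∀ s : Γ, mk m a s * mk m a s = mk m a s := by
    intro s
    have : mk m a s * mk m a s = (e0 m (s * a) * e0 m (s * a)) *
        (e1 m (s * a⁻¹) * e1 m (s * a⁻¹)) * (e1 m (s * a * a) * e1 m (s * a * a)) := by
      simp only [mk]; ring
    rw [this, e00, e11, e11]; rfl
  have hβc : ∀ s : Γ, β (cg m s) = um m a s := hβ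
  have hpow : ∀ (s : Γ) (i : ℕ), (um m a s) ^ i =
      (cg m s) ^ i + ((om m) ^ i - 1) • ((e0 m s - e1 m s) * mk m a s) := by
    intro s i
    exact pow_aux (cg m s) (e0 m s) (e1 m s) (mk m a s) (om m) (e00 s) (e11 s) (e01 s) (hM s)
      (c0 s) (c1 s) i
  have hβ0 : ∀ s : Γ, β (e0 m s) = e0 m s - (e0 m s - e1 m s) * mk m a s := by
    intro s
    have h1 : β (e0 m s) = (m : ℂ)⁻¹ • ∑ i ∈ Finset.range m, (um m a s) ^ i := by
      rw [e0_eq, map_smul, map_sum]
      congr 1
      exact Finset.sum_congr rfl fun i _ => by rw [map_pow, hβc]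
    rw [h1]
    have h2 : ∑ i ∈ Finset.range m, (um m a s) ^ i = (∑ i ∈ Finset.range m, (cg m s) ^ i) +
        ((∑ i ∈ Finset.range m, (om m) ^ i) - m) • ((e0 m s - e1 m s) * mk m a s) := by
      rw [Finset.sum_congr rfl fun i _ => hpow s i, Finset.sum_add_distrib, ← Finset.sum_smul]
      congr 2
      simp
    rw [h2, sum_om _ hw hw1, smul_add, ← e0_eq, smul_smul, zero_sub, mul_neg,
      inv_mul_cancel₀ hm0, neg_smul, one_smul]
    ring
  have hβ1 : ∀ s : Γ, β (e1 m s) = e1 m s + (e0 m s - e1 m s) * mk m a s := by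
    intro s
    have h1 : β (e1 m s) = (m : ℂ)⁻¹ • ∑ i ∈ Finset.range m, ((om m)⁻¹ ^ i) • (um m a s) ^ i := by
      rw [e1_eq, map_smul, map_sum]
      congr 1
      exact Finset.sum_congr rfl fun i _ => by rw [map_smul, map_pow, hβc]
    rw [h1]
    have h2 : ∑ i ∈ Finset.range m, ((om m)⁻¹ ^ i) • (um m a s) ^ i =
        (∑ i ∈ Finset.range m, ((om m)⁻¹ ^ i) • (cg m s) ^ i) +
        ((m : ℂ) - ∑ i ∈ Finset.range m, (om m)⁻¹ ^ i) • ((e0 m s - e1 m s) * mk m a s) := by
      have h3 : ∀ i ∈ Finset.range m, ((om m)⁻¹ ^ i) • (um m a s) ^ i =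
          ((om m)⁻¹ ^ i) • (cg m s) ^ i +
            (1 - (om m)⁻¹ ^ i) • ((e0 m s - e1 m s) * mk m a s) := by
        intro i _
        rw [hpow, smul_add, smul_smul]
        congr 2
        rw [mul_sub, mul_one, inv_pow, inv_mul_cancel₀ (pow_ne_zero _ hw0)]
      rw [Finset.sum_congr rfl h3, Finset.sum_add_distrib, ← Finset.sum_smul]
      congr 2
      simp
    rw [h2, sum_om _ hwi hwi1, smul_add, ← e1_eq, smul_smul, sub_zero,
      inv_mul_cancel₀ hm0, one_smul]
  have hβM : ∀ s : Γ, β (mk m a s) = mk m a s := by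
    intro s
    have h1 : β (mk m a s) = (e0 m (s * a) - (e0 m (s * a) - e1 m (s * a)) * mk m a (s * a)) *
        (e1 m (s * a⁻¹) + (e0 m (s * a⁻¹) - e1 m (s * a⁻¹)) * mk m a (s * a⁻¹)) *
        (e1 m (s * a * a) + (e0 m (s * a * a) - e1 m (s * a * a)) * mk m a (s * a * a)) := by
      conv_lhs => rw [mk]
      rw [map_mul, map_mul, hβ0, hβ1, hβ1]
    have k1 : mk m a (s * a) * e1 m (s * a * a) = 0 := by
      have : mk m a (s * a) * e1 m (s * a * a) = (e0 m (s * a * a) * e1 m (s * a * a)) *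
          (e1 m (s * a * a⁻¹) * e1 m (s * a * a * a)) := by simp only [mk]; ring
      rw [this, e01, zero_mul]
    have k2 : mk m a (s * a) * mk m a (s * a * a) = 0 := by
      have : mk m a (s * a) * mk m a (s * a * a) = (e0 m (s * a * a * a) * e1 m (s * a * a * a)) *
          (e0 m (s * a * a) * e1 m (s * a * a⁻¹) * e1 m (s * a * a * a⁻¹) *
            e1 m (s * a * a * a * a)) := by simp only [mk]; ring
      rw [this, e01, zero_mul]
    have k3 : e0 m (s * a) * mk m a (s * a⁻¹) = 0 := by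
      have h2 : s * a⁻¹ * a * a = s * a := by group
      have : e0 m (s * a) * mk m a (s * a⁻¹) = (e0 m (s * a) * e1 m (s * a⁻¹ * a * a)) *
          (e0 m (s * a⁻¹ * a) * e1 m (s * a⁻¹ * a⁻¹)) := by simp only [mk]; ring
      rw [this, h2, e01, zero_mul]
    have k4 : e0 m (s * a) * mk m a (s * a * a) = 0 := by
      have h2 : s * a * a * a⁻¹ = s * a := by group
      have : e0 m (s * a) * mk m a (s * a * a) = (e0 m (s * a) * e1 m (s * a * a * a⁻¹)) *
          (e0 m (s * a * a * a) * e1 m (s * a * a * a * a)) := by simp only [mk]; ring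
      rw [this, h2, e01, zero_mul]
    rw [h1]
    have h3 : mk m a s = e0 m (s * a) * e1 m (s * a⁻¹) * e1 m (s * a * a) := rfl
    rw [h3]
    generalize mk m a (s * a) = A at *
    generalize mk m a (s * a⁻¹) = B at *
    generalize mk m a (s * a * a) = C at *
    generalize e0 m (s * a) = x at *
    generalize e1 m (s * a) = x' at *
    generalize e0 m (s * a⁻¹) = y at *
    generalize e1 m (s * a⁻¹) = y' at *
    generalize e0 m (s * a * a) = z at *
    generalize e1 m (s * a * a) = z' at *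
    have h4 : (x - (x - x') * A) * (y' + (y - y') * B) * (z' + (z - z') * C) =
        x * y' * z' + (x * B) * ((y - y') * (z' + (z - z') * C)) + (x * C) * (y' * (z - z')) -
          (A * z') * ((x - x') * (y' + (y - y') * B)) -
          (A * C) * ((x - x') * (y' + (y - y') * B) * (z - z')) := by ring
    rw [h4, k1, k2, k3, k4]
    ring
  have hβu : ∀ s : Γ, β (β (cg m s)) = cg m s := by
    intro s
    rw [hβc]
    have h1 : β (um m a s) = um m a s + (om m - 1) •
        ((e0 m s - (e0 m s - e1 m s) * mk m a s - (e1 m s + (e0 m s - e1 m s) * mk m a s)) *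
          mk m a s) := by
      conv_lhs => rw [um]
      rw [map_add, map_smul, map_mul, map_sub, hβ0, hβ1, hβM]
      congr 1
      exact hβc s
    rw [h1]
    have h2 : (e0 m s - (e0 m s - e1 m s) * mk m a s - (e1 m s + (e0 m s - e1 m s) * mk m a s)) *
          mk m a s = (e0 m s - e1 m s) * mk m a s -
            2 * ((e0 m s - e1 m s) * (mk m a s * mk m a s)) := by ring
    rw [h2, hM]
    have h3 : um m a s = cg m s + (om m - 1) • ((e0 m s - e1 m s) * mk m a s) := rfl
    rw [h3]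
    simp only [Algebra.smul_def]
    ring
  have hgen : ∀ k : K m Γ, β (β (single k 1)) = single k 1 := by
    have hne : NeZero m := ⟨by omega⟩
    let F : K m Γ →* CK m Γ :=
      ((β : CK m Γ →* CK m Γ).comp (β : CK m Γ →* CK m Γ)).comp (MonoidAlgebra.of ℂ (K m Γ))
    have hF : ∀ k, F k = β (β (single k 1)) := fun k => rfl
    have hgs : ∀ s : Γ, F (gen m s) = MonoidAlgebra.of ℂ (K m Γ) (gen m s) := hβu
    have key : ∀ f : Γ →₀ ZMod m, F (Multiplicative.ofAdd f) =
        MonoidAlgebra.of ℂ (K m Γ) (Multiplicative.ofAdd f) := by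
      intro f
      induction f using Finsupp.induction_linear with
      | zero => rw [ofAdd_zero, map_one, map_one]
      | add f g hf hg => rw [ofAdd_add, map_mul, map_mul, hf, hg]
      | single s n =>
        have h1 : Multiplicative.ofAdd (Finsupp.single s n : Γ →₀ ZMod m) = gen m s ^ n.val := by
          rw [gen, ← ofAdd_nsmul, Finsupp.smul_single, nsmul_eq_mul, mul_one,
            ZMod.natCast_zmod_val]
        rw [h1, map_pow, map_pow, hgs]
    intro k
    rw [← hF]
    exact key k.toAdd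
  intro x
  have h : (β.toAlgHom.comp β.toAlgHom) = AlgHom.id ℂ (CK m Γ) := by
    apply MonoidAlgebra.algHom_ext
    · intro k
      exact hgen k
    · exact Subsingleton.elim _ _
  exact DFunLike.congr_fun h x

end MP8a6869.WR
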