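import Pool.Agent.Work.MP_8a6869_an.WR.Stmts

/-!
# MP_8a6869_an, wreath products: item AutD (`β` preserves the trace)
-/

namespace MP8a6869.WR

open MonoidAlgebra

noncomputable section

namespace AutD

variable {m : ℕ} {Γ : Type}

/-- The generator at the site `s` in the group ring. -/
abbrev C (m : ℕ) {Γ : Type} (s : Γ) : CK m Γ := single (gen m s) 1

/-- The part of `k` away from the site `t`. -/
def er (t : Γ) (k : K m Γ) : K m Γ := Multiplicative.ofAdd (k.toAdd.erase t)

theorem er_one (t : Γ) : er t (1 : K m Γ) = 1 := by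
  apply Multiplicative.toAdd.injective
  simp [er]

theorem er_mul (t : Γ) (k l : K m Γ) : er t (k * l) = er t k * er t l := by
  apply Multiplicative.toAdd.injective
  simp [er, Finsupp.erase_add]

theorem er_apply_self (t : Γ) (k : K m Γ) : (er t k).toAdd t = 0 := by
  simp [er]

theorem er_eq_self (t : Γ) (k : K m Γ) (h : k.toAdd t = 0) : er t k = k := by
  apply Multiplicative.toAdd.injective
  ext s
  by_cases hs : s = t
  · subst hs
    simp [er, h]
  · simp [er, hs]

theorem er_mul_gen [NeZero m] (t : Γ) (k : K m Γ) :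
    er t k * gen m t ^ (k.toAdd t).val = k := by
  apply Multiplicative.toAdd.injective
  simp only [er, gen, toAdd_mul, toAdd_ofAdd, toAdd_pow]
  ext s
  by_cases hs : s = t
  · subst hs
    simp
  · simp [hs]

theorem single_decomp [NeZero m] (t : Γ) (k : K m Γ) :
    (single (er t k) 1 : CK m Γ) * C m t ^ (k.toAdd t).val = single k 1 := by
  rw [C, single_pow, single_mul_single, er_mul_gen]
  simp

theorem pow_val_add [NeZero m] (V : CK m Γ) (hV : V ^ m = 1) (x y : ZMod m) :
    V ^ (x + y).val = V ^ x.val * V ^ y.val := by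
  rw [← pow_add, pow_eq_pow_mod (x.val + y.val) hV, ZMod.val_add]

/-- The monoid homomorphism which sends `c_t` to `V` and fixes the other `c_s`. -/
def phi [NeZero m] (t : Γ) (V : CK m Γ) (hV : V ^ m = 1) : K m Γ →* CK m Γ where
  toFun k := single (er t k) 1 * V ^ (k.toAdd t).val
  map_one' := by
    rw [er_one]
    simp [one_def]
  map_mul' k l := by
    rw [er_mul, toAdd_mul, Finsupp.add_apply, pow_val_add V hV]
    have : (single (er t k * er t l) 1 : CK m Γ) = single (er t k) 1 * single (er t l) 1 := by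
      rw [single_mul_single]
      simp
    rw [this]
    ring

/-- The algebra homomorphism which sends `c_t` to `V` and fixes the other `c_s`. -/
def Phi [NeZero m] (t : Γ) (V : CK m Γ) (hV : V ^ m = 1) : CK m Γ →ₐ[ℂ] CK m Γ :=
  lift ℂ (CK m Γ) (K m Γ) (phi t V hV)

theorem Phi_single [NeZero m] (t : Γ) (V : CK m Γ) (hV : V ^ m = 1) (k : K m Γ) :
    Phi t V hV (single k 1) = single (er t k) 1 * V ^ (k.toAdd t).val := by
  rw [Phi, lift_single, one_smul]
  rfl

theorem Phi_fix [NeZero m] (t : Γ) (V : CK m Γ) (hV : V ^ m = 1) (k : K m Γ)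
    (h : k.toAdd t = 0) : Phi t V hV (single k 1) = single k 1 := by
  rw [Phi_single, er_eq_self t k h, h]
  simp

theorem Phi_C_ne [NeZero m] (t : Γ) (V : CK m Γ) (hV : V ^ m = 1) (s : Γ) (h : s ≠ t) :
    Phi t V hV (C m s) = C m s := by
  apply Phi_fix
  simp [gen, h]

theorem Phi_C_self (hm : 2 ≤ m) [NeZero m] (t : Γ) (V : CK m Γ) (hV : V ^ m = 1) :
    Phi t V hV (C m t) = V := by
  have : Fact (1 < m) := ⟨hm⟩
  have h1 : (gen m t).toAdd t = 1 := by simp [gen]
  have h2 : er t (gen m t) = 1 := by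
    apply Multiplicative.toAdd.injective
    simp [er, gen]
  rw [Phi_single, h1, h2, ZMod.val_one, pow_one, ← one_def, one_mul]

theorem single_gen_pow (s : Γ) (i : ℕ) (r : ℂ) :
    (single (gen m s ^ i) r : CK m Γ) = r • C m s ^ i := by
  rw [C, single_pow, smul_single]
  simp

theorem map_e0 (F : CK m Γ →ₐ[ℂ] CK m Γ) (s : Γ) :
    F (e0 m s) = ∑ i ∈ Finset.range m, (m : ℂ)⁻¹ • F (C m s) ^ i := by
  rw [e0, map_sum]
  refine Finset.sum_congr rfl fun i _ => ?_
  rw [single_gen_pow, map_smul, map_pow]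

theorem map_e1 (F : CK m Γ →ₐ[ℂ] CK m Γ) (s : Γ) :
    F (e1 m s) = ∑ i ∈ Finset.range m, ((m : ℂ)⁻¹ * (om m)⁻¹ ^ i) • F (C m s) ^ i := by
  rw [e1, map_sum]
  refine Finset.sum_congr rfl fun i _ => ?_
  rw [single_gen_pow, map_smul, map_pow]

theorem e0_eq (s : Γ) : e0 m s = ∑ i ∈ Finset.range m, (m : ℂ)⁻¹ • C m s ^ i :=
  map_e0 (AlgHom.id ℂ _) s

theorem e1_eq (s : Γ) :
    e1 m s = ∑ i ∈ Finset.range m, ((m : ℂ)⁻¹ * (om m)⁻¹ ^ i) • C m s ^ i :=
  map_e1 (AlgHom.id ℂ _) s

theorem fix_e0 (F : CK m Γ →ₐ[ℂ] CK m Γ) (s : Γ) (h : F (C m s) = C m s) :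
    F (e0 m s) = e0 m s := by
  rw [map_e0, h, ← e0_eq]

theorem fix_e1 (F : CK m Γ →ₐ[ℂ] CK m Γ) (s : Γ) (h : F (C m s) = C m s) :
    F (e1 m s) = e1 m s := by
  rw [map_e1, h, ← e1_eq]

section

variable (hA : AutAStmt) (hm : 2 ≤ m)

include hA hm

theorem om_pow : om m ^ m = 1 := (hA m Unit hm).1

theorem om_ne : om m ≠ 1 := (hA m Unit hm).2.1

theorem C_pow (s : Γ) : C m s ^ m = 1 := by
  rw [C, single_pow, ((hA m Γ hm).2.2.2 s).1]
  simp [one_def]

theorem e0_idem (s : Γ) : e0 m s * e0 m s = e0 m s := ((hA m Γ hm).2.2.2 s).2.1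

theorem e1_idem (s : Γ) : e1 m s * e1 m s = e1 m s := ((hA m Γ hm).2.2.2 s).2.2.1

theorem e0_e1 (s : Γ) : e0 m s * e1 m s = 0 := ((hA m Γ hm).2.2.2 s).2.2.2.1

theorem C_e0 (s : Γ) : C m s * e0 m s = e0 m s := ((hA m Γ hm).2.2.2 s).2.2.2.2.2.2.1

theorem C_e1 (s : Γ) : C m s * e1 m s = om m • e1 m s := ((hA m Γ hm).2.2.2 s).2.2.2.2.2.2.2

theorem C_pow_e0 (s : Γ) (i : ℕ) : C m s ^ i * e0 m s = e0 m s := by
  induction i with
  | zero => simp
  | succ i ih => rw [pow_succ, mul_assoc, C_e0 hA hm, ih]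

theorem C_pow_e1 (s : Γ) (i : ℕ) : C m s ^ i * e1 m s = om m ^ i • e1 m s := by
  induction i with
  | zero => simp
  | succ i ih => rw [pow_succ, mul_assoc, C_e1 hA hm, mul_smul_comm, ih, smul_smul]; congr 1; ring

theorem sum_om : ∑ i ∈ Finset.range m, om m ^ i = 0 := by
  have h := geom_sum_mul (om m) m
  rw [om_pow hA hm, sub_self] at h
  rcases mul_eq_zero.1 h with h | h
  · exact h
  · exact absurd (sub_eq_zero.1 h) (om_ne hA hm)

theorem sum_om_inv : ∑ i ∈ Finset.range m, (om m)⁻¹ ^ i = 0 := by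
  have h := geom_sum_mul (om m)⁻¹ m
  rw [inv_pow, om_pow hA hm, inv_one, sub_self] at h
  rcases mul_eq_zero.1 h with h | h
  · exact h
  · exact absurd (inv_eq_one.1 (sub_eq_zero.1 h)) (om_ne hA hm)

theorem mk_idem [Group Γ] (a s : Γ) : mk m a s * mk m a s = mk m a s := by
  have h1 := e0_idem hA hm (s * a)
  have h2 := e1_idem hA hm (s * a⁻¹)
  have h3 := e1_idem hA hm (s * a * a)
  unfold mk
  calc _ = (e0 m (s * a) * e0 m (s * a)) * (e1 m (s * a⁻¹) * e1 m (s * a⁻¹)) *
        (e1 m (s * a * a) * e1 m (s * a * a)) := by ring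
    _ = _ := by rw [h1, h2, h3]

theorem um_pow [Group Γ] (a s : Γ) (i : ℕ) :
    um m a s ^ i = C m s ^ i + (om m ^ i - 1) • ((e0 m s - e1 m s) * mk m a s) := by
  induction i with
  | zero => simp
  | succ i ih =>
    have h1 := C_pow_e0 hA hm s i
    have h2 := C_pow_e1 hA hm s i
    have h3 := C_e0 hA hm s
    have h4 := C_e1 hA hm s
    have h5 := e0_idem hA hm s
    have h6 := e1_idem hA hm s
    have h7 := e0_e1 hA hm s
    have h8 := mk_idem hA hm a s
    rw [pow_succ, ih, um]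
    simp only [Algebra.smul_def] at h2 h4 ⊢
    simp only [map_sub, map_pow, map_one] at h2 ⊢
    set w : CK m Γ := algebraMap ℂ (CK m Γ) (om m) with hw
    set c : CK m Γ := C m s with hc
    set M : CK m Γ := mk m a s with hM
    set p : CK m Γ := e0 m s with hp
    set q : CK m Γ := e1 m s with hq
    change (c ^ i + (w ^ i - 1) * ((p - q) * M)) * (c + (w - 1) * ((p - q) * M)) =
      c ^ (i + 1) + (w ^ (i + 1) - 1) * ((p - q) * M)
    linear_combination (exp := 1) ((w - 1) * M) * h1 - ((w - 1) * M) * h2 + ((w ^ i - 1) * M) * h3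
      - ((w ^ i - 1) * M) * h4 + ((w ^ i - 1) * (w - 1) * M ^ 2) * (h5 + h6 - 2 * h7)
      + ((w ^ i - 1) * (w - 1) * (p + q)) * h8

theorem um_pow_m [Group Γ] (a s : Γ) : um m a s ^ m = 1 := by
  rw [um_pow hA hm, C_pow hA hm, om_pow hA hm]
  simp

/-- `β_t(e0 t)`. -/
theorem map_e0_self [Group Γ] (F : CK m Γ →ₐ[ℂ] CK m Γ) (a t : Γ) (h : F (C m t) = um m a t) :
    F (e0 m t) = e0 m t - (e0 m t - e1 m t) * mk m a t := by
  have hm0 : (m : ℂ) ≠ 0 := by
    have : m ≠ 0 := by omega
    exact_mod_cast this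
  rw [map_e0, h]
  simp_rw [um_pow hA hm, smul_add, smul_smul]
  rw [Finset.sum_add_distrib, ← e0_eq, ← Finset.sum_smul]
  have : ∑ i ∈ Finset.range m, (m : ℂ)⁻¹ * (om m ^ i - 1) = -1 := by
    rw [← Finset.mul_sum, Finset.sum_sub_distrib, sum_om hA hm]
    simp [hm0]
  rw [this, neg_one_smul]
  ring

/-- `β_t(e1 t)`. -/
theorem map_e1_self [Group Γ] (F : CK m Γ →ₐ[ℂ] CK m Γ) (a t : Γ) (h : F (C m t) = um m a t) :
    F (e1 m t) = e1 m t + (e0 m t - e1 m t) * mk m a t := by
  have hm0 : (m : ℂ) ≠ 0 := by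
    have : m ≠ 0 := by omega
    exact_mod_cast this
  have hom0 : om m ≠ 0 := Complex.exp_ne_zero _
  rw [map_e1, h]
  simp_rw [um_pow hA hm, smul_add, smul_smul]
  rw [Finset.sum_add_distrib, ← e1_eq, ← Finset.sum_smul]
  have : ∑ i ∈ Finset.range m, (m : ℂ)⁻¹ * (om m)⁻¹ ^ i * (om m ^ i - 1) = 1 := by
    have h1 : ∀ i ∈ Finset.range m, (m : ℂ)⁻¹ * (om m)⁻¹ ^ i * (om m ^ i - 1) =
        (m : ℂ)⁻¹ - (m : ℂ)⁻¹ * (om m)⁻¹ ^ i := by
      intro i _
      have h2 : (om m)⁻¹ ^ i * om m ^ i = 1 := by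
        rw [← mul_pow, inv_mul_cancel₀ hom0, one_pow]
      linear_combination (m : ℂ)⁻¹ * h2
    rw [Finset.sum_congr rfl h1, Finset.sum_sub_distrib, ← Finset.mul_sum,
      sum_om_inv hA hm]
    simp [hm0]
  rw [this, one_smul]

omit hA hm in
/-- The rotation at the site `t` preserves the trace. -/
theorem tr_alpha [NeZero m] (t : Γ) (hV : (om m • C m t) ^ m = 1) (x : CK m Γ) :
    (Phi t (om m • C m t) hV x).coeff 1 = x.coeff 1 := by
  induction x using MonoidAlgebra.induction_linear with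
  | zero => simp
  | add x y hx hy => rw [map_add, coeff_add, coeff_add, Finsupp.add_apply, Finsupp.add_apply, hx, hy]
  | single k r =>
    have h0 : (single k r : CK m Γ) = r • single k 1 := by simp [smul_single]
    rw [h0, map_smul, Phi_single, smul_pow, mul_smul_comm, single_decomp]
    by_cases hk : k = 1
    · subst hk
      simp
    · simp [hk]

theorem alpha_pow (t : Γ) : (om m • C m t) ^ m = 1 := by
  rw [smul_pow, om_pow hA hm, C_pow hA hm, one_smul]

theorem alpha_e1 [NeZero m] (t : Γ) :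
    Phi t (om m • C m t) (alpha_pow hA hm t) (e1 m t) = e0 m t := by
  have hom0 : om m ≠ 0 := Complex.exp_ne_zero _
  rw [map_e1, Phi_C_self hm, e0_eq]
  refine Finset.sum_congr rfl fun i _ => ?_
  rw [smul_pow, smul_smul, mul_assoc, ← mul_pow, inv_mul_cancel₀ hom0, one_pow, mul_one]

theorem tr_D_mul [NeZero m] (t : Γ) (y : CK m Γ)
    (hy : Phi t (om m • C m t) (alpha_pow hA hm t) y = y) :
    ((e0 m t - e1 m t) * y).coeff 1 = 0 := by
  have h := tr_alpha t (alpha_pow hA hm t) (e1 m t * y)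
  rw [map_mul, alpha_e1 hA hm, hy] at h
  rw [sub_mul, coeff_sub, Finsupp.sub_apply, h, sub_self]

omit hA hm in
theorem Phi_mk_self [Group Γ] [NeZero m] (a t : Γ) (ha : a * a ≠ 1) (V : CK m Γ)
    (hV : V ^ m = 1) : Phi t V hV (mk m a t) = mk m a t := by
  have h1 : t * a ≠ t := fun h => ha (by rw [mul_eq_left.1 h, one_mul])
  have h2 : t * a⁻¹ ≠ t := fun h => ha (by rw [inv_eq_one.1 (mul_eq_left.1 h), one_mul])
  have h3 : t * a * a ≠ t := fun h => ha (mul_eq_left.1 (by rw [← mul_assoc]; exact h))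
  unfold mk
  rw [map_mul, map_mul, fix_e0 _ _ (Phi_C_ne t V hV _ h1), fix_e1 _ _ (Phi_C_ne t V hV _ h2),
    fix_e1 _ _ (Phi_C_ne t V hV _ h3)]

/-- `β_t` preserves the trace. -/
theorem tr_beta_t [Group Γ] [NeZero m] (a t : Γ) (ha : a * a ≠ 1) (x : CK m Γ) :
    (Phi t (um m a t) (um_pow_m hA hm a t) x).coeff 1 = x.coeff 1 := by
  induction x using MonoidAlgebra.induction_linear with
  | zero => simp
  | add x y hx hy => rw [map_add, coeff_add, coeff_add, Finsupp.add_apply, Finsupp.add_apply, hx, hy]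
  | single k r =>
    have h0 : (single k r : CK m Γ) = r • single k 1 := by simp [smul_single]
    rw [h0, map_smul, Phi_single, um_pow hA hm, mul_add, single_decomp, mul_smul_comm]
    have h1 : (single (er t k) 1 : CK m Γ) * ((e0 m t - e1 m t) * mk m a t) =
        (e0 m t - e1 m t) * (single (er t k) 1 * mk m a t) := by ring
    have h2 : (((e0 m t - e1 m t) * (single (er t k) 1 * mk m a t) : CK m Γ)).coeff 1 = 0 := by
      apply tr_D_mul hA hm
      rw [map_mul, Phi_fix _ _ _ _ (er_apply_self t k), Phi_mk_self a t ha]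
    rw [h1, coeff_smul_apply, coeff_add, Finsupp.add_apply, coeff_smul_apply, h2, coeff_smul_apply]
    simp

/-- `β_t` fixes all markers. -/
theorem beta_mk [Group Γ] [NeZero m] (a s t : Γ) (ha : a * a ≠ 1) :
    Phi t (um m a t) (um_pow_m hA hm a t) (mk m a s) = mk m a s := by
  set F := Phi t (um m a t) (um_pow_m hA hm a t) with hF
  have hself : F (C m t) = um m a t := Phi_C_self hm t _ _
  have hne : ∀ s, s ≠ t → F (C m s) = C m s := fun s h => Phi_C_ne t _ _ s h
  have hpq : s * a ≠ s * a⁻¹ := fun h => ha (by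
    have := mul_left_cancel h
    nth_rw 2 [this]
    exact mul_inv_cancel a)
  have ha1 : a ≠ 1 := fun h => ha (by rw [h, one_mul])
  have hpr : s * a ≠ s * a * a := fun h => ha1 (mul_eq_left.1 h.symm)
  unfold mk
  rw [map_mul, map_mul]
  by_cases hp : s * a = t
  · -- `t = s a`
    have hq : s * a⁻¹ ≠ t := fun h => hpq (by rw [hp, h])
    have hr : s * a * a ≠ t := fun h => hpr (by rw [h, hp])
    rw [fix_e1 F _ (hne _ hq), fix_e1 F _ (hne _ hr), hp, map_e0_self hA hm F a t hself]
    have h0 := e0_e1 hA hm (t * a)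
    unfold mk
    linear_combination (-(e0 m t - e1 m t) * e1 m (t * a⁻¹) * e1 m (t * a * a) *
      e1 m (s * a⁻¹)) * h0
  · have hp0 := e0_e1 hA hm (s * a)
    rw [fix_e0 F _ (hne _ hp)]
    -- the product with `e0 (s a)` does not see the correction
    have key : ∀ r, (r = s * a⁻¹ ∨ r = s * a * a) →
        e0 m (s * a) * F (e1 m r) = e0 m (s * a) * e1 m r := by
      intro r hr
      by_cases hrt : r = t
      · subst hrt
        rw [map_e1_self hA hm F a r hself]
        rcases hr with hr | hr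
        · have h1 : r * a * a = s * a := by rw [hr]; group
          unfold mk
          rw [h1]
          linear_combination ((e0 m r - e1 m r) * e0 m (r * a) * e1 m (r * a⁻¹)) * hp0
        · have h1 : r * a⁻¹ = s * a := by rw [hr]; group
          unfold mk
          rw [h1]
          linear_combination ((e0 m r - e1 m r) * e0 m (r * a) * e1 m (r * a * a)) * hp0
      · rw [fix_e1 F _ (hne _ hrt)]
    rw [key _ (Or.inl rfl), mul_right_comm, key _ (Or.inr rfl), mul_right_comm]

theorem beta_um [Group Γ] [NeZero m] (a s t : Γ) (ha : a * a ≠ 1) (hst : s ≠ t) :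
    Phi t (um m a t) (um_pow_m hA hm a t) (um m a s) = um m a s := by
  have h := Phi_C_ne t (um m a t) (um_pow_m hA hm a t) s hst
  have h2 : um m a s = C m s + (om m - 1) • ((e0 m s - e1 m s) * mk m a s) := rfl
  conv_lhs => rw [h2]
  rw [map_add, map_smul, map_mul, map_sub, fix_e0 _ _ h, fix_e1 _ _ h, beta_mk hA hm a s t ha, h]
  rfl

end

/-- The restriction of `k` to the complement of `T`. -/
def fl (T : Finset Γ) (k : K m Γ) : K m Γ := by
  classical exact Multiplicative.ofAdd (k.toAdd.filter (· ∉ T))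

theorem fl_empty (k : K m Γ) : fl ∅ k = k := by
  apply Multiplicative.toAdd.injective
  ext s
  simp [fl]

theorem fl_support (k : K m Γ) : fl k.toAdd.support k = 1 := by
  apply Multiplicative.toAdd.injective
  ext s
  simp [fl, Finsupp.filter_apply]

theorem fl_apply (T : Finset Γ) (k : K m Γ) (t : Γ) (h : t ∉ T) :
    (fl T k).toAdd t = k.toAdd t := by
  simp [fl, h]

theorem er_fl [DecidableEq Γ] (T : Finset Γ) (k : K m Γ) (t : Γ) :
    er t (fl T k) = fl (insert t T) k := by
  apply Multiplicative.toAdd.injective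
  ext s
  by_cases hs : s = t
  · subst hs
    simp [fl, er]
  · simp [fl, er, Finsupp.filter_apply, hs]

theorem prod_gen [NeZero m] (k : K m Γ) :
    ∏ s ∈ k.toAdd.support, gen m s ^ (k.toAdd s).val = k := by
  apply Multiplicative.toAdd.injective
  rw [toAdd_prod]
  conv_rhs => rw [← Finsupp.sum_single k.toAdd]
  rw [Finsupp.sum]
  refine Finset.sum_congr rfl fun s _ => ?_
  rw [toAdd_pow, gen, toAdd_ofAdd, Finsupp.smul_single]
  simp

theorem prod_C [NeZero m] (k : K m Γ) :
    ∏ s ∈ k.toAdd.support, C m s ^ (k.toAdd s).val = single k 1 := by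
  have h : (single k 1 : CK m Γ) = of ℂ (K m Γ) k := rfl
  rw [h]
  conv_rhs => rw [← prod_gen k]
  rw [map_prod]
  refine Finset.prod_congr rfl fun s _ => ?_
  rw [map_pow]
  rfl

theorem tr_Q [Group Γ] (hA : AutAStmt) (hm : 2 ≤ m) [NeZero m] (a : Γ) (ha : a * a ≠ 1)
    (k : K m Γ) (T : Finset Γ) :
    ((∏ s ∈ T, um m a s ^ (k.toAdd s).val) * single (fl T k) 1 : CK m Γ).coeff 1 =
      (single k 1 : CK m Γ).coeff 1 := by
  classical
  induction T using Finset.induction_on with
  | empty => rw [Finset.prod_empty, fl_empty, one_mul]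
  | insert t T ht ih =>
    rw [← ih, ← tr_beta_t hA hm a t ha
      ((∏ s ∈ T, um m a s ^ (k.toAdd s).val) * single (fl T k) 1), map_mul, map_prod, Phi_single,
      er_fl, fl_apply T k t ht, Finset.prod_insert ht]
    have : ∏ s ∈ T, Phi t (um m a t) (um_pow_m hA hm a t) (um m a s ^ (k.toAdd s).val) =
        ∏ s ∈ T, um m a s ^ (k.toAdd s).val := by
      refine Finset.prod_congr rfl fun s hs => ?_
      rw [map_pow, beta_um hA hm a s t ha (fun h => ht (h ▸ hs))]
    rw [this]
    congr 2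
    ring

end AutD

open AutD in
/-- [AUTD] `β` preserves the trace. -/
theorem autD (hA : AutAStmt) (_hB : AutBStmt) : AutDStmt := by
  intro m Γ _ hm a ha β hβ x
  have : NeZero m := ⟨by omega⟩
  have key : ∀ k : K m Γ, (β (single k 1)).coeff 1 = (single k 1 : CK m Γ).coeff 1 := by
    intro k
    rw [← tr_Q hA hm a ha k k.toAdd.support, fl_support]
    conv_lhs => rw [← prod_C k]
    rw [map_prod]
    simp_rw [map_pow]
    have : ∀ s, β (C m s) = um m a s := hβ
    simp_rw [this]
    rw [← one_def, mul_one]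
  induction x using MonoidAlgebra.induction_linear with
  | zero => simp
  | add x y hx hy => rw [map_add, coeff_add, coeff_add, Finsupp.add_apply, Finsupp.add_apply, hx, hy]
  | single k r =>
    have h0 : (single k r : CK m Γ) = r • single k 1 := by simp [smul_single]
    rw [h0, map_smul, coeff_smul_apply, coeff_smul_apply, key]

end

end MP8a6869.WR
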