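import Pool.Agent.Work.MP_8a6869_an.WR.Stmts

/-!
# MP_8a6869_an, wreath products: the marker endomorphism commutes with the translations
-/

namespace MP8a6869.WR.AutE

open MonoidAlgebra

noncomputable section

variable {m : ℕ} {Γ : Type} [Group Γ]

theorem shift_gen (γ s : Γ) : shift m Γ γ (gen m s) = gen m (γ * s) := by
  apply Multiplicative.toAdd.injective
  ext t
  rw [shift_apply]
  show (Finsupp.single s (1 : ZMod m)) (γ⁻¹ * t) = (Finsupp.single (γ * s) (1 : ZMod m)) t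
  classical
  rw [Finsupp.single_apply, Finsupp.single_apply]
  by_cases h : s = γ⁻¹ * t
  · rw [if_pos h, if_pos (by rw [h]; group)]
  · rw [if_neg h, if_neg (fun h' => h (by rw [← h']; group))]

/-- The algebra automorphism induced by the translation. -/
def sh (m : ℕ) {Γ : Type} [Group Γ] (γ : Γ) : CK m Γ ≃ₐ[ℂ] CK m Γ :=
  MonoidAlgebra.domCongr ℂ ℂ (shift m Γ γ)

theorem sh_single (γ : Γ) (k : K m Γ) (c : ℂ) :
    sh m γ (single k c) = single (shift m Γ γ k) c :=
  MonoidAlgebra.domCongr_single (R := ℂ) (A := ℂ) (shift m Γ γ) k c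

theorem sh_e0 (γ s : Γ) : sh m γ (e0 m s) = e0 m (γ * s) := by
  rw [e0, e0, map_sum]
  refine Finset.sum_congr rfl fun i _ => ?_
  rw [sh_single, map_pow, shift_gen]

theorem sh_e1 (γ s : Γ) : sh m γ (e1 m s) = e1 m (γ * s) := by
  rw [e1, e1, map_sum]
  refine Finset.sum_congr rfl fun i _ => ?_
  rw [sh_single, map_pow, shift_gen]

theorem sh_mk (γ a s : Γ) : sh m γ (mk m a s) = mk m a (γ * s) := by
  rw [mk, mk, map_mul, map_mul, sh_e0, sh_e1, sh_e1]
  simp only [mul_assoc]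

theorem sh_um (γ a s : Γ) : sh m γ (um m a s) = um m a (γ * s) := by
  rw [um, um, map_add, map_smul, map_mul, map_sub, sh_single, shift_gen, sh_e0, sh_e1, sh_mk]

theorem single_ofAdd [NeZero m] (x : Γ) (y : ZMod m) :
    (single (Multiplicative.ofAdd (Finsupp.single x y)) (1 : ℂ) : CK m Γ) =
      (single (gen m x) 1) ^ y.val := by
  rw [MonoidAlgebra.single_pow, one_pow]
  congr 1
  rw [gen, ← ofAdd_nsmul, Finsupp.smul_single, nsmul_one, ZMod.natCast_zmod_val]

theorem comm [NeZero m] (a : Γ) (β : CK m Γ →⋆ₐ[ℂ] CK m Γ)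
    (hβ : ∀ s, β (single (gen m s) 1) = um m a s) (γ : Γ) (x : CK m Γ) :
    β (sh m γ x) = sh m γ (β x) := by
  have h : (β : CK m Γ →ₐ[ℂ] CK m Γ).comp (sh m γ : CK m Γ →ₐ[ℂ] CK m Γ) =
      (sh m γ : CK m Γ →ₐ[ℂ] CK m Γ).comp (β : CK m Γ →ₐ[ℂ] CK m Γ) := by
    refine MonoidAlgebra.algHom_ext ?_ ?_
    · intro k
      have h2 : (((β : CK m Γ →ₐ[ℂ] CK m Γ).comp
            (sh m γ : CK m Γ →ₐ[ℂ] CK m Γ)) : CK m Γ →* CK m Γ).comp
            (MonoidAlgebra.of ℂ (K m Γ)) =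
          (((sh m γ : CK m Γ →ₐ[ℂ] CK m Γ).comp
            (β : CK m Γ →ₐ[ℂ] CK m Γ)) : CK m Γ →* CK m Γ).comp
            (MonoidAlgebra.of ℂ (K m Γ)) := by
        refine Finsupp.mulHom_ext fun s y => ?_
        show β (sh m γ (single (Multiplicative.ofAdd (Finsupp.single s y)) 1)) =
          sh m γ (β (single (Multiplicative.ofAdd (Finsupp.single s y)) 1))
        rw [single_ofAdd, map_pow, map_pow, map_pow, map_pow, sh_single, shift_gen, hβ, hβ, sh_um]
      exact DFunLike.congr_fun h2 k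
    · ext c
  exact DFunLike.congr_fun h x

end

end MP8a6869.WR.AutE

open MonoidAlgebra in
theorem MP8a6869.WR.autE : MP8a6869.WR.AutEStmt := by
  intro m Γ _ hm a β hβ γ k l
  have : NeZero m := ⟨by omega⟩
  have h := MP8a6869.WR.AutE.comm a β hβ γ (single k 1)
  rw [MP8a6869.WR.AutE.sh_single] at h
  rw [h, MP8a6869.WR.AutE.sh, MonoidAlgebra.coeff_domCongr, MulEquiv.symm_apply_apply]
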