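import Pool.Agent.Work.MP_8a6869_an.WR.Stmts

/-!
# MP_8a6869_an, wreath products: the unitary `um m a 1` has `ℓ¹` norm greater than one

Proof by characters: the four characters of `⊕_Γ ℤ/m` which are `ω` exactly at the sites
`∅`, `{a}`, `{a⁻¹, a²}`, `{a, a⁻¹, a²}` send `um m a 1` to `1, 1, ω, 1`.
-/

namespace MP8a6869.WR.AutF

open MonoidAlgebra

noncomputable section

variable {m : ℕ} {Γ : Type}

/-- The character of `⊕_Γ ℤ/m` which is the standard one at the sites of `T`. -/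
def chi (m : ℕ) [NeZero m] {Γ : Type} (T : Finset Γ) : K m Γ →* ℂ where
  toFun k := ZMod.stdAddChar (∑ s ∈ T, k.toAdd s)
  map_one' := by simp
  map_mul' k l := by
    rw [← AddChar.map_add_eq_mul, ← Finset.sum_add_distrib]
    rfl

theorem chi_apply [NeZero m] (T : Finset Γ) (k : K m Γ) :
    chi m T k = ZMod.stdAddChar (∑ s ∈ T, k.toAdd s) := rfl

theorem norm_chi [NeZero m] (T : Finset Γ) (k : K m Γ) : ‖chi m T k‖ = 1 := by
  rw [chi_apply, ZMod.stdAddChar_apply]
  exact Circle.norm_coe _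

theorem std_one [NeZero m] : (ZMod.stdAddChar (1 : ZMod m) : ℂ) = om m := by
  have h := ZMod.stdAddChar_coe (N := m) 1
  rw [Int.cast_one] at h
  rw [h, om]
  simp

theorem chi_gen_mem [NeZero m] {T : Finset Γ} {s : Γ} (hs : s ∈ T) :
    chi m T (gen m s) = om m := by
  classical
  rw [chi_apply, ← std_one]
  congr 1
  rw [gen]
  simp only [toAdd_ofAdd, Finsupp.single_apply]
  rw [Finset.sum_ite_eq]
  simp [hs]

theorem chi_gen_not_mem [NeZero m] {T : Finset Γ} {s : Γ} (hs : s ∉ T) :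
    chi m T (gen m s) = 1 := by
  classical
  rw [chi_apply]
  have h : ∑ t ∈ T, (gen m s).toAdd t = 0 := by
    rw [gen]
    simp only [toAdd_ofAdd, Finsupp.single_apply]
    rw [Finset.sum_ite_eq]
    simp [hs]
  rw [h]
  simp

/-- The algebra homomorphism of the character `chi m T`. -/
def phi (m : ℕ) [NeZero m] {Γ : Type} (T : Finset Γ) : CK m Γ →ₐ[ℂ] ℂ :=
  MonoidAlgebra.lift ℂ ℂ (K m Γ) (chi m T)

theorem phi_single [NeZero m] (T : Finset Γ) (k : K m Γ) (c : ℂ) :
    phi m T (single k c) = c * chi m T k := by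
  rw [phi, MonoidAlgebra.lift_single, smul_eq_mul]

theorem phi_e0_one [NeZero m] {T : Finset Γ} {s : Γ} (hs : s ∉ T) : phi m T (e0 m s) = 1 := by
  have hm : (m : ℂ) ≠ 0 := by exact_mod_cast NeZero.ne m
  rw [e0, map_sum]
  simp only [phi_single, map_pow, chi_gen_not_mem hs, one_pow, mul_one]
  simp [hm]

theorem phi_e1_one [NeZero m] {T : Finset Γ} {s : Γ} (hs : s ∈ T) : phi m T (e1 m s) = 1 := by
  have hm : (m : ℂ) ≠ 0 := by exact_mod_cast NeZero.ne m
  have ho : om m ≠ 0 := Complex.exp_ne_zero _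
  rw [e1, map_sum]
  have h : ∀ i ∈ Finset.range m,
      phi m T (single (gen m s ^ i) ((m : ℂ)⁻¹ * (om m)⁻¹ ^ i)) = (m : ℂ)⁻¹ := by
    intro i _
    rw [phi_single, map_pow, chi_gen_mem hs, mul_assoc, ← mul_pow, inv_mul_cancel₀ ho,
      one_pow, mul_one]
  rw [Finset.sum_congr rfl h]
  simp [hm]

variable [Group Γ]

theorem phi_e0_zero (hA : AutAStmt) (hm : 2 ≤ m) [NeZero m] {T : Finset Γ} {s : Γ}
    (hs : s ∈ T) : phi m T (e0 m s) = 0 := by
  obtain ⟨-, h1, -, h2⟩ := hA m Γ hm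
  obtain ⟨-, -, -, -, -, -, h3, -⟩ := h2 s
  have h4 := congrArg (phi m T) h3
  rw [map_mul, phi_single, one_mul, chi_gen_mem hs] at h4
  have h5 : (om m - 1) * phi m T (e0 m s) = 0 := by linear_combination h4
  rcases mul_eq_zero.mp h5 with h | h
  · exact absurd (sub_eq_zero.mp h) h1
  · exact h

theorem phi_e1_zero (hA : AutAStmt) (hm : 2 ≤ m) [NeZero m] {T : Finset Γ} {s : Γ}
    (hs : s ∉ T) : phi m T (e1 m s) = 0 := by
  obtain ⟨-, h1, -, h2⟩ := hA m Γ hm
  obtain ⟨-, -, -, -, -, -, -, h3⟩ := h2 s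
  have h4 := congrArg (phi m T) h3
  rw [map_mul, phi_single, one_mul, chi_gen_not_mem hs, map_smul, smul_eq_mul] at h4
  have h5 : (om m - 1) * phi m T (e1 m s) = 0 := by linear_combination -h4
  rcases mul_eq_zero.mp h5 with h | h
  · exact absurd (sub_eq_zero.mp h) h1
  · exact h

/-- The value of a character which is trivial at the site `1` at the unitary. -/
theorem phi_um (hA : AutAStmt) (hm : 2 ≤ m) [NeZero m] (a : Γ) {T : Finset Γ}
    (hT : (1 : Γ) ∉ T) : phi m T (um m a (1 : Γ)) =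
      1 + (om m - 1) * (phi m T (e0 m a) * phi m T (e1 m a⁻¹) * phi m T (e1 m (a * a))) := by
  rw [um, mk, map_add, map_smul, map_mul, map_mul, map_mul, map_sub, phi_single,
    chi_gen_not_mem hT, phi_e0_one hT, phi_e1_zero hA hm hT, smul_eq_mul, one_mul, one_mul,
    one_mul]
  ring

/-- Two unit vectors which are not equal. -/
theorem norm_add_lt {x y : ℂ} (hx : ‖x‖ = 1) (hy : ‖y‖ = 1) (h : x ≠ y) : ‖x + y‖ < 2 := by
  have h1 := parallelogram_law_with_norm ℝ x y
  have h2 : 0 < ‖x - y‖ := norm_pos_iff.mpr (sub_ne_zero.mpr h)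
  rw [hx, hy] at h1
  have h3 := norm_nonneg (x + y)
  nlinarith

theorem norm_four_lt {w x y : ℂ} (hw : ‖w‖ = 1) (hw1 : w ≠ 1) (hx : ‖x‖ = 1) (hy : ‖y‖ = 1) :
    ‖1 + x + w * y + x * y‖ < 4 := by
  have e : 1 + x + w * y + x * y = (1 + x) + (w + x) * y := by ring
  rw [e]
  have h1 : ‖(w + x) * y‖ = ‖w + x‖ := by rw [norm_mul, hy, mul_one]
  have h2 : ‖(1 : ℂ) + x‖ ≤ 2 := by
    have := norm_add_le (1 : ℂ) x
    rw [norm_one, hx] at this
    linarith
  have h3 : ‖w + x‖ ≤ 2 := by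
    have := norm_add_le w x
    rw [hw, hx] at this
    linarith
  have h4 := norm_add_le ((1 : ℂ) + x) ((w + x) * y)
  rw [h1] at h4
  by_cases hx1 : (1 : ℂ) = x
  · have h5 : ‖w + x‖ < 2 := norm_add_lt hw hx (by rw [← hx1]; exact hw1)
    linarith
  · have h5 : ‖(1 : ℂ) + x‖ < 2 := norm_add_lt norm_one hx hx1
    linarith

theorem phi_eq_sum [NeZero m] (T : Finset Γ) (u : CK m Γ) :
    phi m T u = ∑ k ∈ u.coeff.support, u.coeff k * chi m T k := by
  rw [phi, MonoidAlgebra.lift_apply]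
  rfl

end

end MP8a6869.WR.AutF

namespace MP8a6869.WR

open AutF MonoidAlgebra

/-- [AUTF] The unitary `um m a 1` has `ℓ¹` norm greater than one. -/
theorem autF (hA : AutAStmt) : AutFStmt := by
  classical
  intro m Γ _ hm a ha
  haveI : NeZero m := ⟨by omega⟩
  have ho0 : om m ≠ 0 := Complex.exp_ne_zero _
  obtain ⟨hom, hom1, -, -⟩ := hA m Γ hm
  have hnom : ‖om m‖ = 1 := by
    have h := congrArg norm hom
    rw [norm_pow, norm_one] at h
    exact (pow_eq_one_iff_of_nonneg (norm_nonneg _) (by omega)).mp h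
  have ha1 : a ≠ 1 := fun h => ha (by rw [h, one_mul])
  have haa : a ≠ a * a := fun h => ha1 (by
    have h' : a * 1 = a * a := by rw [mul_one]; exact h
    exact (mul_left_cancel h').symm)
  have hai : a ≠ a⁻¹ := fun h => ha (by
    nth_rewrite 2 [h]
    exact mul_inv_cancel a)
  have hi1 : a⁻¹ ≠ 1 := inv_ne_one.mpr ha1
  set u := um m a (1 : Γ) with hu
  -- the four values
  have v1 : phi m (∅ : Finset Γ) u = 1 := by
    rw [hu, phi_um hA hm a (by simp), phi_e1_zero hA hm (s := a⁻¹) (by simp)]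
    ring
  have v2 : phi m ({a} : Finset Γ) u = 1 := by
    rw [hu, phi_um hA hm a (by simpa using ha1.symm), phi_e0_zero hA hm (s := a) (by simp)]
    ring
  have v3 : phi m ({a⁻¹, a * a} : Finset Γ) u = om m := by
    rw [hu, phi_um hA hm a (by
        simp only [Finset.mem_insert, Finset.mem_singleton, not_or]
        exact ⟨hi1.symm, fun h => ha h.symm⟩),
      phi_e0_one (s := a) (by
        simp only [Finset.mem_insert, Finset.mem_singleton, not_or]
        exact ⟨hai, haa⟩),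
      phi_e1_one (s := a⁻¹) (by simp), phi_e1_one (s := a * a) (by simp)]
    ring
  have v4 : phi m ({a, a⁻¹, a * a} : Finset Γ) u = 1 := by
    rw [hu, phi_um hA hm a (by
        simp only [Finset.mem_insert, Finset.mem_singleton, not_or]
        exact ⟨ha1.symm, hi1.symm, fun h => ha h.symm⟩),
      phi_e0_zero hA hm (s := a) (by simp)]
    ring
  -- the characters
  have c1 : ∀ k : K m Γ, chi m (∅ : Finset Γ) k = 1 := fun k => by
    rw [chi_apply]; simp
  have c4 : ∀ k : K m Γ, chi m ({a, a⁻¹, a * a} : Finset Γ) k =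
      chi m ({a} : Finset Γ) k * chi m ({a⁻¹, a * a} : Finset Γ) k := fun k => by
    rw [chi_apply, chi_apply, chi_apply, ← AddChar.map_add_eq_mul, Finset.sum_singleton,
      Finset.sum_insert (by
        simp only [Finset.mem_insert, Finset.mem_singleton, not_or]
        exact ⟨hai, haa⟩)]
  set x : K m Γ → ℂ := fun k => chi m ({a} : Finset Γ) k with hx
  set y : K m Γ → ℂ := fun k => chi m ({a⁻¹, a * a} : Finset Γ) k with hy
  have hw : ‖(om m)⁻¹‖ = 1 := by rw [norm_inv, hnom, inv_one]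
  have hw1 : (om m)⁻¹ ≠ 1 := fun h => hom1 (by rw [← inv_inv (om m), h, inv_one])
  have key : ∑ k ∈ u.coeff.support, u.coeff k * (1 + x k + (om m)⁻¹ * y k + x k * y k) = 4 := by
    have e1 := phi_eq_sum (∅ : Finset Γ) u
    have e2 := phi_eq_sum ({a} : Finset Γ) u
    have e3 := phi_eq_sum ({a⁻¹, a * a} : Finset Γ) u
    have e4 := phi_eq_sum ({a, a⁻¹, a * a} : Finset Γ) u
    rw [v1] at e1; rw [v2] at e2; rw [v3] at e3; rw [v4] at e4
    have e5 : ∑ k ∈ u.coeff.support, u.coeff k * (1 + x k + (om m)⁻¹ * y k + x k * y k) =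
        (∑ k ∈ u.coeff.support, u.coeff k * chi m (∅ : Finset Γ) k) +
        (∑ k ∈ u.coeff.support, u.coeff k * chi m ({a} : Finset Γ) k) +
        (om m)⁻¹ * (∑ k ∈ u.coeff.support, u.coeff k * chi m ({a⁻¹, a * a} : Finset Γ) k) +
        (∑ k ∈ u.coeff.support, u.coeff k * chi m ({a, a⁻¹, a * a} : Finset Γ) k) := by
      rw [Finset.mul_sum, ← Finset.sum_add_distrib, ← Finset.sum_add_distrib,
        ← Finset.sum_add_distrib]
      refine Finset.sum_congr rfl fun k _ => ?_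
      rw [c1, c4]
      ring
    rw [e5, ← e1, ← e2, ← e3, ← e4, inv_mul_cancel₀ ho0]
    norm_num
  have hlt : ∀ k ∈ u.coeff.support,
      ‖u.coeff k * (1 + x k + (om m)⁻¹ * y k + x k * y k)‖ < ‖u.coeff k‖ * 4 := by
    intro k hk
    rw [norm_mul]
    refine mul_lt_mul_of_pos_left ?_ ?_
    · exact norm_four_lt hw hw1 (norm_chi _ k) (norm_chi _ k)
    · exact norm_pos_iff.mpr (Finsupp.mem_support_iff.mp hk)
  have hne : u.coeff.support.Nonempty := by
    rw [Finset.nonempty_iff_ne_empty]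
    intro h
    rw [h, Finset.sum_empty] at key
    norm_num at key
  have h6 : (4 : ℝ) < ∑ k ∈ u.coeff.support, ‖u.coeff k‖ * 4 := by
    calc (4 : ℝ) = ‖∑ k ∈ u.coeff.support,
          u.coeff k * (1 + x k + (om m)⁻¹ * y k + x k * y k)‖ := by rw [key]; norm_num
      _ ≤ ∑ k ∈ u.coeff.support, ‖u.coeff k * (1 + x k + (om m)⁻¹ * y k + x k * y k)‖ :=
          norm_sum_le _ _
      _ < ∑ k ∈ u.coeff.support, ‖u.coeff k‖ * 4 := Finset.sum_lt_sum_of_nonempty hne hlt
  rw [← Finset.sum_mul] at h6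
  linarith

end MP8a6869.WR
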