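import Pool.Agent.Work.MP_8a6869_an.WR.Stmts2
import Pool.Agent.Work.MP_8a6869_an.WR.Contra

/-!
# MP_8a6869_an, wreath products: the contradiction, lamps of arbitrary order

As `Contra.lean`, with the finite group replaced by Foelner pairs of the abelian group
`⊕_Γ ℤ/m`.
-/

namespace MP8a6869.WR.Contra2

open MP8a6869 MP8a6869.WR MP8a6869.WR.Contra
open scoped InnerProductSpace ComplexOrder ENNReal
open MonoidAlgebra Filter Topology

noncomputable section

variable {G : Type} [Group G]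

theorem norm_left (g : G) (y : ell2 G) : ‖leftReg G g y‖ = ‖y‖ :=
  (permL (Equiv.mulLeft g⁻¹)).norm_map y

theorem inner_right (g : G) (x y : ell2 G) :
    ⟪rightReg G g x, rightReg G g y⟫_ℂ = ⟪x, y⟫_ℂ :=
  (permL (Equiv.mulRight g)).inner_map_map x y

theorem rr (g h : G) (x : ell2 G) : rightReg G g (rightReg G h x) = rightReg G (g * h) x := by
  rw [rightReg_mul]
  rfl

theorem lr (g h : G) (x : ell2 G) :
    rightReg G g (leftReg G h x) = leftReg G h (rightReg G g x) := by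
  have h1 := congrArg (fun t : ell2 G →L[ℂ] ell2 G => t x) (leftReg_rightReg G h g)
  exact h1.symm

theorem inner_shift (c g h : G) (w : ell2 G) :
    ⟪rightReg G g w, leftReg G c (rightReg G (g * h) w)⟫_ℂ =
      ⟪w, leftReg G c (rightReg G h w)⟫_ℂ := by
  rw [← rr, ← lr, inner_right]

theorem nonneg_re (c g h : G) (f : ell2 G) :
    0 ≤ (⟪rightReg G g (absV f), leftReg G c (rightReg G h (absV f))⟫_ℂ).re := by
  have h1 := inner_shift c g (g⁻¹ * h) (absV f)
  rw [mul_inv_cancel_left] at h1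
  rw [h1]
  exact (norm_nonneg _).trans (norm_inner_lr_le _ _ _)

variable {K : Type} [CommGroup K] [DecidableEq K]

/-- The Cauchy-Schwarz inequality for a Foelner pair. -/
theorem avg (φ : K →* G) (c : G) (f : ell2 G) (E F T : Finset K)
    (h : ∀ y ∈ E, ∀ x ∈ T, y * x ∈ F) :
    (E.card : ℝ) * ∑ x ∈ T, (⟪absV f, leftReg G c (rightReg G (φ x) (absV f))⟫_ℂ).re ≤
      ‖∑ y ∈ E, rightReg G (φ y) (absV f)‖ * ‖∑ u ∈ F, rightReg G (φ u) (absV f)‖ := by
  set w := absV f with hw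
  have e1 : ∀ y ∈ E, ∑ x ∈ T, (⟪w, leftReg G c (rightReg G (φ x) w)⟫_ℂ).re ≤
      ∑ u ∈ F, (⟪rightReg G (φ y) w, leftReg G c (rightReg G (φ u) w)⟫_ℂ).re := by
    intro y hy
    have h1 : ∑ x ∈ T, (⟪w, leftReg G c (rightReg G (φ x) w)⟫_ℂ).re =
        ∑ u ∈ T.image (fun x => y * x),
          (⟪rightReg G (φ y) w, leftReg G c (rightReg G (φ u) w)⟫_ℂ).re := by
      rw [Finset.sum_image (fun a _ b _ hab => mul_left_cancel hab)]
      refine Finset.sum_congr rfl fun x _ => ?_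
      rw [map_mul, inner_shift]
    rw [h1]
    refine Finset.sum_le_sum_of_subset_of_nonneg ?_ fun u _ _ => nonneg_re c _ _ f
    intro u hu
    obtain ⟨x, hx, rfl⟩ := Finset.mem_image.1 hu
    exact h y hy x hx
  have e2 : (E.card : ℝ) * ∑ x ∈ T, (⟪w, leftReg G c (rightReg G (φ x) w)⟫_ℂ).re ≤
      ∑ y ∈ E, ∑ u ∈ F, (⟪rightReg G (φ y) w, leftReg G c (rightReg G (φ u) w)⟫_ℂ).re := by
    rw [← nsmul_eq_mul, ← Finset.sum_const]
    exact Finset.sum_le_sum e1
  refine e2.trans ?_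
  have e3 : ∑ y ∈ E, ∑ u ∈ F, (⟪rightReg G (φ y) w, leftReg G c (rightReg G (φ u) w)⟫_ℂ).re =
      (⟪∑ y ∈ E, rightReg G (φ y) w, leftReg G c (∑ u ∈ F, rightReg G (φ u) w)⟫_ℂ).re := by
    rw [sum_inner, Complex.re_sum]
    refine Finset.sum_congr rfl fun y _ => ?_
    rw [map_sum, inner_sum, Complex.re_sum]
  rw [e3]
  refine (Complex.re_le_norm _).trans ((norm_inner_le_norm _ _).trans ?_)
  rw [norm_left]

/-- The norm of the sum of the translates. -/
theorem norm_sum (φ : K →* G) (A : Set G) (w : ell2 G)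
    (hA : ∀ x : K, x ≠ 1 → ∀ z, z ∈ A ∨ z * φ x ∈ A) (E : Finset K) :
    ‖∑ y ∈ E, rightReg G (φ y) w‖ ^ 2 ≤
      (E.card : ℝ) * ‖w‖ ^ 2 + (E.card : ℝ) * ((E.card : ℝ) * (2 * ‖res A w‖ * ‖w‖)) := by
  have h1 := inner_self_eq_norm_sq (𝕜 := ℂ) (∑ y ∈ E, rightReg G (φ y) w)
  rw [← h1]
  have h2 : RCLike.re ⟪∑ y ∈ E, rightReg G (φ y) w, ∑ y ∈ E, rightReg G (φ y) w⟫_ℂ =
      ∑ y ∈ E, ∑ u ∈ E, (⟪rightReg G (φ y) w, rightReg G (φ u) w⟫_ℂ).re := by
    rw [sum_inner, map_sum]
    refine Finset.sum_congr rfl fun y _ => ?_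
    rw [inner_sum, map_sum]
    rfl
  rw [h2]
  have h3 : ∀ y ∈ E, ∑ u ∈ E, (⟪rightReg G (φ y) w, rightReg G (φ u) w⟫_ℂ).re ≤
      ‖w‖ ^ 2 + (E.card : ℝ) * (2 * ‖res A w‖ * ‖w‖) := by
    intro y hy
    calc ∑ u ∈ E, (⟪rightReg G (φ y) w, rightReg G (φ u) w⟫_ℂ).re
        ≤ ∑ u ∈ E, ((if u = y then ‖w‖ ^ 2 else 0) + 2 * ‖res A w‖ * ‖w‖) := by
          refine Finset.sum_le_sum fun u _ => ?_
          by_cases hu : u = y
          · rw [if_pos hu, hu, inner_right]
            have h5 : (⟪w, w⟫_ℂ).re = ‖w‖ ^ 2 := inner_self_eq_norm_sq (𝕜 := ℂ) w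
            rw [h5]
            have : 0 ≤ 2 * ‖res A w‖ * ‖w‖ := by positivity
            linarith
          · rw [if_neg hu, zero_add]
            have h5 : ⟪rightReg G (φ y) w, rightReg G (φ u) w⟫_ℂ =
                ⟪w, rightReg G (φ (y⁻¹ * u)) w⟫_ℂ := by
              have h6 : φ u = φ y * φ (y⁻¹ * u) := by rw [← map_mul, mul_inv_cancel_left]
              rw [h6, ← rr, inner_right]
            rw [h5]
            refine small A _ (hA _ ?_) w
            intro h7
            exact hu (inv_mul_eq_one.1 h7).symm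
      _ = ‖w‖ ^ 2 + (E.card : ℝ) * (2 * ‖res A w‖ * ‖w‖) := by
          rw [Finset.sum_add_distrib, Finset.sum_ite_eq' E y, if_pos hy, Finset.sum_const,
            nsmul_eq_mul]
  refine (Finset.sum_le_sum h3).trans (le_of_eq ?_)
  rw [Finset.sum_const, nsmul_eq_mul, mul_add]

/-- The products of at most `N` powers of each element of `T`. -/
def box (T : Finset K) (N : ℕ) : Finset K :=
  (Fintype.piFinset fun _ : T => Finset.range (N + 1)).image fun f => ∏ x : T, (x : K) ^ f x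

theorem one_mem_box (T : Finset K) (N : ℕ) : (1 : K) ∈ box T N := by
  refine Finset.mem_image.2 ⟨fun _ => 0, ?_, by simp⟩
  simp

theorem mul_mem_box (T : Finset K) (N : ℕ) (y : K) (hy : y ∈ box T N) (x : K) (hx : x ∈ T) :
    y * x ∈ box T (N + 1) := by
  obtain ⟨f, hf, rfl⟩ := Finset.mem_image.1 hy
  rw [Fintype.mem_piFinset] at hf
  refine Finset.mem_image.2 ⟨fun z => f z + if z = ⟨x, hx⟩ then 1 else 0, ?_, ?_⟩
  · rw [Fintype.mem_piFinset]
    intro z
    have h1 := Finset.mem_range.1 (hf z)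
    rw [Finset.mem_range]
    split_ifs <;> omega
  · have h1 : ∏ z : T, (z : K) ^ (f z + if z = ⟨x, hx⟩ then 1 else 0) =
        (∏ z : T, (z : K) ^ f z) * ∏ z : T, (z : K) ^ (if z = ⟨x, hx⟩ then 1 else 0) := by
      rw [← Finset.prod_mul_distrib]
      exact Finset.prod_congr rfl fun z _ => pow_add _ _ _
    rw [h1]
    congr 1
    rw [Finset.prod_eq_single (⟨x, hx⟩ : T)]
    · simp
    · intro z _ hz
      rw [if_neg hz, pow_zero]
    · intro h2
      exact absurd (Finset.mem_univ _) h2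

theorem card_box (T : Finset K) (N : ℕ) : (box T N).card ≤ (N + 1) ^ T.card := by
  refine Finset.card_image_le.trans ?_
  rw [Fintype.card_piFinset]
  simp

/-- A sequence of polynomial growth has a ratio close to one. -/
theorem growth (b : ℕ → ℝ) (k : ℕ) (r : ℝ) (hr : 1 < r) (h0 : 1 ≤ b 0)
    (h1 : ∀ N, r * b N ≤ b (N + 1)) (h2 : ∀ N : ℕ, b N ≤ ((N : ℝ) + 1) ^ k) : False := by
  have h3 : ∀ N, r ^ N ≤ b N := by
    intro N
    induction N with
    | zero => simpa using h0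
    | succ N ih =>
      refine le_trans ?_ (h1 N)
      rw [pow_succ, mul_comm]
      exact mul_le_mul_of_nonneg_left ih (by linarith)
  have h4 := tendsto_pow_const_div_const_pow_of_one_lt k hr
  have h5 := h4.comp (tendsto_add_atTop_nat 1)
  have h6 : ∀ N : ℕ, 1 / r ≤ ((fun n : ℕ => (n : ℝ) ^ k / r ^ n) ∘ fun n => n + 1) N := by
    intro N
    have hr0 : (0 : ℝ) < r := by linarith
    simp only [Function.comp_apply, Nat.cast_add, Nat.cast_one]
    rw [div_le_div_iff₀ hr0 (by positivity), one_mul, pow_succ]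
    exact mul_le_mul_of_nonneg_right ((h3 N).trans (h2 N)) hr0.le
  have h7 := ge_of_tendsto' h5 h6
  have : 0 < 1 / r := by
    have hr0 : (0 : ℝ) < r := by linarith
    positivity
  linarith

end

end MP8a6869.WR.Contra2

namespace MP8a6869.WR

open scoped InnerProductSpace ComplexOrder ENNReal
open MonoidAlgebra Filter Topology
open Contra

theorem contra2 (h1 : WandStmt) (h2 : ConcStmt) : Contra2Stmt := by
  intro m Γ G _ _ j hj hA hF U v hv c a T ha
  -- the action of `Γ` on `G` by conjugation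
  let act : MulAction Γ G :=
    { smul := fun γ z => j (gin γ) * z * (j (gin γ))⁻¹
      one_smul := fun z => by
        change j (gin 1) * z * (j (gin 1))⁻¹ = z
        simp [gin]
      mul_smul := fun γ δ z => by
        change j (gin (γ * δ)) * z * (j (gin (γ * δ)))⁻¹ =
          j (gin γ) * (j (gin δ) * z * (j (gin δ))⁻¹) * (j (gin γ))⁻¹
        simp [gin, mul_assoc] }
  have hsm : ∀ (γ : Γ) (z : G), γ • z = j (gin γ) * z * (j (gin γ))⁻¹ := fun _ _ => rfl
  -- the norms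
  have hn2 : Tendsto (fun n => ‖v n‖ ^ 2) U (𝓝 1) := by
    have h := hv 1
    have e : ∀ n, ⟪v n, leftReg G (j (gin (1 : Γ))) (rightReg G (j (gin (1 : Γ))) (v n))⟫_ℂ =
        ((‖v n‖ ^ 2 : ℝ) : ℂ) := by
      intro n
      have e1 : j (gin (1 : Γ)) = 1 := by simp [gin]
      rw [e1, leftReg_one, rightReg_one]
      have h0 : ⟪v n, v n⟫_ℂ = ((‖v n‖ : ℝ) : ℂ) ^ 2 := inner_self_eq_norm_sq_to_K (𝕜 := ℂ) (v n)
      rw [Complex.ofReal_pow]
      exact h0
    simp only [e] at h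
    have h3 : Tendsto (fun n => (((‖v n‖ ^ 2 : ℝ) : ℂ)).re) U (𝓝 (1 : ℂ).re) :=
      (Complex.continuous_re.tendsto _).comp h
    simp only [Complex.ofReal_re, Complex.one_re] at h3
    exact h3
  have hn : Tendsto (fun n => ‖v n‖) U (𝓝 1) := by
    have h3 := (Real.continuous_sqrt.tendsto _).comp hn2
    simpa [Function.comp_def, Real.sqrt_sq] using h3
  -- almost invariance
  have hinv : ∀ γ : Γ, Tendsto (fun n => ‖permL (MulAction.toPerm γ) (v n) - v n‖) U (𝓝 0) := by
    intro γ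
    have h := hv γ⁻¹
    have e : ∀ n, leftReg G (j (gin γ⁻¹)) (rightReg G (j (gin γ⁻¹)) (v n)) =
        permL (MulAction.toPerm γ) (v n) := by
      intro n
      ext z
      have e2 : (j (gin γ⁻¹))⁻¹ * z * j (gin γ⁻¹) = MulAction.toPerm γ z := by
        change _ = j (gin γ) * z * (j (gin γ))⁻¹
        simp [gin]
      rw [leftReg_apply, rightReg_apply, permL_apply, e2]
    simp only [e] at h
    have h3 : Tendsto (fun n => (⟪v n, permL (MulAction.toPerm γ) (v n)⟫_ℂ).re) U (𝓝 1) := by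
      have h4 := (Complex.continuous_re.tendsto _).comp h
      simpa [Function.comp_def] using h4
    have h5 : Tendsto (fun n => ‖permL (MulAction.toPerm γ) (v n) - v n‖ ^ 2) U (𝓝 0) := by
      have e6 : ∀ n, ‖permL (MulAction.toPerm γ) (v n) - v n‖ ^ 2 =
          ‖v n‖ ^ 2 - 2 * (⟪v n, permL (MulAction.toPerm γ) (v n)⟫_ℂ).re + ‖v n‖ ^ 2 := by
        intro n
        rw [@norm_sub_sq ℂ, LinearIsometry.norm_map, inner_re_symm]
        rfl
      simp only [e6]
      have h7 := (hn2.sub (h3.const_mul 2)).add hn2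
      have e8 : (1 : ℝ) - 2 * 1 + 1 = 0 := by norm_num
      rw [e8] at h7
      exact h7
    have h6 := (Real.continuous_sqrt.tendsto _).comp h5
    simpa [Function.comp_def, Real.sqrt_sq] using h6
  -- the mass on the points with finite stabiliser
  set A : Set G := {z : G | {γ : Γ | γ • z = z}.Finite} with hAdef
  have hmass : Tendsto (fun n => ‖res A (absV (v n))‖ ^ 2) U (𝓝 0) := by
    simp only [norm_res_absV]
    exact h2 Γ G hA U v hn hinv
  have hmass2 : Tendsto (fun n => ‖res A (absV (v n))‖) U (𝓝 0) := by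
    have h6 := (Real.continuous_sqrt.tendsto _).comp hmass
    simpa [Function.comp_def, Real.sqrt_sq] using h6
  -- wandering
  have hw : ∀ x : K m Γ, x ≠ 1 → ∀ z : G, z ∈ A ∨ z * j (kin x) ∈ A := by
    intro x hx z
    by_contra hcon
    rw [not_or] at hcon
    refine hF (h1 m Γ G j hj z x hx ?_ ?_)
    · refine Set.Infinite.mono ?_ hcon.1
      intro γ hγ
      have h5 : γ • z = z := hγ
      rw [hsm, mul_inv_eq_iff_eq_mul] at h5
      exact h5
    · refine Set.Infinite.mono ?_ hcon.2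
      intro γ hγ
      have h5 : γ • (z * j (kin x)) = z * j (kin x) := hγ
      rw [hsm, mul_inv_eq_iff_eq_mul] at h5
      exact h5
  classical
  let φ : K m Γ →* G := j.comp SemidirectProduct.inl
  have hφ : ∀ b : K m Γ, φ b = j (kin b) := fun _ => rfl
  -- one Foelner pair
  have key : ∀ E F : Finset (K m Γ), (∀ y ∈ E, ∀ x ∈ T, y * x ∈ F) →
      ((E.card : ℝ) * ∑ x ∈ T, ‖a x‖) ^ 2 ≤ (E.card : ℝ) * (F.card : ℝ) := by
    intro E F hEF
    have hbound : ∀ n, ((E.card : ℝ) * ∑ x ∈ T,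
        ‖⟪v n, leftReg G (j (kin c)) (rightReg G (j (kin x)) (v n))⟫_ℂ‖) ^ 2 ≤
        ((E.card : ℝ) * ‖v n‖ ^ 2 + (E.card : ℝ) *
          ((E.card : ℝ) * (2 * ‖res A (absV (v n))‖ * ‖v n‖))) *
        ((F.card : ℝ) * ‖v n‖ ^ 2 + (F.card : ℝ) *
          ((F.card : ℝ) * (2 * ‖res A (absV (v n))‖ * ‖v n‖))) := by
      intro n
      have g1 : (E.card : ℝ) * ∑ x ∈ T,
          ‖⟪v n, leftReg G (j (kin c)) (rightReg G (j (kin x)) (v n))⟫_ℂ‖ ≤
          ‖∑ y ∈ E, rightReg G (φ y) (absV (v n))‖ *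
            ‖∑ u ∈ F, rightReg G (φ u) (absV (v n))‖ := by
        refine le_trans ?_ (Contra2.avg φ (j (kin c)) (v n) E F T hEF)
        refine mul_le_mul_of_nonneg_left ?_ (Nat.cast_nonneg _)
        exact Finset.sum_le_sum fun x _ => norm_inner_lr_le _ _ _
      have g0 : 0 ≤ (E.card : ℝ) * ∑ x ∈ T,
          ‖⟪v n, leftReg G (j (kin c)) (rightReg G (j (kin x)) (v n))⟫_ℂ‖ :=
        mul_nonneg (Nat.cast_nonneg _) (Finset.sum_nonneg fun _ _ => norm_nonneg _)
      refine (pow_le_pow_left₀ g0 g1 2).trans ?_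
      rw [mul_pow]
      have g2 := Contra2.norm_sum φ A (absV (v n)) (fun x hx z => hw x hx z) E
      have g3 := Contra2.norm_sum φ A (absV (v n)) (fun x hx z => hw x hx z) F
      rw [norm_absV] at g2 g3
      exact mul_le_mul g2 g3 (by positivity) ((sq_nonneg _).trans g2)
    have hlim1 : Tendsto (fun n => ((E.card : ℝ) * ∑ x ∈ T,
        ‖⟪v n, leftReg G (j (kin c)) (rightReg G (j (kin x)) (v n))⟫_ℂ‖) ^ 2) U
        (𝓝 (((E.card : ℝ) * ∑ x ∈ T, ‖a x‖) ^ 2)) :=
      ((tendsto_finsetSum _ fun x hx => (ha x hx).norm).const_mul _).pow 2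
    have hlim0 : ∀ E : Finset (K m Γ), Tendsto (fun n => (E.card : ℝ) * ‖v n‖ ^ 2 +
        (E.card : ℝ) * ((E.card : ℝ) * (2 * ‖res A (absV (v n))‖ * ‖v n‖))) U
        (𝓝 (E.card : ℝ)) := by
      intro E
      have g4 := (hn2.const_mul (E.card : ℝ)).add
        ((((hmass2.const_mul 2).mul hn).const_mul (E.card : ℝ)).const_mul (E.card : ℝ))
      simpa using g4
    exact le_of_tendsto_of_tendsto' hlim1 ((hlim0 E).mul (hlim0 F)) hbound
  -- growth
  by_contra hlt
  rw [not_le] at hlt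
  set s := ∑ x ∈ T, ‖a x‖ with hs
  refine Contra2.growth (fun N => ((Contra2.box T N).card : ℝ)) T.card (s ^ 2)
    (one_lt_pow₀ hlt two_ne_zero) ?_ ?_ ?_
  · have g1 : 0 < (Contra2.box T 0).card := Finset.card_pos.2 ⟨1, Contra2.one_mem_box T 0⟩
    exact_mod_cast g1
  · intro N
    have g1 : 0 < (Contra2.box T N).card := Finset.card_pos.2 ⟨1, Contra2.one_mem_box T N⟩
    have g2 : (0 : ℝ) < (Contra2.box T N).card := by exact_mod_cast g1
    have g3 := key (Contra2.box T N) (Contra2.box T (N + 1)) (Contra2.mul_mem_box T N)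
    have g4 : ((Contra2.box T N).card : ℝ) * (s ^ 2 * (Contra2.box T N).card) ≤
        ((Contra2.box T N).card : ℝ) * (Contra2.box T (N + 1)).card := by
      refine le_trans (le_of_eq ?_) g3
      ring
    exact le_of_mul_le_mul_left g4 g2
  · intro N
    have g1 := Contra2.card_box T N
    exact_mod_cast g1

end MP8a6869.WR
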