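import Pool.Agent.Work.MP_8a6869_an.WR.Stmts
import Pool.Agent.Work.MP_8a6869_an.Bd.B02

/-!
# MP_8a6869_an, wreath products, item COVG: the covariance of an involution of the group ring of
a subgroup
-/

namespace MP8a6869.WR.CovG

open scoped InnerProductSpace ComplexOrder
open MonoidAlgebra

noncomputable section

variable {H L : Type} [Group H] [Group L] (i : L →* H)

/-- The inclusion of the group ring of `L` into the group ring of `H`. -/
def Th : MonoidAlgebra ℂ L →⋆ₐ[ℂ] MonoidAlgebra ℂ H where
  toAlgHom := lift ℂ (MonoidAlgebra ℂ H) L ((of ℂ H).comp i)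
  map_star' b := by
    change lift ℂ (MonoidAlgebra ℂ H) L ((of ℂ H).comp i) (star b) =
      star (lift ℂ (MonoidAlgebra ℂ H) L ((of ℂ H).comp i) b)
    induction b using MonoidAlgebra.induction_linear with
    | zero => simp
    | add x y hx hy => rw [star_add, map_add, map_add, star_add, hx, hy]
    | single f c =>
      rw [star_single_ma, lift_single, lift_single, star_smul]
      simp only [MonoidHom.comp_apply, of_apply, star_single_ma, map_inv, star_one]

theorem Th_single (w : L) (c : ℂ) : Th i (single w c) = single (i w) c := by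
  have h : Th i (single w c) = c • (single (i w) 1 : MonoidAlgebra ℂ H) := lift_single _ _ _
  rw [h, smul_single, smul_eq_mul, mul_one]

theorem Th_coeff (hi : Function.Injective i) (y : MonoidAlgebra ℂ L) (w : L) :
    (Th i y).coeff (i w) = y.coeff w := by
  classical
  induction y using MonoidAlgebra.induction_linear with
  | zero => simp
  | add x y hx hy => rw [map_add, coeff_add, coeff_add, Finsupp.add_apply, Finsupp.add_apply,
      hx, hy]
  | single f c =>
    rw [Th_single, coeff_single, coeff_single, Finsupp.single_apply, Finsupp.single_apply]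
    by_cases h : f = w
    · rw [if_pos (by rw [h]), if_pos h]
    · rw [if_neg (fun h1 => h (hi h1)), if_neg h]

/-- The restriction of functions. -/
def P (hi : Function.Injective i) : MonoidAlgebra ℂ H →ₗ[ℂ] MonoidAlgebra ℂ L where
  toFun x := .ofCoeff (x.coeff.comapDomain i hi.injOn)
  map_add' x y := by
    ext w
    change (x + y).coeff (i w) = x.coeff (i w) + y.coeff (i w)
    rw [coeff_add, Finsupp.add_apply]
  map_smul' c x := by
    ext w
    change (c • x).coeff (i w) = c * x.coeff (i w)
    rw [coeff_smul_apply, smul_eq_mul]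

theorem P_coeff (hi : Function.Injective i) (x : MonoidAlgebra ℂ H) (w : L) :
    (P i hi x).coeff w = x.coeff (i w) := rfl

theorem P_single_range (hi : Function.Injective i) (w : L) (c : ℂ) :
    P i hi (single (i w) c) = single w c := by
  classical
  ext w'
  rw [P_coeff, coeff_single, coeff_single, Finsupp.single_apply, Finsupp.single_apply]
  by_cases h : w = w'
  · rw [if_pos (by rw [h]), if_pos h]
  · rw [if_neg (fun h1 => h (hi h1)), if_neg h]

theorem P_single_notMem (hi : Function.Injective i) (h : H) (hh : h ∉ Set.range i) (c : ℂ) :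
    P i hi (single h c) = 0 := by
  classical
  ext w'
  rw [P_coeff, coeff_single, Finsupp.single_apply, if_neg (fun h1 => hh ⟨w', h1.symm⟩)]
  rfl

/-- The conditional expectation pair. -/
def cpair (hi : Function.Injective i) : CondPair (trB H) (trB L) where
  Θ := Th i
  P := P i hi
  tr_Θ b := by
    change (Th i b).coeff 1 = b.coeff 1
    rw [← map_one i, Th_coeff i hi]
  adj x b := by
    induction b using MonoidAlgebra.induction_linear with
    | zero => simp
    | add y z hy hz => rw [mul_add, map_add, hy, hz, map_add, mul_add, map_add]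
    | single f c =>
      rw [Th_single]
      change (P i hi x * single f c).coeff 1 = (x * single (i f) c).coeff 1
      rw [coeff_mul_single_apply, coeff_mul_single_apply, P_coeff, one_mul, one_mul, map_inv]

variable {σ : MonoidAlgebra ℂ L →⋆ₐ[ℂ] MonoidAlgebra ℂ L}

theorem sig_tr (hτ : ∀ x, (σ x).coeff 1 = x.coeff 1) (x : MonoidAlgebra ℂ L) :
    (trB L).τ (σ x) = (trB L).τ x := hτ x

theorem sig_symm (hτ : ∀ x, (σ x).coeff 1 = x.coeff 1) (hσ : ∀ x, σ (σ x) = x)
    (x y : MonoidAlgebra ℂ L) : (trB L).τ (σ x * y) = (trB L).τ (x * σ y) := by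
  rw [← sig_tr hτ (σ x * y), map_mul σ, hσ]

theorem sig_conj (hτ : ∀ x, (σ x).coeff 1 = x.coeff 1) (hσ : ∀ x, σ (σ x) = x)
    (a x b : MonoidAlgebra ℂ L) :
    (trB L).τ (star a * σ x * b) = (trB L).τ (star (σ a) * x * σ b) := by
  rw [← sig_tr hτ (star a * σ x * b), map_mul σ, map_mul σ, hσ, map_star]

end

end MP8a6869.WR.CovG

namespace MP8a6869.WR

open scoped InnerProductSpace ComplexOrder
open MonoidAlgebra CovG

noncomputable section

/-- [COVG] The covariance of an involution of the group ring of a subgroup. -/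
theorem covG : CovGStmt := by
  intro H L _ _ i hi σ hτ hσ
  have hnd := trB_nondeg L
  set CP : CondPair (trB H) (trB L) := cpair i hi with hCP
  have hΘ : ∀ y, CP.Θ y = Th i y := fun _ => rfl
  have hP : ∀ y, CP.P y = P i hi y := fun _ => rfl
  let E : MonoidAlgebra ℂ H →ₗ[ℂ] MonoidAlgebra ℂ H :=
    CP.Θ.toAlgHom.toLinearMap ∘ₗ σ.toAlgHom.toLinearMap ∘ₗ CP.P
  have hE : ∀ x, E x = CP.Θ (σ (CP.P x)) := fun x => rfl
  have hdom : ∀ (n : Type) [Fintype n] [DecidableEq n] (X : Matrix n n (MonoidAlgebra ℂ L)),
      Dominated X := fun n _ _ X => dom.2.1 _ (dom.2.2 ℂ dom.1 _) n X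
  have hsw : ∀ x y : MonoidAlgebra ℂ H,
      (trB H).τ (CP.Θ (σ (CP.P x)) * y) = (trB L).τ (CP.P x * σ (CP.P y)) := by
    intro x y
    rw [(trB H).comm, ← CP.adj, (trB L).comm, sig_symm hτ hσ]
  refine ⟨⟨E, ?_, ?_, ?_, ?_⟩, ?_, ?_⟩
  · intro x
    rw [hE, hE, CP.P_star hnd, map_star, map_star]
  · rw [hE, CP.P_one hnd, map_one, map_one]
  · intro x y
    rw [hE, hE, hsw, CP.adj]
  · intro n _ K hK c
    classical
    have key : ∑ i, ∑ j, (trB H).τ (star (c i) * E (K i j) * c j) =
        ((trB L).mat n).τ (Matrix.of (fun i j => CP.P (K i j)) *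
          Matrix.of (fun j i => σ (CP.P (c j * star (c i))))) := by
      rw [TrAlg.mat_apply]
      simp only [Matrix.mul_apply, map_sum, Matrix.of_apply]
      refine Finset.sum_congr rfl fun i _ => Finset.sum_congr rfl fun j _ => ?_
      rw [hE, ← hsw, mul_assoc, (trB H).comm, mul_assoc]
    rw [key]
    refine psdt (Matrix n n (MonoidAlgebra ℂ L)) ((trB L).mat n) (fun X => hdom n X) _ _
      (TrAlg.mat_pos _ ?_) (TrAlg.mat_pos _ ?_)
    · intro b
      exact CP.P_pos K hK b
    · intro b
      have h := CP.P_pos (fun j i => c j * star (c i)) (fun d => ?_) fun j => σ (b j)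
      · refine le_of_le_of_eq h ?_
        refine Finset.sum_congr rfl fun j _ => Finset.sum_congr rfl fun i _ => ?_
        rw [Matrix.of_apply, sig_conj hτ hσ]
      have hz := (trB H).pos (∑ j, star (c j) * d j)
      refine le_of_le_of_eq hz ?_
      rw [star_sum, Finset.sum_mul, map_sum]
      refine Finset.sum_congr rfl fun i _ => ?_
      rw [Finset.mul_sum, map_sum]
      refine Finset.sum_congr rfl fun j _ => ?_
      rw [star_mul, star_star]
      simp only [mul_assoc]
  · intro w w'
    change (E (single (i w) 1)).coeff (i w') = _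
    rw [hE, hP, P_single_range, hΘ, Th_coeff i hi]
  · intro h hh
    change E (single h 1) = 0
    rw [hE, hP, P_single_notMem i hi h hh, map_zero, map_zero]

end

end MP8a6869.WR
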