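import Pool.Agent.Work.MP_8a6869_an.WR.Stmts2
import Pool.Agent.Work.MP_8a6869_an.WR.CovG

/-!
# MP_8a6869_an, wreath products, item COVH: a covariance of the group ring of a subgroup extends
by zero
-/

namespace MP8a6869.WR

open scoped InnerProductSpace ComplexOrder
open MonoidAlgebra CovG

noncomputable section

/-- [COVH] A covariance of the group ring of a subgroup extends by zero. -/
theorem covH : CovHStmt := by
  intro H L _ _ i hi C₀
  have hnd := trB_nondeg L
  set CP : CondPair (trB H) (trB L) := cpair i hi with hCP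
  have hΘ : ∀ y, CP.Θ y = Th i y := fun _ => rfl
  have hP : ∀ y, CP.P y = P i hi y := fun _ => rfl
  let E : MonoidAlgebra ℂ H →ₗ[ℂ] MonoidAlgebra ℂ H :=
    CP.Θ.toAlgHom.toLinearMap ∘ₗ C₀.E ∘ₗ CP.P
  have hE : ∀ x, E x = CP.Θ (C₀.E (CP.P x)) := fun x => rfl
  have hdom : ∀ (n : Type) [Fintype n] [DecidableEq n] (X : Matrix n n (MonoidAlgebra ℂ L)),
      Dominated X := fun n _ _ X => dom.2.1 _ (dom.2.2 ℂ dom.1 _) n X
  have hsw : ∀ x y : MonoidAlgebra ℂ H,
      (trB H).τ (CP.Θ (C₀.E (CP.P x)) * y) = (trB L).τ (C₀.E (CP.P x) * CP.P y) := by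
    intro x y
    rw [(trB H).comm, ← CP.adj, (trB L).comm]
  refine ⟨⟨E, ?_, ?_, ?_, ?_⟩, ?_, ?_⟩
  · intro x
    rw [hE, hE, CP.P_star hnd, C₀.E_star, map_star]
  · rw [hE, CP.P_one hnd, C₀.E_one, map_one]
  · intro x y
    rw [hE, hE, hsw, C₀.E_symm, CP.adj]
  · intro n _ K hK c
    classical
    have key : ∑ i, ∑ j, (trB H).τ (star (c i) * E (K i j) * c j) =
        ((trB L).mat n).τ (Matrix.of (fun i j => C₀.E (CP.P (K i j))) *
          Matrix.of (fun j i => CP.P (c j * star (c i)))) := by
      rw [TrAlg.mat_apply]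
      simp only [Matrix.mul_apply, map_sum, Matrix.of_apply]
      refine Finset.sum_congr rfl fun i _ => Finset.sum_congr rfl fun j _ => ?_
      rw [hE, ← hsw, mul_assoc, (trB H).comm, mul_assoc]
    rw [key]
    refine psdt (Matrix n n (MonoidAlgebra ℂ L)) ((trB L).mat n) (fun X => hdom n X) _ _
      (TrAlg.mat_pos _ ?_) (TrAlg.mat_pos _ ?_)
    · intro b
      exact C₀.E_cp n (fun i j => CP.P (K i j)) (fun d => CP.P_pos K hK d) b
    · intro b
      refine CP.P_pos (fun j i => c j * star (c i)) (fun d => ?_) b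
      have hz := (trB H).pos (∑ j, star (c j) * d j)
      refine le_of_le_of_eq hz ?_
      rw [star_sum, Finset.sum_mul, map_sum]
      refine Finset.sum_congr rfl fun i _ => ?_
      rw [Finset.mul_sum, map_sum]
      refine Finset.sum_congr rfl fun j _ => ?_
      rw [star_mul, star_star]
      simp only [mul_assoc]
  · intro w w'
    change (E (single (i w) 1)).coeff (i w') = _
    rw [hE, hP, P_single_range, hΘ, Th_coeff i hi]
  · intro h hh
    change E (single h 1) = 0
    rw [hE, hP, P_single_notMem i hi h hh, map_zero, map_zero]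

end

end MP8a6869.WR
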