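import Pool.Agent.Work.MP_8a6869_an.WR.Stmts2

/-!
# MP_8a6869_an, wreath products, item COVZ: the covariance of `ℂ[⊕_Γ ℤ]`
-/

namespace MP8a6869.WR

open scoped InnerProductSpace ComplexOrder
open MonoidAlgebra Filter Topology

noncomputable section

namespace CovZ

variable {Γ : Type}

/-- `n` at the site `s`. -/
def site (s : Γ) (n : ZMod 0) : K 0 Γ := Multiplicative.ofAdd (Finsupp.single s n)

/-- The basis element of `k`. -/
def sg (k : K 0 Γ) : CK 0 Γ := single k 1

theorem sg_mul (k l : K 0 Γ) : sg k * sg l = sg (k * l) := by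
  rw [sg, sg, sg, single_mul_single, one_mul]

theorem sg_one : sg (1 : K 0 Γ) = 1 := by rw [sg, one_def]

theorem site_mul (s : Γ) (m n : ZMod 0) : site s m * site s n = site s (m + n) := by
  rw [site, site, site, ← ofAdd_add, ← Finsupp.single_add]

theorem site_zero (s : Γ) : site s 0 = 1 := by
  rw [site, Finsupp.single_zero, ofAdd_zero]

theorem site_inv (s : Γ) (n : ZMod 0) : (site s n)⁻¹ = site s (-n) := by
  rw [site, site, ← ofAdd_neg, ← Finsupp.single_neg]

theorem site_inj {s : Γ} {m n : ZMod 0} : site s m = site s n ↔ m = n := by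
  rw [site, site, Multiplicative.ofAdd.injective.eq_iff]
  exact (Finsupp.single_injective s).eq_iff

theorem star_sg (k : K 0 Γ) : star (sg k) = sg k⁻¹ := by
  rw [sg, star_single_ma, star_one, sg]

theorem star_mul_ck {m : ℕ} {Γ : Type} (x y : CK m Γ) : star (x * y) = star x * star y := by
  rw [mul_comm]
  exact star_mul y x

theorem star_smul_ck {m : ℕ} {Γ : Type} (c : ℂ) (x : CK m Γ) :
    star (c • x) = star c • star x :=
  star_smul c x

theorem star_add_ck {m : ℕ} {Γ : Type} (x y : CK m Γ) : star (x + y) = star x + star y :=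
  star_add x y

theorem star_sub_ck {m : ℕ} {Γ : Type} (x y : CK m Γ) : star (x - y) = star x - star y :=
  star_sub x y

theorem star_zero_ck {m : ℕ} {Γ : Type} : star (0 : CK m Γ) = 0 := by
  have h := star_smul_ck (0 : ℂ) (0 : CK m Γ)
  rwa [zero_smul, star_zero, zero_smul] at h

theorem star_one_ck {m : ℕ} {Γ : Type} : star (1 : CK m Γ) = 1 := by
  rw [one_def, star_single_ma, inv_one, star_one]

theorem star_sum_ck {m : ℕ} {Γ ι : Type} (S : Finset ι) (f : ι → CK m Γ) :
    star (∑ i ∈ S, f i) = ∑ i ∈ S, star (f i) := by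
  classical
  induction S using Finset.induction_on with
  | empty => rw [Finset.sum_empty, Finset.sum_empty, star_zero_ck]
  | insert s S hs ih => rw [Finset.sum_insert hs, Finset.sum_insert hs, star_add_ck, ih]

/-! ## The elements at one site -/

def a (s : Γ) : CK 0 Γ := (-Complex.I / 2) • (sg (site s 2) - sg (site s (-2)))

def b (s : Γ) : CK 0 Γ := (1 / 2 : ℂ) • (sg (site s 2) + sg (site s (-2)))

def p (s : Γ) : CK 0 Γ := (1 / 2 : ℂ) • 1 - (1 / 4 : ℂ) • (sg (site s 4) + sg (site s (-4)))

def q (s : Γ) : CK 0 Γ := (1 / 2 : ℂ) • 1 + (1 / 4 : ℂ) • (sg (site s 4) + sg (site s (-4)))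

theorem two_sq (s : Γ) : sg (site s 2) * sg (site s 2) = sg (site s 4) := by
  rw [sg_mul, site_mul]; norm_num

theorem two_neg (s : Γ) : sg (site s 2) * sg (site s (-2)) = 1 := by
  rw [sg_mul, site_mul, add_neg_cancel, site_zero, sg_one]

theorem neg_sq' (s : Γ) : sg (site s (-2)) * sg (site s (-2)) = sg (site s (-4)) := by
  rw [sg_mul, site_mul]; norm_num

theorem a_sq (s : Γ) : a s * a s = p s := by
  have h1 := two_sq s
  have h2 := two_neg s
  have h3 := neg_sq' s
  rw [a, p, smul_mul_smul_comm]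
  have h4 : (-Complex.I / 2) * (-Complex.I / 2) = -(1 / 4 : ℂ) := by
    rw [div_mul_div_comm, neg_mul_neg, Complex.I_mul_I]; norm_num
  have h5 : (sg (site s 2) - sg (site s (-2))) * (sg (site s 2) - sg (site s (-2))) =
      sg (site s 4) + sg (site s (-4)) - (2 : ℂ) • 1 := by
    rw [Algebra.smul_def, map_ofNat]
    linear_combination h1 + h3 - 2 * h2
  rw [h4, h5, smul_sub, smul_smul, neg_smul]
  norm_num
  abel

theorem b_sq (s : Γ) : b s * b s = q s := by
  have h1 := two_sq s
  have h2 := two_neg s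
  have h3 := neg_sq' s
  rw [b, q, smul_mul_smul_comm]
  have h5 : (sg (site s 2) + sg (site s (-2))) * (sg (site s 2) + sg (site s (-2))) =
      sg (site s 4) + sg (site s (-4)) + (2 : ℂ) • 1 := by
    rw [Algebra.smul_def, map_ofNat]
    linear_combination h1 + h3 + 2 * h2
  rw [h5, smul_add, smul_smul]
  norm_num
  abel

theorem star_a (s : Γ) : star (a s) = a s := by
  rw [a, star_smul_ck, star_sub_ck, star_sg, star_sg, site_inv, site_inv, neg_neg]
  have h : star (-Complex.I / 2 : ℂ) = -(-Complex.I / 2) := by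
    simp only [star_div₀, star_neg, Complex.star_def, Complex.conj_I, map_ofNat]
    ring
  rw [h, neg_smul, ← smul_neg, neg_sub]

theorem star_b (s : Γ) : star (b s) = b s := by
  rw [b, star_smul_ck, star_add_ck, star_sg, star_sg, site_inv, site_inv, neg_neg]
  have h : star (1 / 2 : ℂ) = 1 / 2 := by simp
  rw [h, add_comm]

theorem p_add_q (s : Γ) : p s + q s = 1 := by
  rw [p, q, sub_add_add_cancel, ← add_smul]
  norm_num

/-- The image of the generator to the power `n`. -/
def phi (s : Γ) (n : ZMod 0) : CK 0 Γ := q s * sg (site s (-n)) + p s * sg (site s n)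

theorem phi_zero (s : Γ) : phi s 0 = 1 := by
  rw [phi, neg_zero, site_zero, sg_one, mul_one, mul_one, add_comm, p_add_q]

/-! ## The automorphisms -/

open Classical in
/-- Inversion of the coordinates in `R`. -/
def inv (R : Finset Γ) : K 0 Γ →* K 0 Γ :=
  AddMonoidHom.toMultiplicative
    (AddMonoidHom.id (Γ →₀ ZMod 0) - 2 • Finsupp.filterAddHom (fun s => s ∈ R))

open Classical in
theorem inv_apply (R : Finset Γ) (k : K 0 Γ) (s : Γ) :
    (inv R k).toAdd s = if s ∈ R then -(k.toAdd s) else k.toAdd s := by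
  change (k.toAdd - 2 • Finsupp.filter (fun s => s ∈ R) k.toAdd) s = _
  rw [Finsupp.sub_apply, Finsupp.smul_apply, Finsupp.filter_apply]
  by_cases h : s ∈ R
  · simp only [h, if_true]; rw [two_nsmul]; abel
  · simp only [h, if_false]; simp

theorem inv_inv' (R : Finset Γ) (k : K 0 Γ) : inv R (inv R k) = k := by
  apply Multiplicative.toAdd.injective
  ext s
  rw [inv_apply, inv_apply]
  by_cases h : s ∈ R <;> simp [h]

theorem inv_injective (R : Finset Γ) : Function.Injective (inv R) := fun k l h => by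
  rw [← inv_inv' R k, h, inv_inv']

open Classical in
theorem inv_site (R : Finset Γ) (s : Γ) (n : ZMod 0) :
    inv R (site s n) = site s (if s ∈ R then -n else n) := by
  apply Multiplicative.toAdd.injective
  ext t
  rw [inv_apply]
  simp only [site, toAdd_ofAdd, Finsupp.single_apply]
  by_cases h : s = t
  · subst h; by_cases h2 : s ∈ R <;> simp [h2]
  · by_cases h2 : t ∈ R <;> simp [h, h2]

/-- The automorphism of the group ring. -/
def al (R : Finset Γ) : CK 0 Γ →ₐ[ℂ] CK 0 Γ := mapDomainAlgHom ℂ ℂ (inv R)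

theorem al_single (R : Finset Γ) (k : K 0 Γ) (z : ℂ) :
    al R (single k z) = single (inv R k) z := by
  simp [al]

theorem al_sg (R : Finset Γ) (k : K 0 Γ) : al R (sg k) = sg (inv R k) := al_single R k 1

theorem al_al (R : Finset Γ) (x : CK 0 Γ) : al R (al R x) = x := by
  induction x using MonoidAlgebra.induction_linear with
  | zero => simp
  | add x y hx hy => rw [map_add, map_add, hx, hy]
  | single k z => rw [al_single, al_single, inv_inv']

theorem al_star (R : Finset Γ) (x : CK 0 Γ) : al R (star x) = star (al R x) := by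
  induction x using MonoidAlgebra.induction_linear with
  | zero => rw [star_zero_ck, map_zero, star_zero_ck]
  | add x y hx hy => rw [star_add_ck, map_add, map_add, hx, hy, star_add_ck]
  | single k z => rw [star_single_ma, al_single, al_single, star_single_ma, map_inv]

theorem al_tr (R : Finset Γ) (x : CK 0 Γ) : (trB (K 0 Γ)).τ (al R x) = (trB (K 0 Γ)).τ x := by
  induction x using MonoidAlgebra.induction_linear with
  | zero => simp
  | add x y hx hy => rw [map_add, map_add, map_add, hx, hy]
  | single k z =>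
    rw [al_single]
    change (single (inv R k) z : CK 0 Γ).coeff 1 = (single k z : CK 0 Γ).coeff 1
    classical
    rw [coeff_single, coeff_single, Finsupp.single_apply, Finsupp.single_apply]
    by_cases h : k = 1
    · rw [if_pos h, if_pos (by rw [h, map_one])]
    · rw [if_neg h, if_neg (fun h2 => h (inv_injective R (by rw [h2, map_one])))]

theorem al_q (R : Finset Γ) (s : Γ) : al R (q s) = q s := by
  rw [q, map_add, map_smul, map_smul, map_one, map_add, al_sg, al_sg, inv_site, inv_site]
  by_cases h : s ∈ R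
  · simp only [h, if_true, neg_neg]; rw [add_comm (sg (site s (-4)))]
  · simp only [h, if_false]

theorem al_p (R : Finset Γ) (s : Γ) : al R (p s) = p s := by
  rw [p, map_sub, map_smul, map_smul, map_one, map_add, al_sg, al_sg, inv_site, inv_site]
  by_cases h : s ∈ R
  · simp only [h, if_true, neg_neg]; rw [add_comm (sg (site s (-4)))]
  · simp only [h, if_false]

/-! ## The weights -/

open Classical in
/-- The square root of the weight of `R ⊆ S`. -/
def wt (S R : Finset Γ) : CK 0 Γ := (∏ s ∈ R, b s) * ∏ s ∈ S \ R, a s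

theorem star_prod_ck (S : Finset Γ) (f : Γ → CK 0 Γ) (h : ∀ s, star (f s) = f s) :
    star (∏ s ∈ S, f s) = ∏ s ∈ S, f s := by
  classical
  induction S using Finset.induction_on with
  | empty => rw [Finset.prod_empty, star_one_ck]
  | insert s S hs ih => rw [Finset.prod_insert hs, star_mul_ck, ih, h]

theorem star_wt (S R : Finset Γ) : star (wt S R) = wt S R := by
  rw [wt, star_mul_ck, star_prod_ck _ _ star_b, star_prod_ck _ _ star_a]

open Classical in
theorem wt_sq (S R : Finset Γ) :
    wt S R * wt S R = (∏ s ∈ R, q s) * ∏ s ∈ S \ R, p s := by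
  rw [wt, mul_mul_mul_comm, ← Finset.prod_mul_distrib, ← Finset.prod_mul_distrib]
  simp only [b_sq, a_sq]

theorem al_wt_sq (R' S R : Finset Γ) : al R' (wt S R * wt S R) = wt S R * wt S R := by
  rw [wt_sq, map_mul, map_prod, map_prod]
  simp only [al_q, al_p]

/-- The completely positive map attached to `S`. -/
def ES (S : Finset Γ) (x : CK 0 Γ) : CK 0 Γ :=
  ∑ R ∈ S.powerset, wt S R * wt S R * al R x

theorem ES_add (S : Finset Γ) (x y : CK 0 Γ) : ES S (x + y) = ES S x + ES S y := by
  simp only [ES, map_add, mul_add, Finset.sum_add_distrib]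

theorem ES_smul (S : Finset Γ) (c : ℂ) (x : CK 0 Γ) : ES S (c • x) = c • ES S x := by
  simp only [ES, map_smul, mul_smul_comm, Finset.smul_sum]

theorem ES_star (S : Finset Γ) (x : CK 0 Γ) : ES S (star x) = star (ES S x) := by
  rw [ES, ES, star_sum_ck]
  refine Finset.sum_congr rfl fun R _ => ?_
  rw [star_mul_ck, star_mul_ck, star_wt, al_star]

theorem ES_symm (S : Finset Γ) (x y : CK 0 Γ) :
    (trB (K 0 Γ)).τ (ES S x * y) = (trB (K 0 Γ)).τ (x * ES S y) := by
  rw [ES, ES, Finset.sum_mul, Finset.mul_sum, map_sum, map_sum]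
  refine Finset.sum_congr rfl fun R _ => ?_
  have h : al R (wt S R * wt S R * al R x * y) = wt S R * wt S R * x * al R y := by
    rw [map_mul, map_mul, al_wt_sq, al_al]
  rw [← al_tr R, h]
  congr 1
  ring

theorem ES_cp (S : Finset Γ) (n : Type) [Fintype n] (H : n → n → CK 0 Γ)
    (hH : ∀ c : n → CK 0 Γ, 0 ≤ ∑ i, ∑ j, (trB (K 0 Γ)).τ (star (c i) * H i j * c j))
    (c : n → CK 0 Γ) : 0 ≤ ∑ i, ∑ j, (trB (K 0 Γ)).τ (star (c i) * ES S (H i j) * c j) := by
  have h1 : ∀ i j, (trB (K 0 Γ)).τ (star (c i) * ES S (H i j) * c j) =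
      ∑ R ∈ S.powerset, (trB (K 0 Γ)).τ
        (star (al R (wt S R * c i)) * H i j * al R (wt S R * c j)) := by
    intro i j
    rw [ES, Finset.mul_sum, Finset.sum_mul, map_sum]
    refine Finset.sum_congr rfl fun R _ => ?_
    have h : al R (star (al R (wt S R * c i)) * H i j * al R (wt S R * c j)) =
        wt S R * star (c i) * al R (H i j) * (wt S R * c j) := by
      rw [map_mul, map_mul, al_star, al_al, al_al, star_mul_ck, star_wt]
    rw [← al_tr R (star (al R (wt S R * c i)) * H i j * al R (wt S R * c j)), h]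
    congr 1
    ring
  have h2 : ∑ i, ∑ j, (trB (K 0 Γ)).τ (star (c i) * ES S (H i j) * c j) =
      ∑ R ∈ S.powerset, ∑ i, ∑ j, (trB (K 0 Γ)).τ
        (star (al R (wt S R * c i)) * H i j * al R (wt S R * c j)) := by
    simp only [h1]
    rw [Finset.sum_comm (s := S.powerset)]
    refine Finset.sum_congr rfl fun i _ => ?_
    rw [Finset.sum_comm]
  rw [h2]
  exact Finset.sum_nonneg fun R _ => hH fun i => al R (wt S R * c i)

/-! ## The map -/

/-- The image of a basis element. -/
def Phi (k : K 0 Γ) : CK 0 Γ := k.toAdd.prod fun s n => phi s n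

theorem Phi_eq (k : K 0 Γ) (S : Finset Γ) (h : k.toAdd.support ⊆ S) :
    Phi k = ∏ s ∈ S, phi s (k.toAdd s) :=
  Finsupp.prod_of_support_subset _ h _ fun s _ => phi_zero s

/-- The covariance. -/
def E : CK 0 Γ →ₗ[ℂ] CK 0 Γ where
  toFun x := x.coeff.sum fun k z => z • Phi k
  map_add' x y := by
    rw [coeff_add, Finsupp.sum_add_index']
    · intro k; rw [zero_smul]
    · intro k z w; rw [add_smul]
  map_smul' c x := by
    rw [coeff_smul, Finsupp.sum_smul_index, RingHom.id_apply, Finsupp.smul_sum]
    · simp only [smul_smul]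
    · intro k; rw [zero_smul]

theorem E_single (k : K 0 Γ) (z : ℂ) : E (single k z) = z • Phi k := by
  change ((single k z : CK 0 Γ).coeff.sum fun k z => z • Phi k) = _
  rw [coeff_single, Finsupp.sum_single_index]
  rw [zero_smul]

theorem sg_prod (S : Finset Γ) (f : Γ → K 0 Γ) : ∏ s ∈ S, sg (f s) = sg (∏ s ∈ S, f s) := by
  classical
  induction S using Finset.induction_on with
  | empty => rw [Finset.prod_empty, Finset.prod_empty, sg_one]
  | insert s S hs ih => rw [Finset.prod_insert hs, Finset.prod_insert hs, ih, sg_mul]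

theorem prod_site (S : Finset Γ) (k : K 0 Γ) (h : k.toAdd.support ⊆ S) :
    ∏ s ∈ S, site s (k.toAdd s) = k := by
  have h1 : ∏ s ∈ S, site s (k.toAdd s) =
      Multiplicative.ofAdd (∑ s ∈ S, Finsupp.single s (k.toAdd s)) := by
    rw [ofAdd_sum]
    rfl
  rw [h1, ← Finsupp.sum_of_support_subset _ h _ (fun s _ => Finsupp.single_zero s),
    Finsupp.sum_single, ofAdd_toAdd]

theorem inv_support (R : Finset Γ) (k : K 0 Γ) : (inv R k).toAdd.support ⊆ k.toAdd.support := by
  intro s hs
  rw [Finsupp.mem_support_iff, inv_apply] at hs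
  rw [Finsupp.mem_support_iff]
  intro h
  apply hs
  rw [h]
  simp

theorem Phi_ES (k : K 0 Γ) (S : Finset Γ) (h : k.toAdd.support ⊆ S) : Phi k = ES S (sg k) := by
  classical
  rw [Phi_eq k S h, ES]
  simp only [phi]
  rw [Finset.prod_add]
  refine Finset.sum_congr rfl fun R hR => ?_
  have hR' : R ⊆ S := Finset.mem_powerset.1 hR
  rw [wt_sq, al_sg, Finset.prod_mul_distrib, Finset.prod_mul_distrib, mul_mul_mul_comm,
    sg_prod, sg_prod, sg_mul]
  have h1 : ∏ s ∈ S, site s ((inv R k).toAdd s) = inv R k :=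
    prod_site S _ ((inv_support R k).trans h)
  have h2 : (∏ s ∈ R, site s (-(k.toAdd s))) * ∏ s ∈ S \ R, site s (k.toAdd s) = inv R k := by
    rw [← h1, ← Finset.prod_sdiff hR', mul_comm]
    congr 1
    · refine Finset.prod_congr rfl fun s hs => ?_
      rw [inv_apply, if_neg (Finset.mem_sdiff.1 hs).2]
    · refine Finset.prod_congr rfl fun s hs => ?_
      rw [inv_apply, if_pos hs]
  rw [h2]

/-- The sites of an element. -/
def sites (x : CK 0 Γ) : Finset Γ := by
  classical exact x.coeff.support.biUnion fun k => k.toAdd.support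

theorem ES_sum {ι : Type} (S : Finset Γ) (T : Finset ι) (f : ι → CK 0 Γ) :
    ES S (∑ i ∈ T, f i) = ∑ i ∈ T, ES S (f i) := by
  simp only [ES, map_sum, Finset.mul_sum]
  rw [Finset.sum_comm]

theorem E_ES (x : CK 0 Γ) (S : Finset Γ) (h : sites x ⊆ S) : E x = ES S x := by
  classical
  have h0 : ∑ k ∈ x.coeff.support, single k (x.coeff k) = x := sum_coeff_single x
  change ∑ k ∈ x.coeff.support, x.coeff k • Phi k = _
  conv_rhs => rw [← h0]
  rw [ES_sum]
  refine Finset.sum_congr rfl fun k hk => ?_
  have h1 : single k (x.coeff k) = x.coeff k • sg k := by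
    rw [sg, smul_single, smul_eq_mul, mul_one]
  rw [h1, ES_smul, Phi_ES k S]
  refine Finset.Subset.trans ?_ h
  intro s hs
  exact Finset.mem_biUnion.2 ⟨k, hk, hs⟩

theorem E_one : E (1 : CK 0 Γ) = 1 := by
  rw [one_def, E_single, one_smul, Phi_eq 1 ∅ (by simp), Finset.prod_empty, one_def]

/-- The covariance as a `Cov`. -/
def C₀ (Γ : Type) : Cov (trB (K 0 Γ)) where
  E := E
  E_star x := by
    classical
    rw [E_ES (star x) (sites x ∪ sites (star x)) Finset.subset_union_right,
      E_ES x (sites x ∪ sites (star x)) Finset.subset_union_left, ES_star]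
  E_one := E_one
  E_symm x y := by
    classical
    rw [E_ES x (sites x ∪ sites y) Finset.subset_union_left,
      E_ES y (sites x ∪ sites y) Finset.subset_union_right, ES_symm]
  E_cp n _ H hH c := by
    classical
    let S : Finset Γ := Finset.univ.biUnion fun i => Finset.univ.biUnion fun j => sites (H i j)
    have h : ∀ i j, E (H i j) = ES S (H i j) := fun i j => E_ES _ _ fun s hs =>
      Finset.mem_biUnion.2 ⟨i, Finset.mem_univ _, Finset.mem_biUnion.2 ⟨j, Finset.mem_univ _, hs⟩⟩
    simp only [h]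
    exact ES_cp S n H hH c

/-! ## Equivariance -/

section Equiv

variable [Group Γ]

theorem shift_site (γ s : Γ) (n : ZMod 0) : shift 0 Γ γ (site s n) = site (γ * s) n := by
  apply Multiplicative.toAdd.injective
  classical
  ext t
  rw [shift_apply]
  simp only [site, toAdd_ofAdd, Finsupp.single_apply]
  congr 1
  rw [eq_inv_mul_iff_mul_eq]

/-- The translation of the group ring. -/
def sh (γ : Γ) : CK 0 Γ →ₐ[ℂ] CK 0 Γ := mapDomainAlgHom ℂ ℂ (shift 0 Γ γ : K 0 Γ →* K 0 Γ)

theorem sh_sg (γ : Γ) (k : K 0 Γ) : sh γ (sg k) = sg (shift 0 Γ γ k) := by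
  simp [sh, sg]

theorem sh_phi (γ s : Γ) (n : ZMod 0) : sh γ (phi s n) = phi (γ * s) n := by
  simp only [phi, q, p, map_add, map_mul, map_sub, map_smul, map_one, sh_sg, shift_site]

theorem sh_coeff (γ : Γ) (x : CK 0 Γ) (l : K 0 Γ) :
    (sh γ x).coeff (shift 0 Γ γ l) = x.coeff l := by
  change (mapDomain (shift 0 Γ γ) x).coeff (shift 0 Γ γ l) = _
  rw [coeff_mapDomain, Finsupp.mapDomain_apply (shift 0 Γ γ).injective]

theorem sh_Phi (γ : Γ) (k : K 0 Γ) : Phi (shift 0 Γ γ k) = sh γ (Phi k) := by
  classical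
  rw [Phi_eq (shift 0 Γ γ k) (k.toAdd.support.map (mulLeftEmbedding γ)) ?_,
    Phi_eq k _ (Finset.Subset.refl _), Finset.prod_map, map_prod]
  · refine Finset.prod_congr rfl fun s _ => ?_
    rw [sh_phi, shift_apply]
    simp
  · intro s hs
    rw [Finsupp.mem_support_iff, shift_apply] at hs
    exact Finset.mem_map.2 ⟨γ⁻¹ * s, Finsupp.mem_support_iff.2 hs, by simp⟩

end Equiv

/-! ## The norm -/

theorem site_support (s : Γ) (n : ZMod 0) : (site s n).toAdd.support ⊆ {s} :=
  Finsupp.support_single_subset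

theorem sg_coeff (s : Γ) (m n : ZMod 0) :
    (sg (site s m)).coeff (site s n) = if m = n then 1 else 0 := by
  classical
  rw [sg, coeff_single, Finsupp.single_apply]
  exact if_congr site_inj rfl rfl

theorem norm_gt (s : Γ) :
    1 < ∑ k ∈ (E (single (gen 0 s) 1)).coeff.support,
      ‖(E (single (gen 0 s) 1)).coeff k‖ := by
  classical
  have h1 : gen 0 s = site s 1 := rfl
  have h2 : E (single (gen 0 s) 1) = q s * sg (site s (-1)) + p s * sg (site s 1) := by
    rw [h1, E_single, one_smul, Phi_eq _ {s} (site_support s 1), Finset.prod_singleton, phi]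
    simp [site]
  have h3 : E (single (gen 0 s) 1) = (1 / 2 : ℂ) • sg (site s (-1)) +
      (1 / 4 : ℂ) • (sg (site s 3) + sg (site s (-5))) + ((1 / 2 : ℂ) • sg (site s 1) -
      (1 / 4 : ℂ) • (sg (site s 5) + sg (site s (-3)))) := by
    rw [h2, q, p, add_mul, sub_mul]
    simp only [smul_mul_assoc, add_mul, one_mul, sg_mul, site_mul]
    norm_num
  have h4 : ∀ n : ZMod 0, (E (single (gen 0 s) 1)).coeff (site s n) =
      1 / 2 * (if (-1 : ZMod 0) = n then 1 else 0) + 1 / 4 * ((if (3 : ZMod 0) = n then 1 else 0) +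
      (if (-5 : ZMod 0) = n then 1 else 0)) + (1 / 2 * (if (1 : ZMod 0) = n then 1 else 0) -
      1 / 4 * ((if (5 : ZMod 0) = n then 1 else 0) + (if (-3 : ZMod 0) = n then 1 else 0))) := by
    intro n
    rw [h3]
    simp only [coeff_add, coeff_sub, coeff_smul, Finsupp.add_apply, Finsupp.sub_apply,
      Finsupp.smul_apply, sg_coeff, smul_eq_mul]
  have d1 : (E (single (gen 0 s) 1)).coeff (site s 1) = 1 / 2 := by
    rw [h4, if_neg (by decide), if_neg (by decide), if_neg (by decide), if_pos rfl,
      if_neg (by decide), if_neg (by decide)]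
    norm_num
  have d2 : (E (single (gen 0 s) 1)).coeff (site s (-1)) = 1 / 2 := by
    rw [h4, if_pos rfl, if_neg (by decide), if_neg (by decide), if_neg (by decide),
      if_neg (by decide), if_neg (by decide)]
    norm_num
  have d3 : (E (single (gen 0 s) 1)).coeff (site s 3) = 1 / 4 := by
    rw [h4, if_neg (by decide), if_pos rfl, if_neg (by decide), if_neg (by decide),
      if_neg (by decide), if_neg (by decide)]
    norm_num
  have hsub : ({site s 1, site s (-1), site s 3} : Finset (K 0 Γ)) ⊆
      (E (single (gen 0 s) 1)).coeff.support := by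
    intro k hk
    rw [Finset.mem_insert, Finset.mem_insert, Finset.mem_singleton] at hk
    rw [Finsupp.mem_support_iff]
    rcases hk with h | h | h
    · rw [h, d1]; norm_num
    · rw [h, d2]; norm_num
    · rw [h, d3]; norm_num
  refine lt_of_lt_of_le ?_ (Finset.sum_le_sum_of_subset_of_nonneg hsub
    fun k _ _ => norm_nonneg _)
  rw [Finset.sum_insert, Finset.sum_insert, Finset.sum_singleton, d1, d2, d3]
  · norm_num
  · rw [Finset.mem_singleton, site_inj]; decide
  · rw [Finset.mem_insert, Finset.mem_singleton, site_inj, site_inj]; decide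

end CovZ

theorem covZ : CovZStmt := by
  intro Γ _
  refine ⟨CovZ.C₀ Γ, ?_, CovZ.norm_gt 1⟩
  intro γ k l
  change (CovZ.E _).coeff _ = (CovZ.E _).coeff _
  rw [CovZ.E_single, CovZ.E_single, one_smul, one_smul, CovZ.sh_Phi, CovZ.sh_coeff]

end

end MP8a6869.WR
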