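import Pool.Agent.Work.MP_8a6869_an.WR.Stmts

/-!
# MP_8a6869_an, wreath products, item AUTW: from `β` to the involution `σ` of `ℂ[W]`
-/

namespace MP8a6869.WR

open scoped ComplexOrder
open MonoidAlgebra

noncomputable section

namespace AutW

variable {m : ℕ} {Γ : Type} [Group Γ]

/-- The inclusion `ℂ[⊕_Γ ℤ/m] → ℂ[W]`. -/
def iota (m : ℕ) (Γ : Type) [Group Γ] : CK m Γ →ₐ[ℂ] MonoidAlgebra ℂ (W m Γ) :=
  MonoidAlgebra.mapDomainAlgHom ℂ ℂ (SemidirectProduct.inl : K m Γ →* W m Γ)

theorem iota_single (k : K m Γ) (c : ℂ) : iota m Γ (single k c) = single (kin k) c := by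
  change MonoidAlgebra.mapDomain _ (single k c) = _
  rw [mapDomain_single]

theorem iota_coeff (x : CK m Γ) (l : K m Γ) : (iota m Γ x).coeff (kin l) = x.coeff l := by
  change (Finsupp.mapDomain _ x.coeff) (SemidirectProduct.inl l) = _
  exact Finsupp.mapDomain_apply SemidirectProduct.inl_injective _ _

theorem iota_coeff_ne (x : CK m Γ) (w : W m Γ) (hw : w.right ≠ 1) :
    (iota m Γ x).coeff w = 0 := by
  change (Finsupp.mapDomain _ x.coeff) w = _
  refine Finsupp.mapDomain_of_notMem_range _ _ ?_
  rintro ⟨k, rfl⟩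
  exact hw rfl

theorem iota_star (x : CK m Γ) : iota m Γ (star x) = star (iota m Γ x) := by
  induction x using MonoidAlgebra.induction_linear with
  | zero =>
    have h0 : star (0 : CK m Γ) = 0 := by
      ext g; rw [star_coeff]; simp
    rw [h0, map_zero, star_zero]
  | add x y hx hy => rw [star_add_ma, map_add, map_add, star_add_ma, hx, hy]
  | single k c =>
    rw [star_single_ma, iota_single, iota_single, star_single_ma, ← map_inv]

/-- The translation of `ℂ[⊕_Γ ℤ/m]`. -/
def sh (γ : Γ) : CK m Γ →ₐ[ℂ] CK m Γ :=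
  MonoidAlgebra.mapDomainAlgHom ℂ ℂ (shift m Γ γ : K m Γ →* K m Γ)

theorem sh_single (γ : Γ) (k : K m Γ) (c : ℂ) :
    sh γ (single k c : CK m Γ) = single (shift m Γ γ k) c := by
  change MonoidAlgebra.mapDomain _ (single k c) = _
  rw [mapDomain_single]
  rfl

theorem sh_coeff (γ : Γ) (x : CK m Γ) (l : K m Γ) :
    (sh γ x).coeff (shift m Γ γ l) = x.coeff l := by
  change (Finsupp.mapDomain _ x.coeff) (shift m Γ γ l) = _
  exact Finsupp.mapDomain_apply (shift m Γ γ).injective _ _

/-- The unitary of `γ`. -/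
def gg (γ : Γ) : MonoidAlgebra ℂ (W m Γ) := single (gin γ) 1

theorem gg_one : (gg 1 : MonoidAlgebra ℂ (W m Γ)) = 1 := by
  rw [gg, one_def, gin, map_one]

theorem gg_mul (γ δ : Γ) : (gg (γ * δ) : MonoidAlgebra ℂ (W m Γ)) = gg γ * gg δ := by
  rw [gg, gg, gg, single_mul_single, one_mul, gin, gin, gin, map_mul]

theorem gg_star (γ : Γ) : star (gg γ : MonoidAlgebra ℂ (W m Γ)) = gg γ⁻¹ := by
  rw [gg, gg, star_single_ma, star_one, gin, gin, map_inv]

theorem gg_iota (γ : Γ) (x : CK m Γ) : gg γ * iota m Γ x = iota m Γ (sh γ x) * gg γ := by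
  induction x using MonoidAlgebra.induction_linear with
  | zero => simp
  | add x y hx hy => rw [map_add, mul_add, hx, hy, map_add, map_add, add_mul]
  | single k c =>
    rw [sh_single, iota_single, iota_single, gg, single_mul_single, single_mul_single,
      ← gin_kin, inv_mul_cancel_right, one_mul, mul_one]

variable (β : CK m Γ →⋆ₐ[ℂ] CK m Γ)

/-- The commutation of `β` with the translations. -/
def Eqv : Prop := ∀ (γ : Γ) (k l : K m Γ),
  (β (single (shift m Γ γ k) 1)).coeff (shift m Γ γ l) = (β (single k 1)).coeff l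

variable {β}

theorem sh_beta (h : Eqv β) (γ : Γ) (k : K m Γ) :
    β (single (shift m Γ γ k) 1) = sh γ (β (single k 1)) := by
  ext l
  obtain ⟨l, rfl⟩ := (shift m Γ γ).surjective l
  rw [h, sh_coeff]

variable (β) in
/-- The images of the group elements. -/
def th0 (w : W m Γ) : MonoidAlgebra ℂ (W m Γ) := iota m Γ (β (single w.left 1)) * gg w.right

theorem th0_one : th0 β 1 = 1 := by
  rw [th0, SemidirectProduct.one_left, SemidirectProduct.one_right, gg_one, mul_one, ← one_def,
    map_one, map_one]

theorem th0_mul (h : Eqv β) (w w' : W m Γ) : th0 β (w * w') = th0 β w * th0 β w' := by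
  rw [th0, th0, th0, SemidirectProduct.mul_left, SemidirectProduct.mul_right, gg_mul,
    ← mul_one (1 : ℂ), ← single_mul_single, map_mul, map_mul, mul_one, sh_beta h]
  rw [mul_assoc, ← mul_assoc (iota m Γ (sh _ _)), ← gg_iota, mul_assoc, mul_assoc]

/-- `th0` as a homomorphism. -/
def th (h : Eqv β) : W m Γ →* MonoidAlgebra ℂ (W m Γ) where
  toFun := th0 β
  map_one' := th0_one
  map_mul' := th0_mul h

theorem star_th (h : Eqv β) (w : W m Γ) : star (th h w) = th h w⁻¹ := by
  have h1 : star (th h w) * th h w = 1 := by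
    change star (th0 β w) * th0 β w = 1
    rw [th0, star_mul, gg_star, ← iota_star, ← map_star, star_single_ma, star_one, mul_assoc,
      ← mul_assoc (iota m Γ _), ← map_mul, ← map_mul, single_mul_single, inv_mul_cancel, one_mul,
      ← one_def, map_one, map_one, one_mul, ← gg_mul, inv_mul_cancel, gg_one]
  have h2 : th h w * th h w⁻¹ = 1 := by
    rw [← map_mul, mul_inv_cancel, map_one]
  exact left_inv_eq_right_inv h1 h2

/-- The involution `σ`. -/
def sig (h : Eqv β) : MonoidAlgebra ℂ (W m Γ) →⋆ₐ[ℂ] MonoidAlgebra ℂ (W m Γ) where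
  toAlgHom := lift ℂ (MonoidAlgebra ℂ (W m Γ)) (W m Γ) (th h)
  map_star' b := by
    change lift ℂ (MonoidAlgebra ℂ (W m Γ)) (W m Γ) (th h) (star b) =
      star (lift ℂ (MonoidAlgebra ℂ (W m Γ)) (W m Γ) (th h) b)
    induction b using MonoidAlgebra.induction_linear with
    | zero => simp
    | add x y hx hy => rw [star_add, map_add, map_add, star_add, hx, hy]
    | single f c =>
      rw [star_single_ma, lift_single, lift_single, star_smul, star_th]

theorem sig_single (h : Eqv β) (w : W m Γ) (c : ℂ) : sig h (single w c) = c • th0 β w :=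
  lift_single _ _ _

theorem th0_kin (k : K m Γ) : th0 β (kin k) = iota m Γ (β (single k 1)) := by
  rw [th0, kin, SemidirectProduct.left_inl, SemidirectProduct.right_inl, gg_one, mul_one]

theorem th0_gin (γ : Γ) : th0 β (gin γ) = gg γ := by
  rw [th0, gin, SemidirectProduct.left_inr, SemidirectProduct.right_inr, ← one_def, map_one,
    map_one, one_mul]

theorem sig_iota (h : Eqv β) (x : CK m Γ) : sig h (iota m Γ x) = iota m Γ (β x) := by
  induction x using MonoidAlgebra.induction_linear with
  | zero => simp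
  | add x y hx hy => rw [map_add, map_add, hx, hy, map_add, map_add]
  | single k c =>
    rw [iota_single, sig_single, th0_kin, ← map_smul, ← map_smul, smul_single, smul_eq_mul,
      mul_one]

theorem sig_coeff_one (h : Eqv β) (hb : ∀ x, (β x).coeff 1 = x.coeff 1)
    (x : MonoidAlgebra ℂ (W m Γ)) : (sig h x).coeff 1 = x.coeff 1 := by
  classical
  induction x using MonoidAlgebra.induction_linear with
  | zero => simp
  | add x y hx hy =>
    rw [map_add, coeff_add, coeff_add, Finsupp.add_apply, Finsupp.add_apply, hx, hy]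
  | single w c =>
    rw [sig_single, coeff_smul_apply, th0, gg, coeff_mul_single_apply, mul_one, one_mul,
      coeff_single, Finsupp.single_apply]
    by_cases hw : w.right = 1
    · have h1 : ((gin w.right)⁻¹ : W m Γ) = kin 1 := by
        rw [hw, gin, kin, map_one, map_one, inv_one]
      rw [h1, iota_coeff, hb, coeff_single, Finsupp.single_apply]
      by_cases hl : w.left = 1
      · have h2 : w = 1 := SemidirectProduct.ext hl hw
        rw [if_pos hl, if_pos h2, smul_eq_mul, mul_one]
      · have h2 : w ≠ 1 := fun h3 => hl (by rw [h3, SemidirectProduct.one_left])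
        rw [if_neg hl, if_neg h2, smul_zero]
    · have h2 : w ≠ 1 := fun h3 => hw (by rw [h3, SemidirectProduct.one_right])
      rw [iota_coeff_ne, if_neg h2, smul_zero]
      intro h3
      apply hw
      rw [SemidirectProduct.inv_right, gin, SemidirectProduct.right_inr, inv_eq_one] at h3
      exact h3

theorem sig_sig (h : Eqv β) (hb : ∀ x, β (β x) = x) (x : MonoidAlgebra ℂ (W m Γ)) :
    sig h (sig h x) = x := by
  induction x using MonoidAlgebra.induction_linear with
  | zero => simp
  | add x y hx hy => rw [map_add, map_add, hx, hy]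
  | single w c =>
    rw [sig_single, map_smul, th0, map_mul, sig_iota, hb, iota_single, gg, sig_single, one_smul,
      th0_gin, gg, single_mul_single, one_mul, smul_single, smul_eq_mul, mul_one, kin, gin,
      SemidirectProduct.inl_left_mul_inr_right]

end AutW

/-- [AUTW] -/
theorem autW : AutWStmt := by
  intro m Γ _ β h1 h2 h3
  refine ⟨AutW.sig (β := β) h3, AutW.sig_coeff_one h3 h2, AutW.sig_sig h3 h1, ?_, ?_⟩
  · intro γ
    rw [AutW.sig_single, one_smul, AutW.th0_gin, AutW.gg]
  · intro k l
    rw [AutW.sig_single, one_smul, AutW.th0_kin, AutW.iota_coeff]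

end

end MP8a6869.WR
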