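import Pool.Agent.Work.MP_8a6869_an.WR.Stmts2
import Pool.Agent.Work.MP_8a6869_an.WR.AutW

/-!
# MP_8a6869_an, wreath products, item CROSS: extension of an equivariant covariance of
`ℂ[⊕_Γ ℤ/m]` to `ℂ[(ℤ/m) ≀ Γ]`
-/

namespace MP8a6869.WR

open scoped ComplexOrder
open MonoidAlgebra

noncomputable section

namespace Cross

open AutW

variable {m : ℕ} {Γ : Type} [Group Γ]

/-- The complex group ring of the wreath product. -/
abbrev CW (m : ℕ) (Γ : Type) [Group Γ] : Type := MonoidAlgebra ℂ (W m Γ)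

theorem mkInj (γ : Γ) : Function.Injective (fun k : K m Γ => (⟨k, γ⟩ : W m Γ)) := by
  intro k l h
  exact congrArg SemidirectProduct.left h

/-- The slice of `x` at `γ`: `x = ∑ ι(x^γ) γ`. -/
def sl (γ : Γ) : CW m Γ →ₗ[ℂ] CK m Γ where
  toFun x := comapDomain (fun k : K m Γ => (⟨k, γ⟩ : W m Γ)) (mkInj γ) x
  map_add' x y := comapDomain_add _ _ _ _
  map_smul' c x := by ext k; rfl

theorem sl_coeff (γ : Γ) (x : CW m Γ) (k : K m Γ) : (sl γ x).coeff k = x.coeff ⟨k, γ⟩ := rfl

theorem ext_sl {x y : CW m Γ} (h : ∀ γ, sl γ x = sl γ y) : x = y := by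
  ext w
  obtain ⟨k, γ⟩ := w
  rw [← sl_coeff, ← sl_coeff, h]

theorem tr_sl (x : CW m Γ) : (trB (W m Γ)).τ x = (trB (K m Γ)).τ (sl 1 x) := rfl

theorem gin_inv (γ : Γ) : (gin γ : W m Γ)⁻¹ = gin γ⁻¹ := by rw [gin, gin, map_inv]

theorem mk_mul_gin (k : K m Γ) (η δ : Γ) : (⟨k, η⟩ : W m Γ) * gin δ = ⟨k, η * δ⟩ := by
  ext1
  · simp
  · simp

theorem gin_mul_mk (k : K m Γ) (η δ : Γ) :
    gin δ * (⟨k, η⟩ : W m Γ) = ⟨shift m Γ δ k, δ * η⟩ := by
  ext1
  · simp
  · simp

theorem sl_mul_gg (η δ : Γ) (x : CW m Γ) : sl η (x * gg δ) = sl (η * δ⁻¹) x := by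
  ext k
  rw [sl_coeff, sl_coeff, gg, coeff_mul_single_apply, mul_one, gin_inv, mk_mul_gin]

theorem sl_gg_mul (η δ : Γ) (x : CW m Γ) : sl η (gg δ * x) = sh δ (sl (δ⁻¹ * η) x) := by
  ext k
  obtain ⟨k, rfl⟩ := (shift m Γ δ).surjective k
  rw [sh_coeff, sl_coeff, sl_coeff, gg, coeff_single_mul_apply, one_mul, gin_inv, gin_mul_mk]
  congr 2
  rw [← MulAut.mul_apply, ← map_mul, inv_mul_cancel, map_one, MulAut.one_apply]

theorem sl_iota (η : Γ) (y : CK m Γ) [Decidable (η = 1)] :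
    sl η (iota m Γ y) = if η = 1 then y else 0 := by
  split_ifs with h
  · subst h
    ext k
    rw [sl_coeff]
    exact iota_coeff y k
  · ext k
    rw [sl_coeff, iota_coeff_ne y _ h]
    rfl

theorem sl_iota_gg (η δ : Γ) (y : CK m Γ) [Decidable (η = δ)] :
    sl η (iota m Γ y * gg δ) = if η = δ then y else 0 := by
  classical
  rw [sl_mul_gg, sl_iota]
  by_cases h : η = δ
  · rw [if_pos h, if_pos (by rw [h, mul_inv_cancel])]
  · rw [if_neg h, if_neg (fun h' => h (by rwa [mul_inv_eq_one] at h'))]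

theorem sl_iota_mul (a : CK m Γ) (x : CW m Γ) : sl 1 (iota m Γ a * x) = a * sl 1 x := by
  induction a using MonoidAlgebra.induction_linear with
  | zero => simp
  | add a b ha hb => rw [map_add, add_mul, map_add, ha, hb, add_mul]
  | single k c =>
    ext l
    rw [sl_coeff, iota_single, coeff_single_mul_apply, coeff_single_mul_apply, sl_coeff]
    congr 2
    ext1
    · simp
    · simp

theorem sl_mul_iota (a : CK m Γ) (x : CW m Γ) : sl 1 (x * iota m Γ a) = sl 1 x * a := by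
  induction a using MonoidAlgebra.induction_linear with
  | zero => simp
  | add a b ha hb => rw [map_add, mul_add, map_add, ha, hb, mul_add]
  | single k c =>
    ext l
    rw [sl_coeff, iota_single, coeff_mul_single_apply, coeff_mul_single_apply, sl_coeff]
    congr 2
    ext1
    · simp
    · simp

theorem sl_star (γ : Γ) (x : CW m Γ) : sl γ (star x) = sh γ (star (sl γ⁻¹ x)) := by
  ext k
  obtain ⟨k, rfl⟩ := (shift m Γ γ).surjective k
  rw [sh_coeff, sl_coeff, star_coeff, star_coeff, sl_coeff]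
  congr 2
  ext1
  · simp
  · simp

theorem sh_sh (γ : Γ) (z : CK m Γ) : sh γ (sh γ⁻¹ z) = z := by
  induction z using MonoidAlgebra.induction_linear with
  | zero => simp
  | add a b ha hb => rw [map_add, map_add, ha, hb]
  | single k c =>
    rw [sh_single, sh_single, ← MulAut.mul_apply, ← map_mul, mul_inv_cancel, map_one,
      MulAut.one_apply]

variable (C₀ : Cov (trB (K m Γ)))

/-- The extension. -/
def E0 : CW m Γ →ₗ[ℂ] CW m Γ :=
  (Finsupp.lsum ℂ fun w : W m Γ => LinearMap.toSpanSingleton ℂ (CW m Γ)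
    (iota m Γ (C₀.E (single w.left 1)) * gg w.right)) ∘ₗ (coeffLinearEquiv ℂ).toLinearMap

theorem E0_single (w : W m Γ) (c : ℂ) :
    E0 C₀ (single w c) = c • (iota m Γ (C₀.E (single w.left 1)) * gg w.right) := by
  simp [E0]

/-- The equivariance. -/
def Eqv0 : Prop := ∀ (γ : Γ) (k l : K m Γ),
  (C₀.E (single (shift m Γ γ k) 1)).coeff (shift m Γ γ l) = (C₀.E (single k 1)).coeff l

variable {C₀}

theorem single_eq_smul {G : Type} (k : G) (c : ℂ) :
    (single k c : MonoidAlgebra ℂ G) = c • single k 1 := by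
  rw [smul_single', mul_one]

theorem E_sh (h : Eqv0 C₀) (γ : Γ) (y : CK m Γ) : C₀.E (sh γ y) = sh γ (C₀.E y) := by
  induction y using MonoidAlgebra.induction_linear with
  | zero => simp
  | add a b ha hb => rw [map_add, map_add, ha, hb, map_add, map_add]
  | single k c =>
    rw [sh_single, single_eq_smul, single_eq_smul k, map_smul, map_smul, map_smul]
    congr 1
    ext l
    obtain ⟨l, rfl⟩ := (shift m Γ γ).surjective l
    rw [h, sh_coeff]

theorem sl_E0 (γ : Γ) (x : CW m Γ) : sl γ (E0 C₀ x) = C₀.E (sl γ x) := by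
  classical
  induction x using MonoidAlgebra.induction_linear with
  | zero => simp
  | add a b ha hb => rw [map_add, map_add, ha, hb, map_add, map_add]
  | single w c =>
    have hw : (single w c : CW m Γ) = iota m Γ (single w.left c) * gg w.right := by
      rw [iota_single, gg, single_mul_single, mul_one, SemidirectProduct.inl_left_mul_inr_right]
    rw [E0_single, map_smul, sl_iota_gg, hw, sl_iota_gg]
    by_cases h : γ = w.right
    · rw [if_pos h, if_pos h, single_eq_smul w.left c, map_smul]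
    · rw [if_neg h, if_neg h, smul_zero, map_zero]

theorem E0_iota_gg (y : CK m Γ) (δ : Γ) :
    E0 C₀ (iota m Γ y * gg δ) = iota m Γ (C₀.E y) * gg δ := by
  classical
  refine ext_sl fun γ => ?_
  rw [sl_E0, sl_iota_gg, sl_iota_gg]
  by_cases h : γ = δ
  · rw [if_pos h, if_pos h]
  · rw [if_neg h, if_neg h, map_zero]

theorem E0_gg (δ : Γ) : E0 C₀ (gg δ) = gg δ := by
  have h := E0_iota_gg (C₀ := C₀) 1 δ
  rwa [map_one, one_mul, C₀.E_one, map_one, one_mul] at h

theorem E0_gg_mul_gg (h : Eqv0 C₀) (γ δ : Γ) (x : CW m Γ) :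
    E0 C₀ (gg γ * x * gg δ) = gg γ * E0 C₀ x * gg δ := by
  refine ext_sl fun η => ?_
  rw [sl_E0, sl_mul_gg, sl_mul_gg, sl_gg_mul, sl_gg_mul, E_sh h, sl_E0]

theorem tr_mul_iota_gg (x : CW m Γ) (b : CK m Γ) (δ : Γ) :
    (trB (W m Γ)).τ (x * (iota m Γ b * gg δ)) =
      (trB (K m Γ)).τ (sh δ (sl δ⁻¹ x) * b) := by
  rw [← mul_assoc, (trB (W m Γ)).comm, ← mul_assoc, tr_sl, sl_mul_iota, sl_gg_mul, mul_one]

/-- The expansion of the quadratic form. -/
theorem expand (n T : Type) [Fintype n] [Fintype T] (g : T → Γ) (X : n → n → CW m Γ)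
    (x : n × T → CK m Γ) :
    ∑ i, ∑ j, (trB (W m Γ)).τ (star (∑ t, gg (g t) * iota m Γ (x (i, t))) * X i j *
        ∑ t, gg (g t) * iota m Γ (x (j, t))) =
      ∑ p : n × T, ∑ q : n × T, (trB (K m Γ)).τ
        (star (x p) * sl 1 (gg (g p.2)⁻¹ * X p.1 q.1 * gg (g q.2)) * x q) := by
  have key : ∀ (a b : Γ) (y z : CK m Γ) (Y : CW m Γ),
      (trB (W m Γ)).τ (star (gg a * iota m Γ y) * Y * (gg b * iota m Γ z)) =
        (trB (K m Γ)).τ (star y * sl 1 (gg a⁻¹ * Y * gg b) * z) := by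
    intro a b y z Y
    have h1 : star (gg a * iota m Γ y) * Y * (gg b * iota m Γ z) =
        iota m Γ (star y) * (gg a⁻¹ * Y * gg b) * iota m Γ z := by
      rw [star_mul, gg_star, iota_star]
      simp only [mul_assoc]
    rw [h1, tr_sl, sl_mul_iota, sl_iota_mul]
  rw [Fintype.sum_prod_type]
  refine Finset.sum_congr rfl fun i _ => ?_
  simp only [Fintype.sum_prod_type]
  rw [Finset.sum_comm]
  refine Finset.sum_congr rfl fun j _ => ?_
  simp only [star_sum, Finset.sum_mul, Finset.mul_sum, map_sum, key]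
  exact Finset.sum_comm

theorem decomp (c : CW m Γ) (T : Finset Γ) (hT : ∀ w ∈ c.coeff.support, w.right ∈ T) :
    c = ∑ t : T, gg (t : Γ) * iota m Γ (sh (t : Γ)⁻¹ (sl (t : Γ) c)) := by
  classical
  refine ext_sl fun η => ?_
  have h1 : ∀ t : T, gg (t : Γ) * iota m Γ (sh (t : Γ)⁻¹ (sl (t : Γ) c)) =
      iota m Γ (sl (t : Γ) c) * gg (t : Γ) := fun t => by
    rw [gg_iota, sh_sh]
  simp only [h1, map_sum, sl_iota_gg]
  by_cases hη : η ∈ T
  · rw [Finset.sum_eq_single (⟨η, hη⟩ : T)]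
    · rw [if_pos rfl]
    · intro t _ ht
      rw [if_neg]
      intro h
      exact ht (Subtype.ext h.symm)
    · intro h
      exact absurd (Finset.mem_univ _) h
  · rw [Finset.sum_eq_zero]
    · ext k
      rw [sl_coeff]
      by_contra h
      exact hη (hT ⟨k, η⟩ (Finsupp.mem_support_iff.2 h))
    · intro t _
      rw [if_neg]
      intro h
      exact hη (h ▸ t.2)

theorem cov (h : Eqv0 C₀) : ∃ C : Cov (trB (W m Γ)), C.E = E0 C₀ := by
  classical
  refine ⟨⟨E0 C₀, ?_, ?_, ?_, ?_⟩, rfl⟩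
  · intro x
    refine ext_sl fun γ => ?_
    rw [sl_E0, sl_star, E_sh h, C₀.E_star, sl_star, sl_E0]
  · rw [← gg_one]
    exact E0_gg 1
  · intro x y
    induction y using MonoidAlgebra.induction_linear with
    | zero => simp
    | add a b ha hb => rw [mul_add, map_add, ha, hb, map_add, mul_add, map_add]
    | single w c =>
      have hw : (single w c : CW m Γ) = iota m Γ (single w.left c) * gg w.right := by
        rw [iota_single, gg, single_mul_single, mul_one,
          SemidirectProduct.inl_left_mul_inr_right]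
      rw [hw, E0_iota_gg, tr_mul_iota_gg, tr_mul_iota_gg, sl_E0, ← E_sh h, C₀.E_symm]
  · intro n _ H hH c
    have hTex : ∃ T : Finset Γ, ∀ i, ∀ w ∈ (c i).coeff.support, w.right ∈ T :=
      ⟨Finset.univ.biUnion fun i => (c i).coeff.support.image SemidirectProduct.right,
        fun i w hw => Finset.mem_biUnion.2 ⟨i, Finset.mem_univ _, Finset.mem_image_of_mem _ hw⟩⟩
    obtain ⟨T, hT⟩ := hTex
    have h1 := expand n T (fun t => (t : Γ)) (fun i j => E0 C₀ (H i j))
      (fun p => sh (p.2 : Γ)⁻¹ (sl (p.2 : Γ) (c p.1)))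
    have h2 : ∀ i, (∑ t : T, gg (t : Γ) * iota m Γ (sh (t : Γ)⁻¹ (sl (t : Γ) (c i)))) = c i :=
      fun i => (decomp (c i) T (hT i)).symm
    simp only [h2] at h1
    rw [h1]
    have h3 := C₀.E_cp (n × T)
      (fun p q => sl 1 (gg (p.2 : Γ)⁻¹ * H p.1 q.1 * gg (q.2 : Γ)))
      (fun x => by
        rw [← expand n T (fun t => (t : Γ)) H x]
        exact hH _)
      (fun p => sh (p.2 : Γ)⁻¹ (sl (p.2 : Γ) (c p.1)))
    simp only [← sl_E0, E0_gg_mul_gg h] at h3
    exact h3

end Cross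

/-- [CROSS] A translation equivariant covariance of `ℂ[⊕_Γ ℤ/m]` extends to `ℂ[(ℤ/m) ≀ Γ]`,
fixing `Γ`. -/
theorem cross : CrossStmt := by
  intro m Γ _ C₀ h
  obtain ⟨C, hC⟩ := Cross.cov (C₀ := C₀) h
  refine ⟨C, ?_, ?_⟩
  · intro γ
    rw [hC]
    exact Cross.E0_gg γ
  · intro k l
    rw [hC]
    have h1 : (Cross.E0 C₀ (single (kin k) 1)).coeff (kin l) =
        (Cross.sl 1 (Cross.E0 C₀ (single (kin k) 1))).coeff l := rfl
    rw [h1, Cross.sl_E0]
    have h2 : Cross.sl 1 (single (kin k) 1 : MonoidAlgebra ℂ (W m Γ)) = single k 1 := by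
      classical
      rw [← AutW.iota_single, Cross.sl_iota, if_pos rfl]
    rw [h2]

end

end MP8a6869.WR
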