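import Pool.Agent.Work.MP_8a6869_an.WR.Stmts

/-!
# MP_8a6869_an, wreath products: [EMB]

`C ≀ Γ` contains `(ℤ/m) ≀ Γ` as soon as `C` has an element of finite order `m ≥ 2`.
-/

namespace MP8a6869.WR

namespace Emb

noncomputable section

/-- The homomorphism `ℤ/m → C`, `1 ↦ c`, for `m` the order of `c`. -/
def pw {C : Type} [Group C] (c : C) : ZMod (orderOf c) →+ Additive C :=
  ZMod.lift (orderOf c) ⟨zmultiplesHom (Additive C) (Additive.ofMul c), by
    rw [zmultiplesHom_apply, ← ofMul_zpow, zpow_natCast, pow_orderOf_eq_one, ofMul_one]⟩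

theorem pw_injective {C : Type} [Group C] (c : C) : Function.Injective (pw c) := by
  rw [injective_iff_map_eq_zero]
  intro x
  obtain ⟨n, rfl⟩ := ZMod.intCast_surjective x
  intro h
  rw [pw, ZMod.lift_coe] at h
  simp only [zmultiplesHom_apply] at h
  rw [← ofMul_zpow, ofMul_eq_zero] at h
  rw [ZMod.intCast_zmod_eq_zero_iff_dvd]
  exact orderOf_dvd_iff_zpow_eq_one.mpr h

/-- The element of `C ≀ Γ` of an element of `(ℤ/m) ≀ Γ`. -/
def toWr {C : Type} [Group C] (c : C) (Γ : Type) [Group Γ] (p : W (orderOf c) Γ) : C ≀ᵣ Γ :=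
  ⟨fun s => (pw c (p.left.toAdd s)).toMul, p.right⟩

theorem toWr_mul {C : Type} [Group C] (c : C) (Γ : Type) [Group Γ] (p q : W (orderOf c) Γ) :
    toWr c Γ (p * q) = toWr c Γ p * toWr c Γ q := by
  ext1
  · funext s
    simp only [toWr, SemidirectProduct.mul_left, RegularWreathProduct.mul_left, Pi.mul_apply,
      toAdd_mul, Finsupp.add_apply, map_add, toMul_add, shift_apply]
  · simp [toWr]

theorem toWr_one {C : Type} [Group C] (c : C) (Γ : Type) [Group Γ] :
    toWr c Γ (1 : W (orderOf c) Γ) = 1 := by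
  ext1
  · funext s
    simp [toWr]
  · simp [toWr]

theorem toWr_injective {C : Type} [Group C] (c : C) (Γ : Type) [Group Γ] :
    Function.Injective (toWr c Γ) := by
  intro p q h
  have h1 : ∀ s, (pw c (p.left.toAdd s)).toMul = (pw c (q.left.toAdd s)).toMul := fun s =>
    congrFun (congrArg RegularWreathProduct.left h) s
  have h2 : p.right = q.right := congrArg RegularWreathProduct.right h
  refine SemidirectProduct.ext ?_ h2
  refine Multiplicative.toAdd.injective (Finsupp.ext fun s => ?_)
  exact pw_injective c (Additive.toMul.injective (h1 s))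

theorem toWr_mem {C : Type} [Group C] (c : C) (Γ : Type) [Group Γ] (p : W (orderOf c) Γ) :
    toWr c Γ p ∈ restrictedWreath C Γ := by
  change (Function.mulSupport fun s => (pw c (p.left.toAdd s)).toMul).Finite
  refine (p.left.toAdd.support.finite_toSet).subset fun s hs => ?_
  rw [Finset.mem_coe, Finsupp.mem_support_iff]
  intro h
  apply hs
  change (pw c (p.left.toAdd s)).toMul = 1
  rw [h, map_zero, toMul_zero]

end

end Emb

/-- [EMB] `C ≀ Γ` contains `(ℤ/m) ≀ Γ` if `C` has an element of finite order `m ≥ 2`. -/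
theorem emb : EmbStmt := by
  intro C Γ _ _ c hc hfin
  refine ⟨orderOf c, ?_, ?_⟩
  · have h0 : 0 < orderOf c := orderOf_pos_iff.mpr hfin
    have h1 : orderOf c ≠ 1 := fun h => hc (orderOf_eq_one_iff.mp h)
    omega
  · refine ⟨{ toFun := fun p => ⟨Emb.toWr c Γ p, Emb.toWr_mem c Γ p⟩
              map_one' := Subtype.ext (Emb.toWr_one c Γ)
              map_mul' := fun p q => Subtype.ext (Emb.toWr_mul c Γ p q) }, ?_⟩
    intro p q h
    exact Emb.toWr_injective c Γ (congrArg Subtype.val h)

end MP8a6869.WR
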