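import Pool.Agent.Work.MP_8a6869_an.WR.Stmts2
import Pool.Agent.Work.MP_8a6869_an.WR.Emb

/-!
# MP_8a6869_an, wreath products: [EMB0]

`C ≀ Γ` contains `ℤ ≀ Γ` as soon as `C` has an element of infinite order.
-/

namespace MP8a6869.WR

namespace Emb0

/-- `(ℤ/m) ≀ Γ` embeds into `C ≀ Γ` for `m` the order of `c ∈ C` (`m = 0` if the order is
infinite). -/
theorem embOrder (C Γ : Type) [Group C] [Group Γ] (c : C) (m : ℕ) (hm : orderOf c = m) :
    ∃ f : W m Γ →* restrictedWreath C Γ, Function.Injective f := by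
  subst hm
  refine ⟨{ toFun := fun p => ⟨Emb.toWr c Γ p, Emb.toWr_mem c Γ p⟩
            map_one' := Subtype.ext (Emb.toWr_one c Γ)
            map_mul' := fun p q => Subtype.ext (Emb.toWr_mul c Γ p q) }, ?_⟩
  intro p q h
  exact Emb.toWr_injective c Γ (congrArg Subtype.val h)

end Emb0

/-- [EMB0] `C ≀ Γ` contains `ℤ ≀ Γ` if `C` has an element of infinite order. -/
theorem emb0 : Emb0Stmt := by
  intro C Γ _ _ c hc
  exact Emb0.embOrder C Γ c 0 (orderOf_eq_zero hc)

end MP8a6869.WR
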