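import Pool.Agent.Work.MP_8a6869_an.WR.Stmts

/-!
# MP_8a6869_an, WR L2FB: bounded tracial functionals of `ℂ[H]`, `H` icc
-/

namespace MP8a6869.WR

open scoped InnerProductSpace ComplexOrder
open MonoidAlgebra Filter Topology

noncomputable section

namespace L2FB

theorem tr_single (H : Type) [Group H] (g : H) (z : ℂ) [Decidable (g = 1)] :
    (trB H).τ (single g z : MonoidAlgebra ℂ H) = if g = 1 then z else 0 := by
  classical
  change TrAlg.c.τ ((single g z : MonoidAlgebra ℂ H).coeff 1) = _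
  rw [coeff_single, Finsupp.single_apply]
  by_cases h : g = 1
  · rw [if_pos h]
    rfl
  · rw [if_neg h]
    exact map_zero _

theorem conj (H : Type) [Group H] (f : MonoidAlgebra ℂ H →ₗ[ℂ] ℂ)
    (hf : ∀ a x, f (a * x) = f (x * a)) (g h : H) (z : ℂ) :
    f (single (h * g * h⁻¹) z : MonoidAlgebra ℂ H) = f (single g z) := by
  have e1 : (single (h * g * h⁻¹) z : MonoidAlgebra ℂ H) =
      single h 1 * (single g z * single h⁻¹ 1) := by
    rw [single_mul_single, single_mul_single, one_mul, mul_one, mul_assoc]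
  have e2 : (single g z * single h⁻¹ 1) * single h 1 = (single g z : MonoidAlgebra ℂ H) := by
    rw [single_mul_single, single_mul_single, mul_one, mul_one, mul_assoc, inv_mul_cancel,
      mul_one]
  rw [e1, hf, e2]

theorem tau_sum (H : Type) [Group H] (t : Finset H) (z : ℂ) :
    (trB H).τ (star (∑ c ∈ t, (single c z : MonoidAlgebra ℂ H)) *
      ∑ c ∈ t, (single c z : MonoidAlgebra ℂ H)) = (t.card : ℂ) * (star z * z) := by
  classical
  rw [star_sum, Finset.sum_mul, map_sum]
  have key : ∀ c ∈ t, (trB H).τ (star (single c z : MonoidAlgebra ℂ H) *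
      ∑ c ∈ t, (single c z : MonoidAlgebra ℂ H)) = star z * z := by
    intro c hc
    rw [Finset.mul_sum, map_sum, Finset.sum_eq_single c]
    · rw [star_single_ma, single_mul_single, tr_single, if_pos (inv_mul_cancel c)]
    · intro c' _ hne
      rw [star_single_ma, single_mul_single, tr_single, if_neg]
      intro h
      exact hne (inv_mul_eq_one.1 h).symm
    · intro h; exact absurd hc h
  rw [Finset.sum_congr rfl key, Finset.sum_const, nsmul_eq_mul]

theorem zero (H : Type) [Group H]
    (hH : ∀ g : H, g ≠ 1 → (Set.range fun h : H => h * g * h⁻¹).Infinite)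
    (f : MonoidAlgebra ℂ H →ₗ[ℂ] ℂ) (κ : ℝ)
    (hκ : ∀ x, ‖f x‖ ^ 2 ≤ κ * ((trB H).τ (star x * x)).re)
    (hf : ∀ a x, f (a * x) = f (x * a)) (g : H) (hg : g ≠ 1) (z : ℂ) :
    f (single g z : MonoidAlgebra ℂ H) = 0 := by
  by_contra hne
  have hpos : 0 < ‖f (single g z : MonoidAlgebra ℂ H)‖ ^ 2 := by
    have := norm_pos_iff.2 hne
    positivity
  set K : ℝ := κ * (star z * z).re with hK
  have key : ∀ N : ℕ, 0 < N → (N : ℝ) * ‖f (single g z : MonoidAlgebra ℂ H)‖ ^ 2 ≤ K := by
    intro N hN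
    obtain ⟨t, ht, hcard⟩ := (hH g hg).exists_subset_card_eq N
    have h1 : f (∑ c ∈ t, (single c z : MonoidAlgebra ℂ H)) =
        (N : ℂ) * f (single g z : MonoidAlgebra ℂ H) := by
      rw [map_sum]
      have : ∀ c ∈ t, f (single c z : MonoidAlgebra ℂ H) =
          f (single g z : MonoidAlgebra ℂ H) := by
        intro c hc
        obtain ⟨h, rfl⟩ := ht hc
        exact conj H f hf g h z
      rw [Finset.sum_congr rfl this, Finset.sum_const, nsmul_eq_mul, hcard]
    have h2 := hκ (∑ c ∈ t, (single c z : MonoidAlgebra ℂ H))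
    rw [h1, tau_sum, hcard, norm_mul, mul_pow, Complex.norm_natCast] at h2
    have h3 : ((N : ℂ) * (star z * z)).re = (N : ℝ) * (star z * z).re := by
      rw [Complex.mul_re]; simp
    rw [h3] at h2
    have hN' : (0 : ℝ) < N := by exact_mod_cast hN
    have h4 : (N : ℝ) * ((N : ℝ) * ‖f (single g z : MonoidAlgebra ℂ H)‖ ^ 2) ≤
        (N : ℝ) * K := by
      rw [hK]; nlinarith [h2]
    exact le_of_mul_le_mul_left h4 hN'
  obtain ⟨N, hN⟩ := exists_nat_gt (K / ‖f (single g z : MonoidAlgebra ℂ H)‖ ^ 2)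
  rw [div_lt_iff₀ hpos] at hN
  have h5 := key (N + 1) (Nat.succ_pos N)
  push_cast at h5
  nlinarith

theorem one (H : Type) [Group H] (f : MonoidAlgebra ℂ H →ₗ[ℂ] ℂ) (z : ℂ) :
    f (single 1 z : MonoidAlgebra ℂ H) = f 1 * z := by
  have h : (single 1 z : MonoidAlgebra ℂ H) = z • (1 : MonoidAlgebra ℂ H) := by
    rw [one_def, smul_single, smul_eq_mul, mul_one]
  rw [h, map_smul, smul_eq_mul, mul_comm]

end L2FB

/-- [L2FB] -/
theorem l2fb : L2FBStmt := by
  intro H _ hH f hκ hf x
  classical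
  obtain ⟨κ, hκ⟩ := hκ
  induction x using MonoidAlgebra.induction_linear with
  | zero => rw [map_zero, map_zero, mul_zero]
  | add x y hx hy => rw [map_add, map_add, hx, hy, mul_add]
  | single g z =>
    by_cases hg : g = 1
    · subst hg
      rw [L2FB.one H f z, L2FB.tr_single, if_pos rfl]
    · rw [L2FB.zero H hH f κ hκ hf g hg z, L2FB.tr_single, if_neg hg, mul_zero]

end

end MP8a6869.WR
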