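import Pool.Agent.Work.MP_8a6869_an.WR.Stmts2
import Pool.Agent.Work.MP_8a6869_an.WR.Model

/-!
# MP_8a6869_an, wreath products, item MODEL2: the factor of a covariance of a group ring
-/

namespace MP8a6869.WR

open scoped InnerProductSpace ComplexOrder
open MonoidAlgebra Filter Topology

noncomputable section

open Model in
theorem model2 (h1 : CovHStmt) (h2 : L2FBStmt) (h3 : NeumBStmt) : Model2Stmt := by
  intro G _ _ _ hicc L _ j hj C₀
  have hi : Function.Injective ((MonoidHom.inl G G).comp j) := by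
    intro a b hab
    exact hj (congrArg Prod.fst hab)
  obtain ⟨C, hC, hC0⟩ := h1 (G × G) L ((MonoidHom.inl G G).comp j) hi C₀
  have hdom : ∀ a : MonoidAlgebra ℂ (G × G), Dominated a := dom.2.2 ℂ dom.1 (G × G)
  obtain ⟨L0⟩ := leftSys kol ext formHerm formPos (MonoidAlgebra ℂ (G × G)) (trB (G × G)) C hdom
  obtain ⟨F⟩ := fockSys extConj formRev (MonoidAlgebra ℂ (G × G)) (trB (G × G)) C L0
  obtain ⟨ht, hs⟩ := trac extConj (MonoidAlgebra ℂ (G × G)) (trB (G × G)) C F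
  have hone : (trB (G × G)).τ 1 = 1 := trB_one (G × G)
  have hE0 : ∀ h : G × G, h.2 ≠ 1 → C.E (single h 1) = 0 := by
    intro h hh
    refine hC0 h ?_
    rintro ⟨w, rfl⟩
    exact hh rfl
  have hcent := cent (MonoidAlgebra ℂ (G × G)) (trB (G × G)) C F hone (G × G) (uH (G × G))
    (by
      intro n _ x y
      obtain ⟨g, hg⟩ := h3 G C.E hE0 n x y
      exact ⟨g, hg⟩)
    (h2 (G × G) (icc_prod G hicc))
  have hII := fact (MonoidAlgebra ℂ (G × G)) (trB (G × G)) C F hone ht hs (G × G) (uH (G × G))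
    (trB_uH (G × G)) hcent
  obtain ⟨ι, hι⟩ := iota ext (MonoidAlgebra ℂ (G × G)) (trB (G × G)) C F hone ht hs G (uF G)
    (finite_uF G) (trB_uF G)
  refine ⟨F.vna hone ht hs, hII, separable_fock (G × G) F.toLeftSys, ι, ⟨F.D, F.D_mem⟩, ?_⟩
  intro w w'
  set ξ : (F.vna hone ht hs).Elt := ⟨F.D, F.D_mem⟩ with hξ
  have hopξ : opOf F hone ht hs ξ = F.D := rfl
  have h3' : opOf F hone ht hs (ι.hom ⟨leftReg G (j w), leftReg_mem G _⟩) =
      F.lam (single (j w, 1) 1) := hι (j w)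
  have h4 : opOf F hone ht hs (ι.hom ⟨leftReg G (j w')⁻¹, leftReg_mem G _⟩) =
      F.lam (single ((j w')⁻¹, 1) 1) := hι (j w')⁻¹
  have hD1 : F.D F.Om = F.vec [1, 1] := by
    rw [FockSys.Om, F.D_one]
  rw [vna_tr, opOf_mul, opOf_mul, h3', h4, hopξ, mul_apply_eq_comp, mul_apply_eq_comp, hD1]
  have h5 : F.lam (single ((j w')⁻¹, 1) 1) F.Om = F.vec [single ((j w')⁻¹, 1) 1] := by
    rw [FockSys.Om, F.lam_vec, mul_one]
  rw [h5, F.D_one, F.lam_vec, F.inner_vec, mul_one]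
  have h6 : form C 1 [1, 1] [single (j w, 1) 1, single ((j w')⁻¹, 1) 1] =
      (trB (G × G)).τ (star 1 * C.E (star 1 * 1 * single (j w, 1) 1) *
        single ((j w')⁻¹, 1) 1) := rfl
  rw [h6, star_one, one_mul, one_mul, one_mul, trB_apply, coeff_mul_single_apply, one_mul, mul_one]
  have h7 : (((j w')⁻¹, 1) : G × G)⁻¹ = (j w', 1) := by
    rw [Prod.inv_mk, inv_one, inv_inv]
  rw [h7]
  exact hC w w'

end

end MP8a6869.WR
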