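import Pool.Agent.Work.MP_8a6869_an.WR.Stmts

/-!
# MP_8a6869_an, wreath products: item [NeumB]

If `E` kills `single h 1` for `h.2 ≠ 1` and `G` is infinite, then for finite families `x`, `y`
there is one `g` with `E (star (y j) * single g 1 * x j) = 0` for all `j`.
-/

namespace MP8a6869.WR.NeumB

open scoped InnerProductSpace ComplexOrder
open MonoidAlgebra Filter Topology

noncomputable section

theorem expand {G : Type} (x : MonoidAlgebra ℂ G) :
    x = ∑ p ∈ x.coeff.support, single p (x.coeff p) := by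
  conv_lhs => rw [← sum_coeff_single x]
  rfl

theorem kill {G : Type} [Group G] (E : MonoidAlgebra ℂ (G × G) →ₗ[ℂ] MonoidAlgebra ℂ (G × G))
    (hE : ∀ h : G × G, h.2 ≠ 1 → E (single h 1) = 0) (x y : MonoidAlgebra ℂ (G × G)) (g : G × G)
    (hg : ∀ p ∈ y.coeff.support, ∀ q ∈ x.coeff.support, (p⁻¹ * g * q).2 ≠ 1) :
    E (star y * single g 1 * x) = 0 := by
  have h1 : star y * single g 1 * x
      = ∑ p ∈ y.coeff.support, ∑ q ∈ x.coeff.support,
          (star (y.coeff p) * x.coeff q) • (single (p⁻¹ * g * q) 1 : MonoidAlgebra ℂ (G × G)) := by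
    conv_lhs => rw [expand x, expand y]
    rw [star_sum, Finset.sum_mul, Finset.sum_mul]
    refine Finset.sum_congr rfl fun p _ => ?_
    rw [Finset.mul_sum]
    refine Finset.sum_congr rfl fun q _ => ?_
    rw [star_single_ma, single_mul_single, single_mul_single, smul_single, mul_one, smul_eq_mul,
      mul_one]
  rw [h1, map_sum]
  refine Finset.sum_eq_zero fun p hp => ?_
  rw [map_sum]
  refine Finset.sum_eq_zero fun q hq => ?_
  rw [map_smul, hE _ (hg p hp q hq), smul_zero]

end

end MP8a6869.WR.NeumB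

open MonoidAlgebra in
theorem MP8a6869.WR.neumB : MP8a6869.WR.NeumBStmt := by
  intro G _ _ E hE n _ x y
  classical
  cases nonempty_fintype n
  obtain ⟨g', hg'⟩ := Infinite.exists_notMem_finset
    (Finset.univ.biUnion fun j : n => Finset.image₂ (fun p q : G × G => p.2 * q.2⁻¹)
      (y j).coeff.support (x j).coeff.support)
  refine ⟨(1, g'), fun j => MP8a6869.WR.NeumB.kill E hE (x j) (y j) (1, g') ?_⟩
  intro p hp q hq h
  apply hg'
  rw [Finset.mem_biUnion]
  refine ⟨j, Finset.mem_univ j, ?_⟩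
  rw [Finset.mem_image₂]
  refine ⟨p, hp, q, hq, ?_⟩
  have h2 : p.2⁻¹ * g' * q.2 = 1 := h
  have h3 : g' = p.2 * (p.2⁻¹ * g' * q.2) * q.2⁻¹ := by group
  rw [h2, mul_one] at h3
  exact h3.symm
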