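import Pool.Agent.Work.MP_8a6869_an.WR.Stmts

/-!
# MP_8a6869_an, wreath products: the wandering lemma [WAND]

Two infinite subgroups `A`, `A'` of a group and a set `P` which is right invariant under `A` and,
up to finitely many elements, under `A'` produce a free subgroup by ping-pong.
-/

namespace MP8a6869.WR.Wand

open Relation

section Abstract

variable {L : Type} [Group L]

/-- One step: `γ` and `δ` lie in one left coset of `A` or of `A'`. -/
def E (A A' : Subgroup L) (γ δ : L) : Prop := γ⁻¹ * δ ∈ A ∨ γ⁻¹ * δ ∈ A'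

theorem E_mul {A A' : Subgroup L} {γ δ : L} (g : L) (h : E A A' γ δ) :
    E A A' (g * γ) (g * δ) := by
  have h1 : (g * γ)⁻¹ * (g * δ) = γ⁻¹ * δ := by group
  unfold E at *
  rwa [h1]

theorem chain_all {A A' : Subgroup L} (hgen : Subgroup.closure ((A : Set L) ∪ A') = ⊤)
    (γ : L) : ReflTransGen (E A A') γ 1 := by
  have hγ : γ ∈ Subgroup.closure ((A : Set L) ∪ A') := hgen ▸ Subgroup.mem_top γ
  induction hγ using Subgroup.closure_induction_right with
  | one => exact ReflTransGen.refl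
  | mul_right x hx y hy ih =>
    refine ReflTransGen.head ?_ ih
    have h1 : (x * y)⁻¹ * x = y⁻¹ := by group
    unfold E
    rw [h1]
    rcases hy with hy | hy
    · exact Or.inl (A.inv_mem hy)
    · exact Or.inr (A'.inv_mem hy)
  | mul_inv_cancel x hx y hy ih =>
    refine ReflTransGen.head ?_ ih
    have h1 : (x * y⁻¹)⁻¹ * x = y := by group
    unfold E
    rw [h1]
    exact hy

/-- Every element of `Y` is joined to `1` inside `Y`. -/
def Conn (A A' : Subgroup L) (Y : Set L) : Prop :=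
  ∀ y ∈ Y, ReflTransGen (fun a b => E A A' a b ∧ a ∈ Y ∧ b ∈ Y) y 1

theorem chain_mono {A A' : Subgroup L} {Z Y : Set L} (h : Z ⊆ Y) {a b : L}
    (hc : ReflTransGen (fun a b => E A A' a b ∧ a ∈ Z ∧ b ∈ Z) a b) :
    ReflTransGen (fun a b => E A A' a b ∧ a ∈ Y ∧ b ∈ Y) a b := by
  induction hc with
  | refl => exact ReflTransGen.refl
  | tail _ h2 ih => exact ih.tail ⟨h2.1, h h2.2.1, h h2.2.2⟩

theorem exists_conn_one {A A' : Subgroup L} {γ : L} (h : ReflTransGen (E A A') γ 1) :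
    ∃ Z : Set L, Z.Finite ∧ γ ∈ Z ∧ (1 : L) ∈ Z ∧ Conn A A' Z := by
  induction h using ReflTransGen.head_induction_on with
  | refl =>
    refine ⟨{1}, Set.finite_singleton 1, rfl, rfl, ?_⟩
    intro y hy
    rw [Set.mem_singleton_iff] at hy
    rw [hy]
  | head h1 h2 ih =>
    rename_i a c
    obtain ⟨Z, hZ, hcZ, h1Z, hconn⟩ := ih
    refine ⟨insert a Z, hZ.insert a, Set.mem_insert a Z, Set.mem_insert_of_mem a h1Z, ?_⟩
    have hmono : ∀ y ∈ Z, ReflTransGen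
        (fun u v => E A A' u v ∧ u ∈ insert a Z ∧ v ∈ insert a Z) y 1 := fun y hy =>
      chain_mono (fun x hx => Set.mem_insert_of_mem a hx) (hconn y hy)
    intro y hy
    rcases hy with hy | hy
    · rw [hy]
      exact ReflTransGen.head ⟨h1, Set.mem_insert a Z, Set.mem_insert_of_mem a hcZ⟩
        (hmono c hcZ)
    · exact hmono y hy

theorem exists_conn {A A' : Subgroup L} (hgen : Subgroup.closure ((A : Set L) ∪ A') = ⊤)
    {D : Set L} (hD : D.Finite) :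
    ∃ Y : Set L, Y.Finite ∧ D ⊆ Y ∧ (1 : L) ∈ Y ∧ Conn A A' Y := by
  choose Z hZ hmem h1 hconn using fun γ : L => exists_conn_one (chain_all hgen γ)
  refine ⟨insert 1 (⋃ d ∈ D, Z d), (hD.biUnion fun d _ => hZ d).insert 1, ?_,
    Set.mem_insert _ _, ?_⟩
  · intro d hd
    exact Set.mem_insert_of_mem _ (Set.mem_biUnion hd (hmem d))
  · intro y hy
    rcases hy with hy | hy
    · rw [hy]
    · rw [Set.mem_iUnion₂] at hy
      obtain ⟨d, hd, hyd⟩ := hy
      exact chain_mono (fun x hx => Set.mem_insert_of_mem _ (Set.mem_biUnion hd hx))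
        (hconn d y hyd)

/-- The core: `g⁻¹ Rᶜ ⊆ R` if `g Y` and `g⁻¹ Y` are disjoint from `Y` and `g, g⁻¹ ∈ R`. -/
theorem core {A A' : Subgroup L} (hgen : Subgroup.closure ((A : Set L) ∪ A') = ⊤)
    {D Y R : Set L} (hDY : D ⊆ Y) (hY : Conn A A' Y) (h1Y : (1 : L) ∈ Y)
    (hstep : ∀ γ δ, E A A' γ δ → γ ∉ D → δ ∉ D → (γ ∈ R ↔ δ ∈ R)) {g : L}
    (hg : ∀ y ∈ Y, g * y ∉ Y) (hg' : ∀ y ∈ Y, g⁻¹ * y ∉ Y) (hgR : g ∈ R) (hgR' : g⁻¹ ∈ R)
    (γ : L) : γ ∉ R → g⁻¹ * γ ∈ R := by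
  have trans : ∀ h : L, (∀ y ∈ Y, h * y ∉ Y) → h ∈ R → ∀ y ∈ Y, h * y ∈ R := by
    intro h hh hhR y hy
    have hc := hY y hy
    clear hy
    induction hc using ReflTransGen.head_induction_on with
    | refl => rwa [mul_one]
    | head h1 _ ih =>
      exact (hstep _ _ (E_mul h h1.1) (fun h2 => hh _ h1.2.1 (hDY h2))
        (fun h2 => hh _ h1.2.2 (hDY h2))).mpr ih
  have ha := trans g hg hgR
  have hb := trans g⁻¹ hg' hgR'
  have hc := chain_all hgen γ
  -- if `γ ∉ R` then `g⁻¹ γ ∉ D`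
  have hD : ∀ δ, δ ∉ R → g⁻¹ * δ ∉ D := by
    intro δ hδ h2
    apply hδ
    have h3 := ha _ (hDY h2)
    rwa [mul_inv_cancel_left] at h3
  induction hc using ReflTransGen.head_induction_on with
  | refl =>
    intro _
    exact hb 1 h1Y
  | head h1 h2 ih =>
    rename_i a c
    intro hR
    by_cases haY : a ∈ Y
    · exact hb a haY
    · have h3 : g⁻¹ * c ∈ R ∧ g⁻¹ * c ∉ D := by
        by_cases hcY : c ∈ Y
        · exact ⟨hb c hcY, fun h4 => hg' c hcY (hDY h4)⟩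
        · have hcR : c ∉ R := fun h4 =>
            hR ((hstep a c h1 (fun h5 => haY (hDY h5)) (fun h5 => hcY (hDY h5))).mpr h4)
          exact ⟨ih hcR, hD c hcR⟩
      exact (hstep _ _ (E_mul g⁻¹ h1) (hD a hR) h3.2).mpr h3.1

/-- The abstract wandering lemma. -/
theorem free_of_almost_invariant (A A' : Subgroup L) (hA : (A : Set L).Infinite)
    (hA' : (A' : Set L).Infinite) (hgen : Subgroup.closure ((A : Set L) ∪ A') = ⊤)
    (P P' D : Set L) (hD : D.Finite)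
    (hP : ∀ γ, ∀ a ∈ A, (γ * a ∈ P ↔ γ ∈ P)) (hP' : ∀ γ, ∀ a ∈ A', (γ * a ∈ P' ↔ γ ∈ P'))
    (h1 : (1 : L) ∈ P) (h1' : (1 : L) ∉ P') (hPP' : ∀ γ, γ ∉ D → (γ ∈ P ↔ γ ∈ P')) :
    ∃ f : FreeGroup (Fin 2) →* L, Function.Injective f := by
  obtain ⟨Y, hYf, hDY, h1Y, hYc⟩ := exists_conn hgen hD
  have hstep : ∀ γ δ, E A A' γ δ → γ ∉ D → δ ∉ D → (γ ∈ P ↔ δ ∈ P) := by
    intro γ δ h hγ hδ
    have h2 : δ = γ * (γ⁻¹ * δ) := by group
    rcases h with h | h
    · have h3 := hP γ _ h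
      rw [← h2] at h3
      exact h3.symm
    · have h3 := hP' γ _ h
      rw [← h2] at h3
      rw [hPP' γ hγ, hPP' δ hδ]
      exact h3.symm
  have hstep' : ∀ γ δ, E A A' γ δ → γ ∉ D → δ ∉ D → (γ ∈ Pᶜ ↔ δ ∈ Pᶜ) := by
    intro γ δ h hγ hδ
    rw [Set.mem_compl_iff, Set.mem_compl_iff, hstep γ δ h hγ hδ]
  -- the exceptional elements
  set S : Set L := (fun p : L × L => p.1 * p.2⁻¹) '' (Y ×ˢ Y) with hS
  have hSf : S.Finite := (hYf.prod hYf).image _
  have hSY : ∀ g, g ∉ S → ∀ y ∈ Y, g * y ∉ Y := by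
    intro g hg y hy h
    exact hg ⟨(g * y, y), ⟨h, hy⟩, by simp⟩
  have hSsymm : ∀ g, g ∉ S → g⁻¹ ∉ S := by
    intro g hg h
    obtain ⟨⟨u, v⟩, ⟨hu, hv⟩, huv⟩ := h
    refine hg ⟨(v, u), ⟨hv, hu⟩, ?_⟩
    have h3 : u * v⁻¹ = g⁻¹ := huv
    have h4 : g = (u * v⁻¹)⁻¹ := by rw [h3, inv_inv]
    rw [h4]
    simp
  have hAP : ∀ a ∈ A, a ∈ P := by
    intro a ha
    have := (hP 1 a ha).mpr h1
    rwa [one_mul] at this
  have hAP' : ∀ a ∈ A', a ∉ S → a ∈ Pᶜ := by
    intro a ha haS h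
    have hD1 : a ∉ D := by
      intro h2
      have h3 := hSY a haS 1 h1Y
      rw [mul_one] at h3
      exact h3 (hDY h2)
    have h3 := (hPP' a hD1).mp h
    have h4 := (hP' 1 a ha)
    rw [one_mul] at h4
    exact h1' (h4.mp h3)
  have keyA : ∀ g ∈ A, g ∉ S → ∀ γ, γ ∉ P → g * γ ∈ P := by
    intro g hg hgS γ hγ
    have h3 := core hgen hDY hYc h1Y hstep (g := g⁻¹) (hSY _ (hSsymm g hgS))
      (by rw [inv_inv]; exact hSY _ hgS) (hAP _ (A.inv_mem hg))
      (by rw [inv_inv]; exact hAP _ hg) γ hγ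
    rwa [inv_inv] at h3
  have keyA' : ∀ g ∈ A', g ∉ S → ∀ γ, γ ∈ P → g * γ ∉ P := by
    intro g hg hgS γ hγ
    have h3 := core hgen hDY hYc h1Y hstep' (g := g⁻¹) (hSY _ (hSsymm g hgS))
      (by rw [inv_inv]; exact hSY _ hgS) (hAP' _ (A'.inv_mem hg) (hSsymm g hgS))
      (by rw [inv_inv]; exact hAP' _ hg hgS) γ (fun h => h hγ)
    rwa [inv_inv] at h3
  -- choose the elements
  obtain ⟨a, haA, haS⟩ := hA.exists_notMem_finite hSf
  obtain ⟨b, hbA, hbS⟩ := hA.exists_notMem_finite (hSf.union (hSf.image fun s => a * s))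
  obtain ⟨a', haA', haS'⟩ := hA'.exists_notMem_finite hSf
  obtain ⟨b', hbA', hbS'⟩ := hA'.exists_notMem_finite (hSf.union (hSf.image fun s => s * a'))
  rw [Set.mem_union, not_or] at hbS hbS'
  have hab : a⁻¹ * b ∉ S := fun h => hbS.2 ⟨a⁻¹ * b, h, by simp⟩
  have hab' : b' * a'⁻¹ ∉ S := fun h => hbS'.2 ⟨b' * a'⁻¹, h, by simp⟩
  have hba : b⁻¹ * a ∉ S := by
    have := hSsymm _ hab
    rwa [mul_inv_rev, inv_inv] at this
  have hba' : a' * b'⁻¹ ∉ S := by
    have := hSsymm _ hab'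
    rwa [mul_inv_rev, inv_inv] at this
  set α : Fin 2 → L := ![a, b] with hα
  set α' : Fin 2 → L := ![a', b'] with hα'
  have hαA : ∀ i, α i ∈ A ∧ α i ∉ S := by
    intro i
    fin_cases i
    · exact ⟨haA, haS⟩
    · exact ⟨hbA, hbS.1⟩
  have hαA' : ∀ i, α' i ∈ A' ∧ α' i ∉ S := by
    intro i
    fin_cases i
    · exact ⟨haA', haS'⟩
    · exact ⟨hbA', hbS'.1⟩
  have hαα : ∀ i j, i ≠ j → (α i)⁻¹ * α j ∉ S := by
    intro i j hij
    fin_cases i <;> fin_cases j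
    · exact absurd rfl hij
    · exact hab
    · exact hba
    · exact absurd rfl hij
  have hαα' : ∀ i j, i ≠ j → α' i * (α' j)⁻¹ ∉ S := by
    intro i j hij
    fin_cases i <;> fin_cases j
    · exact absurd rfl hij
    · exact hba'
    · exact hab'
    · exact absurd rfl hij
  refine ⟨FreeGroup.lift fun i => α i * α' i, ?_⟩
  refine FreeGroup.injective_lift_of_ping_pong (fun i => α i * α' i)
    (fun i => {x : L | (α i)⁻¹ * x ∉ P}) (fun i => {x : L | α' i * x ∈ P}) ?_ ?_ ?_ ?_ ?_ ?_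
  · intro i
    refine ⟨α i * a', ?_⟩
    change (α i)⁻¹ * (α i * a') ∉ P
    rw [inv_mul_cancel_left]
    exact hAP' a' haA' haS'
  · intro i j hij
    change Disjoint {x : L | (α i)⁻¹ * x ∉ P} {x : L | (α j)⁻¹ * x ∉ P}
    rw [Set.disjoint_left]
    intro x hx hx'
    apply hx'
    have h3 := keyA ((α j)⁻¹ * α i) (A.mul_mem (A.inv_mem (hαA j).1) (hαA i).1)
      (hαα j i (Ne.symm hij)) _ hx
    have h4 : (α j)⁻¹ * α i * ((α i)⁻¹ * x) = (α j)⁻¹ * x := by group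
    rwa [h4] at h3
  · intro i j hij
    change Disjoint {x : L | α' i * x ∈ P} {x : L | α' j * x ∈ P}
    rw [Set.disjoint_left]
    intro x hx hx'
    have h3 := keyA' (α' j * (α' i)⁻¹) (A'.mul_mem (hαA' j).1 (A'.inv_mem (hαA' i).1))
      (hαα' j i (Ne.symm hij)) _ hx
    have h4 : α' j * (α' i)⁻¹ * (α' i * x) = α' j * x := by group
    rw [h4] at h3
    exact h3 hx'
  · intro i j
    rw [Set.disjoint_left]
    intro x hx hx'
    have h3 := keyA (α i) (hαA i).1 (hαA i).2 _ hx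
    rw [mul_inv_cancel_left] at h3
    exact keyA' (α' j) (hαA' j).1 (hαA' j).2 x h3 hx'
  · intro i x hx
    obtain ⟨y, hy, rfl⟩ := hx
    change (α i)⁻¹ * (α i * α' i * y) ∉ P
    have h4 : (α i)⁻¹ * (α i * α' i * y) = α' i * y := by group
    rw [h4]
    exact hy
  · intro i x hx
    obtain ⟨y, hy, rfl⟩ := hx
    change α' i * ((α i * α' i)⁻¹ * y) ∈ P
    have h4 : α' i * ((α i * α' i)⁻¹ * y) = (α i)⁻¹ * y := by group
    rw [h4]
    by_contra h5
    exact hy h5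

end Abstract

section Cocycle

variable {m : ℕ} {Γ G : Type} [Group Γ] [Group G]

/-- `z⁻¹ γ z γ⁻¹ = x` in `G`. -/
def Rel (j : W m Γ →* G) (z : G) (γ : Γ) (x : K m Γ) : Prop :=
  z⁻¹ * j (gin γ) * z * (j (gin γ))⁻¹ = j (kin x)

theorem Rel.unique {j : W m Γ →* G} (hj : Function.Injective j) {z : G} {γ : Γ} {x y : K m Γ}
    (hx : Rel j z γ x) (hy : Rel j z γ y) : x = y :=
  SemidirectProduct.inl_injective (hj (hx.symm.trans hy))

theorem Rel.mul {j : W m Γ →* G} {z : G} {γ δ : Γ} {x y : K m Γ}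
    (hx : Rel j z γ x) (hy : Rel j z δ y) : Rel j z (γ * δ) (x * shift m Γ γ y) := by
  unfold Rel at *
  have h1 : j (kin (shift m Γ γ y)) = j (gin γ) * j (kin y) * (j (gin γ))⁻¹ := by
    rw [← gin_kin, map_mul, map_mul, map_inv]
  have h2 : (kin (x * shift m Γ γ y) : W m Γ) = kin x * kin (shift m Γ γ y) := map_mul _ _ _
  have h3 : (gin (γ * δ) : W m Γ) = gin γ * gin δ := map_mul _ _ _
  rw [h2, h3, map_mul, map_mul, h1, ← hx, ← hy]
  group

theorem Rel.of_comm {j : W m Γ →* G} {z : G} {γ : Γ}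
    (h : j (gin γ) * z = z * j (gin γ)) : Rel j z γ 1 := by
  unfold Rel
  have h1 : (kin (1 : K m Γ) : W m Γ) = 1 := map_one _
  rw [h1, map_one, mul_assoc z⁻¹, h]
  group

theorem Rel.of_comm' {j : W m Γ →* G} {z : G} {k : K m Γ} {γ : Γ}
    (h : j (gin γ) * (z * j (kin k)) = z * j (kin k) * j (gin γ)) :
    Rel j z γ (k * (shift m Γ γ k)⁻¹) := by
  unfold Rel
  have h1 : j (kin (shift m Γ γ k)) = j (gin γ) * j (kin k) * (j (gin γ))⁻¹ := by
    rw [← gin_kin, map_mul, map_mul, map_inv]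
  have h2 : (kin (k * (shift m Γ γ k)⁻¹) : W m Γ) = kin k * (kin (shift m Γ γ k))⁻¹ := by
    rw [kin, map_mul, map_inv]
  rw [h2, map_mul, map_inv, h1]
  have h3 : j (gin γ) * z = z * j (kin k) * j (gin γ) * (j (kin k))⁻¹ := by
    rw [← h]
    group
  have h4 : z⁻¹ * j (gin γ) * z * (j (gin γ))⁻¹ =
      z⁻¹ * (j (gin γ) * z) * (j (gin γ))⁻¹ := by group
  rw [h4, h3]
  group

end Cocycle

end MP8a6869.WR.Wand

namespace MP8a6869.WR

open Wand

theorem wand : WandStmt := by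
  intro m Γ G _ _ j hj z k hk hA hA'
  -- the two subgroups
  let A0 : Subgroup Γ :=
    { carrier := {γ : Γ | j (gin γ) * z = z * j (gin γ)}
      one_mem' := by
        have h1 : (gin (1 : Γ) : W m Γ) = 1 := map_one _
        simp only [Set.mem_ofPred_eq]
        rw [h1, map_one, one_mul, mul_one]
      mul_mem' := by
        intro x y hx hy
        simp only [Set.mem_ofPred_eq] at hx hy ⊢
        have h3 : (gin (x * y) : W m Γ) = gin x * gin y := map_mul _ _ _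
        rw [h3, map_mul, mul_assoc, hy, ← mul_assoc, hx, mul_assoc]
      inv_mem' := by
        intro x hx
        simp only [Set.mem_ofPred_eq] at hx ⊢
        have h3 : (gin x⁻¹ : W m Γ) = (gin x)⁻¹ := map_inv _ _
        rw [h3, map_inv, inv_mul_eq_iff_eq_mul, ← mul_assoc, hx, mul_inv_cancel_right] }
  let A1 : Subgroup Γ :=
    { carrier := {γ : Γ | j (gin γ) * (z * j (kin k)) = z * j (kin k) * j (gin γ)}
      one_mem' := by
        have h1 : (gin (1 : Γ) : W m Γ) = 1 := map_one _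
        simp only [Set.mem_ofPred_eq]
        rw [h1, map_one, one_mul, mul_one]
      mul_mem' := by
        intro x y hx hy
        simp only [Set.mem_ofPred_eq] at hx hy ⊢
        generalize z * j (kin k) = w at hx hy ⊢
        have h3 : (gin (x * y) : W m Γ) = gin x * gin y := map_mul _ _ _
        rw [h3, map_mul, mul_assoc, hy, ← mul_assoc, hx, mul_assoc]
      inv_mem' := by
        intro x hx
        simp only [Set.mem_ofPred_eq] at hx ⊢
        generalize z * j (kin k) = w at hx ⊢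
        have h3 : (gin x⁻¹ : W m Γ) = (gin x)⁻¹ := map_inv _ _
        rw [h3, map_inv, inv_mul_eq_iff_eq_mul, ← mul_assoc, hx, mul_inv_cancel_right] }
  have hA0 : (A0 : Set Γ).Infinite := hA
  have hA1 : (A1 : Set Γ).Infinite := hA'
  have relA0 : ∀ γ ∈ A0, Rel j z γ 1 := fun γ hγ => Rel.of_comm hγ
  have relA1 : ∀ γ ∈ A1, Rel j z γ (k * (shift m Γ γ k)⁻¹) := fun γ hγ => Rel.of_comm' hγ
  set Lam : Subgroup Γ := Subgroup.closure ((A0 : Set Γ) ∪ A1) with hLam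
  have hsub0 : A0 ≤ Lam := fun γ hγ => Subgroup.subset_closure (Or.inl hγ)
  have hsub1 : A1 ≤ Lam := fun γ hγ => Subgroup.subset_closure (Or.inr hγ)
  have hex : ∀ γ : Lam, ∃ x : K m Γ, Rel j z (γ : Γ) x := by
    rintro ⟨γ, hγ⟩
    have hu : ∀ y ∈ (A0 : Set Γ) ∪ A1, ∃ x : K m Γ, Rel j z y x := by
      intro y hy
      rcases hy with hy | hy
      · exact ⟨_, relA0 y hy⟩
      · exact ⟨_, relA1 y hy⟩
    change ∃ x : K m Γ, Rel j z γ x
    rw [hLam] at hγ
    induction hγ using Subgroup.closure_induction_right with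
    | one => exact ⟨1, relA0 1 A0.one_mem⟩
    | mul_right x hx y hy ih =>
      obtain ⟨u, hu1⟩ := ih
      obtain ⟨v, hv⟩ := hu y hy
      exact ⟨_, hu1.mul hv⟩
    | mul_inv_cancel x hx y hy ih =>
      obtain ⟨u, hu1⟩ := ih
      have hy' : y⁻¹ ∈ (A0 : Set Γ) ∪ A1 := by
        rcases hy with hy | hy
        · exact Or.inl (A0.inv_mem hy)
        · exact Or.inr (A1.inv_mem hy)
      obtain ⟨v, hv⟩ := hu _ hy'
      exact ⟨_, hu1.mul hv⟩
  choose κ hκ using hex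
  have hκmul : ∀ γ δ : Lam, κ (γ * δ) = κ γ * shift m Γ (γ : Γ) (κ δ) := fun γ δ =>
    Rel.unique hj (hκ (γ * δ)) ((hκ γ).mul (hκ δ))
  have hκ0 : ∀ γ : Lam, (γ : Γ) ∈ A0 → κ γ = 1 := fun γ hγ =>
    Rel.unique hj (hκ γ) (relA0 _ hγ)
  have hκ1 : ∀ γ : Lam, (γ : Γ) ∈ A1 → κ γ = k * (shift m Γ (γ : Γ) k)⁻¹ := fun γ hγ =>
    Rel.unique hj (hκ γ) (relA1 _ hγ)
  -- the site
  obtain ⟨s, hs⟩ : ∃ s : Γ, k.toAdd s ≠ 0 := by
    by_contra hcon
    push Not at hcon
    apply hk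
    apply Multiplicative.toAdd.injective
    exact Finsupp.ext fun t => hcon t
  have hinf : ∀ B : Subgroup Γ, B ≤ Lam → (B : Set Γ).Infinite →
      ((B.subgroupOf Lam : Subgroup Lam) : Set Lam).Infinite := by
    intro B hB hBi
    refine Set.Infinite.of_image (fun x : Lam => (x : Γ)) ?_
    refine hBi.mono ?_
    intro x hx
    exact ⟨⟨x, hB hx⟩, Subgroup.mem_subgroupOf.mpr hx, rfl⟩
  suffices hmain : ∃ f : FreeGroup (Fin 2) →* Lam, Function.Injective f by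
    obtain ⟨f, hf⟩ := hmain
    exact ⟨Lam.subtype.comp f, Lam.subtype_injective.comp hf⟩
  refine free_of_almost_invariant (L := Lam) (A0.subgroupOf Lam) (A1.subgroupOf Lam)
    (hinf A0 hsub0 hA0) (hinf A1 hsub1 hA1)
    (Subgroup.closure_closure_coe_preimage (k := (A0 : Set Γ) ∪ A1))
    {γ : Lam | (κ γ).toAdd s = 0} {γ : Lam | (κ γ * shift m Γ (γ : Γ) k).toAdd s = 0}
    {γ : Lam | k.toAdd ((γ : Γ)⁻¹ * s) ≠ 0} ?_ ?_ ?_ ?_ ?_ ?_
  · have hfin : ((k.toAdd.support : Set Γ)).Finite := k.toAdd.support.finite_toSet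
    refine (hfin.preimage (f := fun γ : Lam => (γ : Γ)⁻¹ * s) ?_).subset ?_
    · intro x _ y _ hxy
      have h1 : (x : Γ)⁻¹ = (y : Γ)⁻¹ := mul_right_cancel hxy
      exact Subtype.ext (inv_injective h1)
    · intro x hx
      exact Finsupp.mem_support_iff.mpr hx
  · intro γ a ha
    have h1 : κ (γ * a) = κ γ := by
      rw [hκmul, hκ0 a (Subgroup.mem_subgroupOf.mp ha), map_one, mul_one]
    simp only [Set.mem_ofPred_eq]
    rw [h1]
  · intro γ a ha
    have h1 : κ (γ * a) * shift m Γ ((γ * a : Lam) : Γ) k = κ γ * shift m Γ (γ : Γ) k := by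
      rw [hκmul, hκ1 a (Subgroup.mem_subgroupOf.mp ha), Subgroup.coe_mul, map_mul (shift m Γ),
        MulAut.mul_apply, map_mul, map_inv]
      group
    simp only [Set.mem_ofPred_eq]
    rw [h1]
  · change (κ 1).toAdd s = 0
    rw [hκ0 1 A0.one_mem]
    rfl
  · change ¬ ((κ 1 * shift m Γ ((1 : Lam) : Γ) k).toAdd s = 0)
    rw [hκ0 1 A0.one_mem, Subgroup.coe_one, map_one, MulAut.one_apply, one_mul]
    exact hs
  · intro γ hγ
    simp only [Set.mem_ofPred_eq, not_not] at hγ ⊢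
    have h1 : (κ γ * shift m Γ (γ : Γ) k).toAdd s =
        (κ γ).toAdd s + k.toAdd ((γ : Γ)⁻¹ * s) := rfl
    rw [h1, hγ, add_zero]

end MP8a6869.WR
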