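import Pool.Agent.Work.MP_8a6869_an.Stmts

/-!
# MP_8a6869_an, wreath products: definitions

`W m Γ = (ℤ/m) ≀ Γ` (restricted), amenability, the marker involution.
-/

namespace MP8a6869.WR

open scoped InnerProductSpace ComplexOrder
open MonoidAlgebra Filter Topology

noncomputable section

/-- A discrete group is amenable: it has a left invariant finitely additive probability measure
defined on all its subsets. -/
def IsAmen (Γ : Type) [Group Γ] : Prop :=
  ∃ m : Set Γ → ℝ, (∀ A, 0 ≤ m A) ∧ m Set.univ = 1 ∧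
    (∀ A B, Disjoint A B → m (A ∪ B) = m A + m B) ∧
    ∀ (g : Γ) (A : Set Γ), m ((fun x => g * x) '' A) = m A

/-- `⊕_Γ ℤ/m`, written multiplicatively. -/
abbrev K (m : ℕ) (Γ : Type) : Type := Multiplicative (Γ →₀ ZMod m)

variable {m : ℕ} {Γ : Type} [Group Γ]

/-- The translation of `⊕_Γ ℤ/m` by `γ`: `(γ k)(s) = k(γ⁻¹ s)`. -/
def shiftEquiv (m : ℕ) {Γ : Type} [Group Γ] (γ : Γ) : MulAut (K m Γ) :=
  AddEquiv.toMultiplicative (Finsupp.domCongr (Equiv.mulLeft γ))

@[simp] theorem shiftEquiv_apply (γ : Γ) (k : K m Γ) (s : Γ) :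
    (shiftEquiv m γ k).toAdd s = k.toAdd (γ⁻¹ * s) := rfl

/-- The action of `Γ` on `⊕_Γ ℤ/m` by translations. -/
def shift (m : ℕ) (Γ : Type) [Group Γ] : Γ →* MulAut (K m Γ) where
  toFun γ := shiftEquiv m γ
  map_one' := MulEquiv.ext fun k => Multiplicative.toAdd.injective <| Finsupp.ext fun s => by
    simp
  map_mul' γ δ := MulEquiv.ext fun k => Multiplicative.toAdd.injective <| Finsupp.ext fun s => by
    simp [mul_assoc]

@[simp] theorem shift_apply (γ : Γ) (k : K m Γ) (s : Γ) :
    (shift m Γ γ k).toAdd s = k.toAdd (γ⁻¹ * s) := rfl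

/-- The restricted wreath product `(ℤ/m) ≀ Γ = (⊕_Γ ℤ/m) ⋊ Γ`. -/
abbrev W (m : ℕ) (Γ : Type) [Group Γ] : Type := SemidirectProduct (K m Γ) Γ (shift m Γ)

/-- The inclusion of `⊕_Γ ℤ/m`. -/
abbrev kin (k : K m Γ) : W m Γ := SemidirectProduct.inl k

/-- The inclusion of `Γ`. -/
abbrev gin (γ : Γ) : W m Γ := SemidirectProduct.inr γ

theorem gin_kin (γ : Γ) (k : K m Γ) : gin γ * kin k * (gin γ)⁻¹ = kin (shift m Γ γ k) :=
  by rw [kin, kin, gin, ← map_inv, SemidirectProduct.inl_aut]

/-- The restricted wreath product `C ≀ Γ`: the elements of Mathlib's regular wreath product whose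
function `Γ → C` has finite support. -/
def restrictedWreath (C Γ : Type) [Group C] [Group Γ] : Subgroup (C ≀ᵣ Γ) where
  carrier := {p | (Function.mulSupport p.left).Finite}
  one_mem' := by simp
  mul_mem' {p q} hp hq := by
    have h : Function.mulSupport (p * q).left ⊆
        Function.mulSupport p.left ∪ (fun x => p.right * x) '' Function.mulSupport q.left := by
      intro x hx
      by_contra h
      rw [Set.mem_union, not_or] at h
      obtain ⟨h1, h2⟩ := h
      apply hx
      rw [Function.notMem_mulSupport] at h1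
      have h3 : q.left (p.right⁻¹ * x) = 1 := by
        by_contra h4
        exact h2 ⟨p.right⁻¹ * x, h4, by simp⟩
      simp [h1, h3]
    exact (Set.Finite.union hp (Set.Finite.image _ hq)).subset h
  inv_mem' {p} hp := by
    refine (Set.Finite.image (fun x => p.right⁻¹ * x) hp).subset ?_
    intro x hx
    refine ⟨p.right * x, ?_, by simp⟩
    intro h
    apply hx
    simp [h]

/-! ## The marker involution -/

/-- The complex group ring of `⊕_Γ ℤ/m` (a commutative ring). -/
abbrev CK (m : ℕ) (Γ : Type) : Type := MonoidAlgebra ℂ (K m Γ)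

/-- The generator of `ℤ/m` at the site `s`. -/
def gen (m : ℕ) {Γ : Type} (s : Γ) : K m Γ := Multiplicative.ofAdd (Finsupp.single s 1)

/-- A primitive `m`-th root of unity. -/
def om (m : ℕ) : ℂ := Complex.exp (2 * Real.pi * Complex.I / m)

/-- The projection `(1/m) ∑ c_s^i` of the trivial character at the site `s`. -/
def e0 (m : ℕ) {Γ : Type} (s : Γ) : CK m Γ :=
  ∑ i ∈ Finset.range m, single (gen m s ^ i) ((m : ℂ)⁻¹)

/-- The projection `(1/m) ∑ ω^-i c_s^i` of the character `c_s ↦ ω` at the site `s`. -/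
def e1 (m : ℕ) {Γ : Type} (s : Γ) : CK m Γ :=
  ∑ i ∈ Finset.range m, single (gen m s ^ i) ((m : ℂ)⁻¹ * (om m)⁻¹ ^ i)

/-- The marker at the site `s`: trivial character at `sa`, character `ω` at `sa⁻¹` and `sa²`. -/
def mk (m : ℕ) {Γ : Type} [Group Γ] (a s : Γ) : CK m Γ :=
  e0 m (s * a) * e1 m (s * a⁻¹) * e1 m (s * a * a)

/-- The image of `c_s`: at a marked site the characters `1` and `ω` are exchanged. -/
def um (m : ℕ) {Γ : Type} [Group Γ] (a s : Γ) : CK m Γ :=
  single (gen m s) 1 + (om m - 1) • ((e0 m s - e1 m s) * mk m a s)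

end

end MP8a6869.WR
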