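import Pool.Agent.Work.MP_8a6869_an.WR.Stmts2
import Pool.Agent.Work.MP_8a6869_an.WR.Final

/-!
# MP_8a6869_an, wreath products: assembly of the items, arbitrary lamp groups
-/

namespace MP8a6869.WR

open scoped InnerProductSpace ComplexOrder
open MonoidAlgebra Filter Topology

noncomputable section

theorem main2_of (hFin : MainWStmt) (hAmen : AmenStmt) (hEmb0 : Emb0Stmt) (hCross : CrossStmt)
    (hCovZ : CovZStmt) (hModel2 : Model2Stmt) (hSeq : SeqStmt) (hContra2 : Contra2Stmt) :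
    MainW2Stmt := by
  intro G _ _ hicc C Γ _ _ c hc hΓ hf
  by_cases hcfin : IsOfFinOrder c
  · exact hFin G hicc C Γ c hc hcfin hΓ hf
  obtain ⟨f, hf⟩ := hf
  by_cases hfree : ∃ φ : FreeGroup (Fin 2) →* Γ, Function.Injective φ
  · obtain ⟨φ, hφ⟩ := hfree
    exact MP8a6869.main G hicc ⟨f.comp ((rwInl C Γ).comp φ),
      hf.comp ((rwInl_injective C Γ).comp hφ)⟩
  · obtain ⟨hinf, -⟩ := hAmen Γ hΓ
    obtain ⟨e, he⟩ := hEmb0 C Γ c hcfin
    have hj : Function.Injective (f.comp e) := hf.comp he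
    have hinfG : Infinite G := by
      refine Infinite.of_injective (fun γ : Γ => (f.comp e) (gin γ)) ?_
      intro x y hxy
      exact SemidirectProduct.inr_injective (hj hxy)
    obtain ⟨C₀, hC₀, hl1⟩ := hCovZ Γ
    obtain ⟨C₁, hC1, hC2⟩ := hCross 0 Γ C₀ hC₀
    obtain ⟨M, hM, hsep, ι, ξ, hξ⟩ := hModel2 G hicc (W 0 Γ) (f.comp e) hj C₁
    refine ⟨M, hM, hsep, ι, fun U hU => ?_⟩
    obtain ⟨v, hv⟩ := hSeq U G M ι hU ξ
    have key := hContra2 0 Γ G (f.comp e) hj hΓ hfree U v ?_ (gen 0 1)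
      (fun x => (C₀.E (single (gen 0 1) 1)).coeff x)
      (C₀.E (single (gen 0 (1 : Γ)) 1)).coeff.support ?_
    · exact absurd key (not_le.2 hl1)
    · intro γ
      have h := hv ((f.comp e) (gin γ)) ((f.comp e) (gin γ))
      rw [hξ, hC1, coeff_single, Finsupp.single_eq_same] at h
      exact h
    · intro x _
      have h := hv ((f.comp e) (kin (gen 0 1))) ((f.comp e) (kin x))
      rw [hξ, hC2] at h
      exact h

/-- the main theorem in the final definitions -/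
theorem main2_pub (hAmen : AmenStmt) (h : MainW2Stmt) (G : Type) [Group G] [Countable G]
    (hicc : ∀ g : G, g ≠ 1 → (Set.range fun h : G => h * g * h⁻¹).Infinite)
    (C Γ : Type) [Group C] [Group Γ] [Nontrivial C]
    (hΓ : ¬ IsAmen Γ) (hf : ∃ f : restrictedWreath C Γ →* G, Function.Injective f) :
    (MP8a6869Pub.LG G).IsII1Factor ∧ (MP8a6869Pub.LG G).IsSeparable ∧
      ∃ M : MP8a6869Pub.TracialVNA, M.IsII1Factor ∧ M.IsSeparable ∧
        ∃ ι : MP8a6869Pub.Embedding (MP8a6869Pub.LG G) M,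
          ∀ U : Ultrafilter ℕ, ¬ MP8a6869Pub.IsExistential U ι := by
  obtain ⟨c, hc⟩ := exists_ne (1 : C)
  obtain ⟨M, hM, hsep, ι, hι⟩ := h G hicc C Γ c hc hΓ hf
  obtain ⟨f, hf⟩ := hf
  have hinf : Infinite Γ := (hAmen Γ hΓ).1
  have h1 : Infinite G :=
    Infinite.of_injective (fun γ : Γ => f (rwInl C Γ γ)) (hf.comp (rwInl_injective C Γ))
  exact ⟨MP8a6869Pub.isII1Factor_of (MP8a6869.LG_factor G hicc),
    MP8a6869.Sep.separable_ell2 G, MP8a6869Pub.toPub M,
    MP8a6869Pub.isII1Factor_of hM, hsep, MP8a6869Pub.toPubEmb ι,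
    fun U hU => hι U (MP8a6869Pub.isExistential_of hU)⟩

end

end MP8a6869.WR
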