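import Pool.Agent.Work.MP_8a6869_an.WR.Defs

/-!
# MP_8a6869_an, wreath products: the statements of the items
-/

namespace MP8a6869.WR

open scoped InnerProductSpace ComplexOrder
open MonoidAlgebra Filter Topology

noncomputable section

/-! ## Group theory -/

/-- [WAND] If `z` and `z k`, `k ≠ 1` in `⊕_Γ ℤ/m`, both commute with infinitely many elements of
`Γ`, then `Γ` contains a free group of rank 2. -/
def WandStmt : Prop :=
  ∀ (m : ℕ) (Γ G : Type) [Group Γ] [Group G] (j : W m Γ →* G), Function.Injective j →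
    ∀ (z : G) (k : K m Γ), k ≠ 1 →
      {γ : Γ | j (gin γ) * z = z * j (gin γ)}.Infinite →
      {γ : Γ | j (gin γ) * (z * j (kin k)) = z * j (kin k) * j (gin γ)}.Infinite →
      ∃ f : FreeGroup (Fin 2) →* Γ, Function.Injective f

/-- [CONC] Almost invariant vectors of a nonamenable group have no mass at the points with finite
stabiliser. -/
def ConcStmt : Prop :=
  ∀ (Γ X : Type) [Group Γ] [MulAction Γ X], ¬ IsAmen Γ →
    ∀ (U : Ultrafilter ℕ) (v : ℕ → ell2 X), Tendsto (fun n => ‖v n‖) U (𝓝 1) →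
      (∀ γ : Γ, Tendsto (fun n => ‖permL (MulAction.toPerm γ) (v n) - v n‖) U (𝓝 0)) →
      Tendsto (fun n => ∑' x : {x : X // {γ : Γ | γ • x = x}.Finite}, ‖v n x.1‖ ^ 2) U (𝓝 0)

/-- [AMEN] A nonamenable group is infinite and not of exponent 2. -/
def AmenStmt : Prop :=
  ∀ (Γ : Type) [Group Γ], ¬ IsAmen Γ → Infinite Γ ∧ ∃ a : Γ, a * a ≠ 1

/-- [EMB] `C ≀ Γ` contains `(ℤ/m) ≀ Γ` if `C` has an element of finite order `m ≥ 2`. -/
def EmbStmt : Prop :=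
  ∀ (C Γ : Type) [Group C] [Group Γ] (c : C), c ≠ 1 → IsOfFinOrder c →
    ∃ m : ℕ, 2 ≤ m ∧ ∃ f : W m Γ →* restrictedWreath C Γ, Function.Injective f

/-! ## The marker involution -/

/-- [AUTA] The two projections. -/
def AutAStmt : Prop :=
  ∀ (m : ℕ) (Γ : Type), 2 ≤ m →
    om m ^ m = 1 ∧ om m ≠ 1 ∧ (starRingEnd ℂ) (om m) = (om m)⁻¹ ∧
    ∀ s : Γ, (gen m s) ^ m = 1 ∧
      e0 m s * e0 m s = e0 m s ∧ e1 m s * e1 m s = e1 m s ∧ e0 m s * e1 m s = 0 ∧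
      star (e0 m s) = e0 m s ∧ star (e1 m s) = e1 m s ∧
      (single (gen m s) 1 : CK m Γ) * e0 m s = e0 m s ∧
      (single (gen m s) 1 : CK m Γ) * e1 m s = om m • e1 m s

/-- [AUTB] The endomorphism `β` of `ℂ[⊕_Γ ℤ/m]` with `β(c_s) = um m a s`. -/
def AutBStmt : Prop :=
  ∀ (m : ℕ) (Γ : Type) [Group Γ], 2 ≤ m → ∀ a : Γ,
    ∃ β : CK m Γ →⋆ₐ[ℂ] CK m Γ, ∀ s, β (single (gen m s) 1) = um m a s

/-- [AUTC] `β` is an involution. -/
def AutCStmt : Prop :=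
  ∀ (m : ℕ) (Γ : Type) [Group Γ], 2 ≤ m → ∀ (a : Γ) (β : CK m Γ →⋆ₐ[ℂ] CK m Γ),
    (∀ s, β (single (gen m s) 1) = um m a s) → ∀ x, β (β x) = x

/-- [AUTD] `β` preserves the trace. -/
def AutDStmt : Prop :=
  ∀ (m : ℕ) (Γ : Type) [Group Γ], 2 ≤ m → ∀ (a : Γ), a * a ≠ 1 →
    ∀ (β : CK m Γ →⋆ₐ[ℂ] CK m Γ), (∀ s, β (single (gen m s) 1) = um m a s) →
      ∀ x, (β x).coeff 1 = x.coeff 1

/-- [AUTE] `β` commutes with the translations. -/
def AutEStmt : Prop :=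
  ∀ (m : ℕ) (Γ : Type) [Group Γ], 2 ≤ m → ∀ (a : Γ) (β : CK m Γ →⋆ₐ[ℂ] CK m Γ),
    (∀ s, β (single (gen m s) 1) = um m a s) → ∀ (γ : Γ) (k l : K m Γ),
      (β (single (shift m Γ γ k) 1)).coeff (shift m Γ γ l) = (β (single k 1)).coeff l

/-- [AUTF] The unitary `um m a 1` has `ℓ¹` norm greater than one. -/
def AutFStmt : Prop :=
  ∀ (m : ℕ) (Γ : Type) [Group Γ], 2 ≤ m → ∀ (a : Γ), a * a ≠ 1 →
    1 < ∑ k ∈ (um m a (1 : Γ)).coeff.support, ‖(um m a (1 : Γ)).coeff k‖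

/-- [AUTW] From `β` to an involution `σ` of `ℂ[W]` which fixes `Γ`. -/
def AutWStmt : Prop :=
  ∀ (m : ℕ) (Γ : Type) [Group Γ] (β : CK m Γ →⋆ₐ[ℂ] CK m Γ), (∀ x, β (β x) = x) →
    (∀ x, (β x).coeff 1 = x.coeff 1) →
    (∀ (γ : Γ) (k l : K m Γ),
      (β (single (shift m Γ γ k) 1)).coeff (shift m Γ γ l) = (β (single k 1)).coeff l) →
    ∃ σ : MonoidAlgebra ℂ (W m Γ) →⋆ₐ[ℂ] MonoidAlgebra ℂ (W m Γ),
      (∀ x, (σ x).coeff 1 = x.coeff 1) ∧ (∀ x, σ (σ x) = x) ∧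
      (∀ γ : Γ, σ (single (gin γ) 1) = single (gin γ) 1) ∧
      ∀ k l : K m Γ, (σ (single (kin k) 1)).coeff (kin l) = (β (single k 1)).coeff l

/-! ## The factor -/

/-- [COVG] The covariance of an involution of the group ring of a subgroup. -/
def CovGStmt : Prop :=
  ∀ (H L : Type) [Group H] [Group L] (i : L →* H), Function.Injective i →
    ∀ σ : MonoidAlgebra ℂ L →⋆ₐ[ℂ] MonoidAlgebra ℂ L, (∀ x, (σ x).coeff 1 = x.coeff 1) →
      (∀ x, σ (σ x) = x) →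
      ∃ C : Cov (trB H),
        (∀ w w' : L, (C.E (single (i w) 1)).coeff (i w') = (σ (single w 1)).coeff w') ∧
        ∀ h, h ∉ Set.range i → C.E (single h 1) = 0

/-- [L2FB] Bounded tracial functionals of `ℂ[H]`, `H` icc. -/
def L2FBStmt : Prop :=
  ∀ (H : Type) [Group H], (∀ g : H, g ≠ 1 → (Set.range fun h : H => h * g * h⁻¹).Infinite) →
    ∀ f : MonoidAlgebra ℂ H →ₗ[ℂ] ℂ,
      (∃ κ : ℝ, ∀ x, ‖f x‖ ^ 2 ≤ κ * ((trB H).τ (star x * x)).re) →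
      (∀ a x, f (a * x) = f (x * a)) → ∀ x, f x = f 1 * (trB H).τ x

/-- [NEUMB] Separation by the second factor. -/
def NeumBStmt : Prop :=
  ∀ (G : Type) [Group G] [Infinite G]
    (E : MonoidAlgebra ℂ (G × G) →ₗ[ℂ] MonoidAlgebra ℂ (G × G)),
    (∀ h : G × G, h.2 ≠ 1 → E (single h 1) = 0) →
    ∀ (n : Type) [Finite n] (x y : n → MonoidAlgebra ℂ (G × G)), ∃ g : G × G, ∀ j,
      E (star (y j) * single g 1 * x j) = 0

/-- [MODEL] The II_1 factor `M ⊇ L(G)` of an involution `σ` of `ℂ[L]`, `L ≤ G`, and its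
semicircular element. -/
def ModelStmt : Prop :=
  ∀ (G : Type) [Group G] [Countable G] [Infinite G],
    (∀ g : G, g ≠ 1 → (Set.range fun h : G => h * g * h⁻¹).Infinite) →
    ∀ (L : Type) [Group L] (j : L →* G), Function.Injective j →
      ∀ σ : MonoidAlgebra ℂ L →⋆ₐ[ℂ] MonoidAlgebra ℂ L, (∀ x, (σ x).coeff 1 = x.coeff 1) →
        (∀ x, σ (σ x) = x) →
        ∃ M : TracialVNA, M.IsII1Factor ∧ TopologicalSpace.SeparableSpace M.H ∧
          ∃ (ι : Embedding (LG G) M) (ξ : M.Elt), ∀ w w' : L,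
            M.tr (star ξ * (ι.hom ⟨leftReg G (j w), leftReg_mem G _⟩ * ξ *
              ι.hom ⟨leftReg G (j w')⁻¹, leftReg_mem G _⟩)) = (σ (single w 1)).coeff w'

/-! ## The contradiction -/

/-- [SEQ] The bimodule coefficients of an element of an existential extension are limits of
coefficients of vectors of `ℓ²(G)`. -/
def SeqStmt : Prop :=
  ∀ (U : Ultrafilter ℕ) (G : Type) [Group G] (M : TracialVNA) (ι : Embedding (LG G) M),
    IsExistential U ι → ∀ ξ : M.Elt, ∃ v : ℕ → ell2 G, ∀ g h : G,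
      Tendsto (fun n => ⟪v n, leftReg G g (rightReg G h (v n))⟫_ℂ) U
        (𝓝 (M.tr (star ξ * (ι.hom ⟨leftReg G g, leftReg_mem G g⟩ * ξ *
          ι.hom ⟨leftReg G h⁻¹, leftReg_mem G h⁻¹⟩))))

/-- [CONTRA] Vectors of `ℓ²(G)` which are almost invariant under conjugation by `Γ` satisfy the
`ℓ¹` inequality. -/
def ContraStmt : Prop :=
  ∀ (m : ℕ) (Γ G : Type) [NeZero m] [Group Γ] [Group G] (j : W m Γ →* G),
    Function.Injective j → ¬ IsAmen Γ →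
    (¬ ∃ f : FreeGroup (Fin 2) →* Γ, Function.Injective f) →
    ∀ (U : Ultrafilter ℕ) (v : ℕ → ell2 G),
      (∀ γ : Γ, Tendsto (fun n => ⟪v n, leftReg G (j (gin γ)) (rightReg G (j (gin γ)) (v n))⟫_ℂ)
        U (𝓝 1)) →
      ∀ (c : K m Γ) (a : K m Γ → ℂ) (S : Finset (K m Γ)),
        (∀ x ∈ S, Tendsto (fun n => ⟪v n, leftReg G (j (kin c)) (rightReg G (j (kin x)) (v n))⟫_ℂ)
          U (𝓝 (a x))) → ∑ x ∈ S, ‖a x‖ ≤ 1

/-- [FINAL] The main theorem. -/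
def MainWStmt : Prop :=
  ∀ (G : Type) [Group G] [Countable G],
    (∀ g : G, g ≠ 1 → (Set.range fun h : G => h * g * h⁻¹).Infinite) →
    ∀ (C Γ : Type) [Group C] [Group Γ] (c : C), c ≠ 1 → IsOfFinOrder c → ¬ IsAmen Γ →
      (∃ f : restrictedWreath C Γ →* G, Function.Injective f) →
      ∃ M : TracialVNA, M.IsII1Factor ∧ TopologicalSpace.SeparableSpace M.H ∧
        ∃ ι : Embedding (LG G) M, ∀ U : Ultrafilter ℕ, ¬ IsExistential U ι

end

end MP8a6869.WR
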