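import Pool.Agent.Work.MP_8a6869_an.WR.Stmts

/-!
# MP_8a6869_an, wreath products: the statements of the items for lamps of infinite order
-/

namespace MP8a6869.WR

open scoped InnerProductSpace ComplexOrder
open MonoidAlgebra Filter Topology

noncomputable section

/-- [COVH] A covariance of the group ring of a subgroup extends by zero. -/
def CovHStmt : Prop :=
  ∀ (H L : Type) [Group H] [Group L] (i : L →* H), Function.Injective i →
    ∀ C₀ : Cov (trB L), ∃ C : Cov (trB H),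
      (∀ w w' : L, (C.E (single (i w) 1)).coeff (i w') = (C₀.E (single w 1)).coeff w') ∧
        ∀ h, h ∉ Set.range i → C.E (single h 1) = 0

/-- [CROSS] A translation equivariant covariance of `ℂ[⊕_Γ ℤ/m]` extends to `ℂ[(ℤ/m) ≀ Γ]`,
fixing `Γ`. -/
def CrossStmt : Prop :=
  ∀ (m : ℕ) (Γ : Type) [Group Γ] (C₀ : Cov (trB (K m Γ))),
    (∀ (γ : Γ) (k l : K m Γ),
      (C₀.E (single (shift m Γ γ k) 1)).coeff (shift m Γ γ l) = (C₀.E (single k 1)).coeff l) →
    ∃ C : Cov (trB (W m Γ)), (∀ γ : Γ, C.E (single (gin γ) 1) = single (gin γ) 1) ∧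
      ∀ k l : K m Γ, (C.E (single (kin k) 1)).coeff (kin l) = (C₀.E (single k 1)).coeff l

/-- [COVZ] An equivariant covariance of `ℂ[⊕_Γ ℤ]` which maps a generator to an element of
`ℓ¹` norm greater than one. -/
def CovZStmt : Prop :=
  ∀ (Γ : Type) [Group Γ], ∃ C₀ : Cov (trB (K 0 Γ)),
    (∀ (γ : Γ) (k l : K 0 Γ),
      (C₀.E (single (shift 0 Γ γ k) 1)).coeff (shift 0 Γ γ l) = (C₀.E (single k 1)).coeff l) ∧
    1 < ∑ k ∈ (C₀.E (single (gen 0 (1 : Γ)) 1)).coeff.support,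
      ‖(C₀.E (single (gen 0 (1 : Γ)) 1)).coeff k‖

/-- [MODEL2] The II_1 factor `M ⊇ L(G)` of a covariance of `ℂ[L]`, `L ≤ G`. -/
def Model2Stmt : Prop :=
  ∀ (G : Type) [Group G] [Countable G] [Infinite G],
    (∀ g : G, g ≠ 1 → (Set.range fun h : G => h * g * h⁻¹).Infinite) →
    ∀ (L : Type) [Group L] (j : L →* G), Function.Injective j → ∀ C₀ : Cov (trB L),
      ∃ M : TracialVNA, M.IsII1Factor ∧ TopologicalSpace.SeparableSpace M.H ∧
        ∃ (ι : Embedding (LG G) M) (ξ : M.Elt), ∀ w w' : L,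
          M.tr (star ξ * (ι.hom ⟨leftReg G (j w), leftReg_mem G _⟩ * ξ *
            ι.hom ⟨leftReg G (j w')⁻¹, leftReg_mem G _⟩)) = (C₀.E (single w 1)).coeff w'

/-- [CONTRA2] As [CONTRA], for all `m` (in particular `m = 0`, the sum of copies of `ℤ`). -/
def Contra2Stmt : Prop :=
  ∀ (m : ℕ) (Γ G : Type) [Group Γ] [Group G] (j : W m Γ →* G),
    Function.Injective j → ¬ IsAmen Γ →
    (¬ ∃ f : FreeGroup (Fin 2) →* Γ, Function.Injective f) →
    ∀ (U : Ultrafilter ℕ) (v : ℕ → ell2 G),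
      (∀ γ : Γ, Tendsto (fun n => ⟪v n, leftReg G (j (gin γ)) (rightReg G (j (gin γ)) (v n))⟫_ℂ)
        U (𝓝 1)) →
      ∀ (c : K m Γ) (a : K m Γ → ℂ) (S : Finset (K m Γ)),
        (∀ x ∈ S, Tendsto (fun n => ⟪v n, leftReg G (j (kin c)) (rightReg G (j (kin x)) (v n))⟫_ℂ)
          U (𝓝 (a x))) → ∑ x ∈ S, ‖a x‖ ≤ 1

/-- [EMB0] `C ≀ Γ` contains `ℤ ≀ Γ` if `C` has an element of infinite order. -/
def Emb0Stmt : Prop :=
  ∀ (C Γ : Type) [Group C] [Group Γ] (c : C), ¬ IsOfFinOrder c →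
    ∃ f : W 0 Γ →* restrictedWreath C Γ, Function.Injective f

/-- [FINAL2] The main theorem for arbitrary nontrivial lamp groups. -/
def MainW2Stmt : Prop :=
  ∀ (G : Type) [Group G] [Countable G],
    (∀ g : G, g ≠ 1 → (Set.range fun h : G => h * g * h⁻¹).Infinite) →
    ∀ (C Γ : Type) [Group C] [Group Γ] (c : C), c ≠ 1 → ¬ IsAmen Γ →
      (∃ f : restrictedWreath C Γ →* G, Function.Injective f) →
      ∃ M : TracialVNA, M.IsII1Factor ∧ TopologicalSpace.SeparableSpace M.H ∧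
        ∃ ι : Embedding (LG G) M, ∀ U : Ultrafilter ℕ, ¬ IsExistential U ι

end

end MP8a6869.WR
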