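import Pool.Agent.Work.MP_8a6869_an.WR.Stmts

/-!
# MP_8a6869_an, homogeneity: the statements of the items
-/

namespace MP8a6869.WR

open scoped InnerProductSpace ComplexOrder
open MonoidAlgebra Filter Topology

noncomputable section

/-- [CONCA] Almost invariant vectors of a nonamenable group have no mass at the points with
amenable stabiliser. -/
def ConcAStmt : Prop :=
  ∀ (Γ X : Type) [Group Γ] [MulAction Γ X], ¬ IsAmen Γ →
    ∀ (U : Ultrafilter ℕ) (v : ℕ → ell2 X), Tendsto (fun n => ‖v n‖) U (𝓝 1) →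
      (∀ γ : Γ, Tendsto (fun n => ‖permL (MulAction.toPerm γ) (v n) - v n‖) U (𝓝 0)) →
      Tendsto (fun n => ∑' x : {x : X // IsAmen (MulAction.stabilizer Γ x)}, ‖v n x.1‖ ^ 2) U (𝓝 0)

/-- [COVA] The covariance of two embeddings `i, α` of a group `H` in `G`: the conditional
expectation of `M_3(ℂ[G × G])` onto the span of the `diag (α h, h, h)`. -/
def CovAStmt : Prop :=
  ∀ (G H : Type) [Group G] [Group H] (i α : H →* G), Function.Injective i →
    Function.Injective α → ∃ C : Cov (trA (G × G)),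
      (∀ (h : G × G) (m : M3), h.2 ≠ 1 → C.E (single h m) = 0) ∧
      (∀ h : H, C.E (single (α h, 1) (Matrix.single 0 0 1)) =
        (1 / 3 : ℂ) • (single (α h, 1) (Matrix.single 0 0 1) +
          single (i h, 1) (Matrix.single 1 1 1 + Matrix.single 2 2 1))) ∧
      ∀ g : G, (∀ h : H, α h ≠ g) → C.E (single (g, 1) (Matrix.single 0 0 1)) = 0

/-- [MODELA] The II_1 factor `M ⊇ L(G)` of two embeddings `i, α` of a group `H` in `G`, and an
element `ξ` of norm one with `α(h) ξ = ξ i(h)`. -/
def ModelAStmt : Prop :=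
  ∀ (G : Type) [Group G] [Countable G] [Infinite G],
    (∀ g : G, g ≠ 1 → (Set.range fun h : G => h * g * h⁻¹).Infinite) →
    ∀ (H : Type) [Group H] (i α : H →* G), Function.Injective i → Function.Injective α →
      ∃ M : TracialVNA, M.IsII1Factor ∧ TopologicalSpace.SeparableSpace M.H ∧
        ∃ (ι : Embedding (LG G) M) (ξ : M.Elt),
          (∀ h : H, M.tr (star ξ * (ι.hom ⟨leftReg G (α h), leftReg_mem G _⟩ * ξ *
            ι.hom ⟨leftReg G (i h)⁻¹, leftReg_mem G _⟩)) = 1) ∧
          ∀ g g' : G, (∀ h : H, i h = g → α h ≠ g') →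
            M.tr (star ξ * (ι.hom ⟨leftReg G g', leftReg_mem G _⟩ * ξ *
              ι.hom ⟨leftReg G g⁻¹, leftReg_mem G _⟩)) = 0

/-- [MAINA] The main theorem. -/
def MainAStmt : Prop :=
  ∀ (G : Type) [Group G] [Countable G],
    (∀ g : G, g ≠ 1 → (Set.range fun h : G => h * g * h⁻¹).Infinite) →
    ∀ (H : Subgroup G) (α : H →* G), ¬ IsAmen H → Function.Injective α →
      ∀ g g' : G, (∀ h : H, (h : G) = g → α h ≠ g') →
        (∀ z : G, ¬ IsAmen (α.eqLocus ((MulAut.conj z).toMonoidHom.comp H.subtype)) →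
          g' * z = z * g) →
        ∃ M : TracialVNA, M.IsII1Factor ∧ TopologicalSpace.SeparableSpace M.H ∧
          ∃ ι : Embedding (LG G) M, ∀ U : Ultrafilter ℕ, ¬ IsExistential U ι

end

end MP8a6869.WR
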